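import Mathlib

/-!
# Module CycDesc (MP_187c26_nt, sums of radicals): descent in cyclotomic fields

`Ω` a field of characteristic zero, `ζ ∈ Ω` a primitive `p M`-th root of unity, `E = ℚ(ζ)`,
`E' = ℚ(ζ^p)`. If `a ∈ E`, `a ≠ 0`, satisfies `(τ a)^p = a^p` for every automorphism `τ` of the field
`E` with `τ (ζ^p) = ζ^p`, then some root of unity `ξ ∈ E` has `ξ a ∈ E'`.

Proof. Put `G' = {τ : E ≃+* E | τ (ζ^p) = ζ^p}` (these are the automorphisms of `E` over `E'`), finite,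
`[E : E'] = φ(pM)/φ(M) = |G'|`; `E/ℚ` is Galois (`IsCyclotomicExtension.isGalois`), so an element of `E`
fixed by `G'` lies in `E'` (`IsGalois.mem_bot_iff_fixed` for `E/E'`, or
`IntermediateField.fixedField_fixingSubgroup`/`IsGalois.fixedField_fixingSubgroup`).
For `τ ∈ G'` put `ω_τ = τ a / a`, `ω_τ^p = 1`.
(i) `p ∤ M`: `p ∤ |G'|` (an element of order `p` of `G'` fixes `ζ^M`, by Fermat, and `ζ^p`, so it fixes `ζ`). The
element `c = ∏_{τ ∈ G'} τ a` lies in `E'`, and `c = a^k ∏ ω_τ = a^k η`, `k = |G'|`, `η^p = 1`. `a^p` is fixed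
by `G'` so `a^p ∈ E'`. With `u k + v p = 1`: `η^u a = c^u (a^p)^v ∈ E'`.
(ii) `p ∣ M`: `ε = ζ^M` is a primitive `p`-th root of unity, a power of `ζ^p`, so `ε ∈ E'`. There is `σ ∈ G'`
with `σ ζ = ζ^(1+M) = ζ ε` (`1 + M` is prime to `pM` since every prime factor of `pM` divides `M`).
`σ a = ω a` with `ω^p = 1`, so `ω = ε^j`; `b = a ζ^(-j)` satisfies `σ b = ω a ζ^(-j) ε^(-j) = b`.
Every `τ ∈ G'` has `(τ ζ)^p = ζ^p`, so `τ ζ = ζ ε^k = σ^k ζ` (as `σ ε = ε`), so `τ = σ^k` on `E = ℚ(ζ)` and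
`τ b = b`. Hence `b ∈ E'`, `ξ = ζ^(-j)`.
-/

set_option autoImplicit false

open IntermediateField

namespace Pool.Agent.H4.OH

section CycDescAux

variable {E : Type} [Field E] [CharZero E]

/-- automorphisms are determined by the value at a primitive root -/
theorem cycDesc_ext (n : ℕ) [NeZero n] [IsCyclotomicExtension {n} ℚ E] (z : E)
    (hz : IsPrimitiveRoot z n) (s t : E ≃ₐ[ℚ] E) (h : s z = t z) : s = t := by
  apply AlgEquiv.coe_toAlgHom_injective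
  apply (hz.powerBasis ℚ).algHom_ext
  rw [hz.powerBasis_gen ℚ]
  exact h

/-- there is an automorphism with given exponent prime to `n` -/
theorem cycDesc_exists (n : ℕ) [NeZero n] [IsCyclotomicExtension {n} ℚ E] (z : E)
    (hz : IsPrimitiveRoot z n) (k : ℕ) (hk : k.Coprime n) : ∃ s : E ≃ₐ[ℚ] E, s z = z ^ k := by
  have hζ := IsCyclotomicExtension.zeta_spec n ℚ E
  have hirr := Polynomial.cyclotomic.irreducible_rat (NeZero.pos n)
  refine ⟨IsCyclotomicExtension.fromZetaAut (hζ.pow_of_coprime k hk) hirr, ?_⟩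
  obtain ⟨i, -, hi⟩ := hζ.eq_pow_of_pow_eq_one hz.pow_eq_one
  rw [← hi, map_pow, IsCyclotomicExtension.fromZetaAut_spec, ← pow_mul, ← pow_mul, mul_comm]

theorem cycDesc_two (p M : ℕ) (hp : p.Prime) (hM : 1 ≤ M) (hpM : p ∣ M)
    [NeZero (p * M)] [IsCyclotomicExtension {p * M} ℚ E] (z : E)
    (hz : IsPrimitiveRoot z (p * M)) (a : E) (ha : a ≠ 0)
    (h : ∀ s : E ≃ₐ[ℚ] E, s (z ^ p) = z ^ p → (s a) ^ p = a ^ p) :
    ∃ ξ : E, ξ ^ (p * M) = 1 ∧ ∀ s : E ≃ₐ[ℚ] E, s (z ^ p) = z ^ p → s (ξ * a) = ξ * a := by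
  have hz0 : z ≠ 0 := hz.ne_zero (NeZero.ne _)
  have hε : IsPrimitiveRoot (z ^ M) p := hz.pow (NeZero.pos _) (mul_comm p M)
  obtain ⟨M', hM'⟩ := hpM
  have hεfix : ∀ s : E ≃ₐ[ℚ] E, s (z ^ p) = z ^ p → s (z ^ M) = z ^ M := by
    intro s hs
    rw [hM', pow_mul, map_pow, hs]
  have hcop : (1 + M).Coprime (p * M) := by
    have h1 : (1 + M).Coprime M := by
      rw [Nat.coprime_add_self_left]; exact Nat.coprime_one_left M
    have h2 : (1 + M).Coprime p := Nat.Coprime.coprime_dvd_right ⟨M', hM'⟩ h1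
    exact Nat.Coprime.mul_right h2 h1
  obtain ⟨σ, hσ⟩ := cycDesc_exists (p * M) z hz (1 + M) hcop
  have hσp : σ (z ^ p) = z ^ p := by
    rw [map_pow, hσ, ← pow_mul, add_mul, one_mul, pow_add, mul_comm M p, hz.pow_eq_one, mul_one]
  have hσε : σ (z ^ M) = z ^ M := hεfix σ hσp
  have hσz : σ z = z * z ^ M := by rw [hσ, pow_add, pow_one]
  have : NeZero p := ⟨hp.ne_zero⟩
  -- sigma a = eps^j a
  have hω : (σ a / a) ^ p = 1 := by
    rw [div_pow, h σ hσp, div_self (pow_ne_zero _ ha)]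
  obtain ⟨j, -, hj⟩ := hε.eq_pow_of_pow_eq_one hω
  have hσa : σ a = (z ^ M) ^ j * a := by rw [hj, div_mul_cancel₀ _ ha]
  refine ⟨(z ^ j)⁻¹, ?_, ?_⟩
  · rw [inv_pow, ← pow_mul, mul_comm j, pow_mul, hz.pow_eq_one, one_pow, inv_one]
  have hσb : σ ((z ^ j)⁻¹ * a) = (z ^ j)⁻¹ * a := by
    rw [map_mul, map_inv₀, map_pow, hσz, hσa, mul_pow, mul_inv]
    have : (z ^ M) ^ j ≠ 0 := pow_ne_zero _ (pow_ne_zero _ hz0)
    field_simp
  have hσk : ∀ k : ℕ, (σ ^ k) z = z * (z ^ M) ^ k := by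
    intro k
    induction k with
    | zero => simp
    | succ k ih =>
      rw [pow_succ', AlgEquiv.mul_apply, ih, map_mul, map_pow, hσε, hσz]
      ring
  have hσkb : ∀ k : ℕ, (σ ^ k) ((z ^ j)⁻¹ * a) = (z ^ j)⁻¹ * a := by
    intro k
    induction k with
    | zero => simp
    | succ k ih => rw [pow_succ', AlgEquiv.mul_apply, ih, hσb]
  intro s hs
  have hsω : (s z / z) ^ p = 1 := by
    rw [div_pow, ← map_pow, hs, div_self (pow_ne_zero _ hz0)]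
  obtain ⟨k, -, hk⟩ := hε.eq_pow_of_pow_eq_one hsω
  have hsz : s z = z * (z ^ M) ^ k := by rw [hk, mul_div_cancel₀ _ hz0]
  have : s = σ ^ k := cycDesc_ext (p * M) z hz s (σ ^ k) (by rw [hsz, hσk])
  rw [this, hσkb]

theorem cycDesc_one (p M : ℕ) (hp : p.Prime) (hM : 1 ≤ M) (hpM : ¬ p ∣ M)
    [NeZero (p * M)] [IsCyclotomicExtension {p * M} ℚ E] (z : E)
    (hz : IsPrimitiveRoot z (p * M)) (a : E) (ha : a ≠ 0)
    (h : ∀ s : E ≃ₐ[ℚ] E, s (z ^ p) = z ^ p → (s a) ^ p = a ^ p) :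
    ∃ ξ : E, ξ ^ (p * M) = 1 ∧ ∀ s : E ≃ₐ[ℚ] E, s (z ^ p) = z ^ p → s (ξ * a) = ξ * a := by
  classical
  have hz0 : z ≠ 0 := hz.ne_zero (NeZero.ne _)
  have hε : IsPrimitiveRoot (z ^ M) p := hz.pow (NeZero.pos _) (mul_comm p M)
  have : NeZero p := ⟨hp.ne_zero⟩
  have : Fact p.Prime := ⟨hp⟩
  have : FiniteDimensional ℚ E := IsCyclotomicExtension.finiteDimensional {p * M} ℚ E
  let G : Subgroup (E ≃ₐ[ℚ] E) :=
    { carrier := {s | s (z ^ p) = z ^ p}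
      mul_mem' := by
        intro s t hs ht
        change s (t (z ^ p)) = z ^ p
        rw [show t (z ^ p) = z ^ p from ht]; exact hs
      one_mem' := rfl
      inv_mem' := by
        intro s hs
        change s.symm (z ^ p) = z ^ p
        rw [AlgEquiv.symm_apply_eq]
        exact (show s (z ^ p) = z ^ p from hs).symm }
  have : Finite (E ≃ₐ[ℚ] E) := inferInstance
  have : Fintype G := Fintype.ofFinite G
  have hG : ∀ s : G, (s : E ≃ₐ[ℚ] E) (z ^ p) = z ^ p := fun s => s.2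
  -- p does not divide |G|
  have hcard : ¬ p ∣ Fintype.card G := by
    intro hd
    obtain ⟨s, hs⟩ := exists_prime_orderOf_dvd_card p hd
    obtain ⟨i, -, hi⟩ := hε.eq_pow_of_pow_eq_one (show ((s : E ≃ₐ[ℚ] E) (z ^ M)) ^ p = 1 by
      rw [← map_pow, hε.pow_eq_one, map_one])
    have hk : ∀ k : ℕ, ((s : E ≃ₐ[ℚ] E) ^ k) (z ^ M) = (z ^ M) ^ (i ^ k) := by
      intro k
      induction k with
      | zero => simp
      | succ k ih =>
        rw [pow_succ', AlgEquiv.mul_apply, ih, map_pow, ← hi, ← pow_mul]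
        congr 1
        ring
    have hsp : (s : E ≃ₐ[ℚ] E) ^ p = 1 := by
      have := pow_orderOf_eq_one s
      rw [hs] at this
      have h2 := congrArg (fun t : G => (t : E ≃ₐ[ℚ] E)) this
      simpa using h2
    have h3 : (z ^ M) ^ (i ^ p) = z ^ M := by
      rw [← hk p, hsp]; rfl
    have h4 : (z ^ M) ^ i = z ^ M := by
      have hm : i ^ p ≡ i [MOD p] := by
        rw [← ZMod.natCast_eq_natCast_iff, Nat.cast_pow, ZMod.pow_card]
      have h5 : (z ^ M) ^ (i ^ p) = (z ^ M) ^ i := by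
        rw [← pow_mod_orderOf (z ^ M) (i ^ p), ← pow_mod_orderOf (z ^ M) i, ← hε.eq_orderOf]
        exact congrArg _ hm
      exact h5.symm.trans h3
    have h5 : (s : E ≃ₐ[ℚ] E) (z ^ M) = z ^ M := hi.symm.trans h4
    have h6 : (s : E ≃ₐ[ℚ] E) z = z := by
      have hc : IsCoprime (p : ℤ) (M : ℤ) := Nat.isCoprime_iff_coprime.2
        ((Nat.Prime.coprime_iff_not_dvd hp).2 hpM)
      obtain ⟨u, v, huv⟩ := hc
      have : z = (z ^ p) ^ u * (z ^ M) ^ v := by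
        rw [← zpow_natCast, ← zpow_natCast, ← zpow_mul, ← zpow_mul, ← zpow_add₀ hz0,
          show (p : ℤ) * u + (M : ℤ) * v = 1 by linarith, zpow_one]
      rw [this, map_mul, map_zpow₀, map_zpow₀, hG s, h5]
    have h7 : (s : E ≃ₐ[ℚ] E) = 1 := cycDesc_ext (p * M) z hz _ _ h6
    have h8 : s = 1 := Subtype.ext h7
    rw [h8, orderOf_one] at hs
    exact hp.one_lt.ne hs
  set k := Fintype.card G with hkdef
  let c : E := ∏ s : G, (s : E ≃ₐ[ℚ] E) a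
  let η : E := ∏ s : G, ((s : E ≃ₐ[ℚ] E) a / a)
  have hcη : c = a ^ k * η := by
    change _ = a ^ k * ∏ s : G, ((s : E ≃ₐ[ℚ] E) a / a)
    rw [Finset.prod_div_distrib, Finset.prod_const, Finset.card_univ, ← hkdef,
      mul_div_cancel₀ _ (pow_ne_zero _ ha)]
  have hη : η ^ p = 1 := by
    change (∏ s : G, ((s : E ≃ₐ[ℚ] E) a / a)) ^ p = 1
    rw [← Finset.prod_pow]
    refine Finset.prod_eq_one fun s _ => ?_
    rw [div_pow, h s (hG s), div_self (pow_ne_zero _ ha)]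
  have hη0 : η ≠ 0 := fun h0 => by
    rw [h0, zero_pow hp.ne_zero] at hη
    exact zero_ne_one hη
  have hcfix : ∀ t : G, (t : E ≃ₐ[ℚ] E) c = c := by
    intro t
    change (t : E ≃ₐ[ℚ] E) (∏ s : G, (s : E ≃ₐ[ℚ] E) a) = ∏ s : G, (s : E ≃ₐ[ℚ] E) a
    rw [map_prod]
    exact Fintype.prod_equiv (Equiv.mulLeft t) _ _ fun s => rfl
  have hapfix : ∀ t : G, (t : E ≃ₐ[ℚ] E) (a ^ p) = a ^ p := fun t => by
    rw [map_pow, h t (hG t)]
  have hc : IsCoprime (k : ℤ) (p : ℤ) := Nat.isCoprime_iff_coprime.2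
    ((Nat.Prime.coprime_iff_not_dvd hp).2 hcard).symm
  obtain ⟨u, v, huv⟩ := hc
  have hηu : ∀ w : ℤ, (η ^ w) ^ (p * M) = 1 := by
    intro w
    rw [← zpow_natCast, ← zpow_mul, mul_comm w, zpow_mul, zpow_natCast, pow_mul, hη, one_pow,
      one_zpow]
  have key : η ^ u * a = c ^ u * (a ^ p) ^ v := by
    rw [hcη, mul_zpow, ← zpow_natCast, ← zpow_natCast, ← zpow_mul, ← zpow_mul]
    have : a ^ ((k : ℤ) * u) * a ^ ((p : ℤ) * v) = a := by
      rw [← zpow_add₀ ha, show (k : ℤ) * u + (p : ℤ) * v = 1 by linarith, zpow_one]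
    calc η ^ u * a = η ^ u * (a ^ ((k : ℤ) * u) * a ^ ((p : ℤ) * v)) := by rw [this]
      _ = _ := by ring
  refine ⟨η ^ u, hηu u, fun s hs => ?_⟩
  have hs' := hcfix ⟨s, hs⟩
  have hs'' := hapfix ⟨s, hs⟩
  change s c = c at hs'
  change s (a ^ p) = a ^ p at hs''
  rw [key, map_mul, map_zpow₀, map_zpow₀, hs', hs'']

end CycDescAux

theorem cycDesc {Ω : Type} [Field Ω] [CharZero Ω] (p M : ℕ) (hp : p.Prime) (hM : 1 ≤ M) (ζ : Ω)
    (hζ : IsPrimitiveRoot ζ (p * M)) (a : ℚ⟮ζ⟯) (ha : a ≠ 0)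
    (h : ∀ s : ℚ⟮ζ⟯ ≃+* ℚ⟮ζ⟯, s (AdjoinSimple.gen ℚ ζ ^ p) = AdjoinSimple.gen ℚ ζ ^ p →
      (s a) ^ p = a ^ p) :
    ∃ ξ : Ω, ξ ^ (p * M) = 1 ∧ ξ * (a : Ω) ∈ ℚ⟮ζ ^ p⟯ := by
  have hne : NeZero (p * M) := ⟨(Nat.mul_pos hp.pos hM).ne'⟩
  have : IsCyclotomicExtension {p * M} ℚ ℚ⟮ζ⟯ := by
    change IsCyclotomicExtension {p * M} ℚ (ℚ⟮ζ⟯).toSubalgebra
    rw [IntermediateField.adjoin_simple_toSubalgebra_of_isAlgebraic
      (hζ.isIntegral (NeZero.pos _)).tower_top.isAlgebraic]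
    exact hζ.adjoin_isCyclotomicExtension ℚ
  have : IsGalois ℚ ℚ⟮ζ⟯ := IsCyclotomicExtension.isGalois {p * M} ℚ ℚ⟮ζ⟯
  have : FiniteDimensional ℚ ℚ⟮ζ⟯ := IsCyclotomicExtension.finiteDimensional {p * M} ℚ ℚ⟮ζ⟯
  let z : ℚ⟮ζ⟯ := AdjoinSimple.gen ℚ ζ
  have hzζ : (z : Ω) = ζ := AdjoinSimple.coe_gen ℚ ζ
  have hz : IsPrimitiveRoot z (p * M) := by
    refine IsPrimitiveRoot.of_map_of_injective (f := algebraMap ℚ⟮ζ⟯ Ω) ?_
      (algebraMap ℚ⟮ζ⟯ Ω).injective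
    change IsPrimitiveRoot (z : Ω) (p * M)
    rw [hzζ]; exact hζ
  have h' : ∀ s : ℚ⟮ζ⟯ ≃ₐ[ℚ] ℚ⟮ζ⟯, s (z ^ p) = z ^ p → (s a) ^ p = a ^ p := fun s hs =>
    h s.toRingEquiv hs
  have hmain : ∃ ξ : ℚ⟮ζ⟯, ξ ^ (p * M) = 1 ∧
      ∀ s : ℚ⟮ζ⟯ ≃ₐ[ℚ] ℚ⟮ζ⟯, s (z ^ p) = z ^ p → s (ξ * a) = ξ * a := by
    by_cases hpM : p ∣ M
    · exact cycDesc_two p M hp hM hpM z hz a ha h'
    · exact cycDesc_one p M hp hM hpM z hz a ha h'
  obtain ⟨ξ, hξ, hfix⟩ := hmain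
  refine ⟨(ξ : Ω), ?_, ?_⟩
  · have := congrArg (algebraMap ℚ⟮ζ⟯ Ω) hξ
    rw [map_pow, map_one] at this
    exact this
  · -- the fixed field
    let K' : IntermediateField ℚ ℚ⟮ζ⟯ := ℚ⟮z ^ p⟯
    have hmem : ξ * a ∈ K' := by
      rw [← IsGalois.fixedField_fixingSubgroup K', IntermediateField.mem_fixedField_iff]
      intro s hs
      apply hfix s
      rw [IntermediateField.mem_fixingSubgroup_iff] at hs
      exact hs _ (IntermediateField.mem_adjoin_simple_self ℚ (z ^ p))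
    have hle : ∀ y : ℚ⟮ζ⟯, y ∈ K' → (y : Ω) ∈ ℚ⟮ζ ^ p⟯ := by
      intro y hy
      refine IntermediateField.adjoin_induction ℚ (E := ℚ⟮ζ⟯) (s := {z ^ p})
        (p := fun (x : ℚ⟮ζ⟯) _ => (x : Ω) ∈ ℚ⟮ζ ^ p⟯) ?_ ?_ ?_ ?_ ?_ hy
      · intro x hx
        rw [Set.mem_singleton_iff] at hx
        have : ((z ^ p : ℚ⟮ζ⟯) : Ω) = ζ ^ p := congrArg (fun w : Ω => w ^ p) hzζ
        rw [hx, this]
        exact IntermediateField.mem_adjoin_simple_self ℚ (ζ ^ p)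
      · intro q
        have : ((algebraMap ℚ ℚ⟮ζ⟯ q : ℚ⟮ζ⟯) : Ω) = algebraMap ℚ Ω q := by
          rw [eq_ratCast, eq_ratCast]
          exact map_ratCast (algebraMap ℚ⟮ζ⟯ Ω) q
        rw [this]
        exact (ℚ⟮ζ ^ p⟯).algebraMap_mem q
      · intro x y _ _ hx hy
        exact add_mem hx hy
      · intro x _ hx
        exact inv_mem hx
      · intro x y _ _ hx hy
        exact mul_mem hx hy
    exact hle _ hmem

end Pool.Agent.H4.OH
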