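import Pool.Agent.H4.OH.CycPow
import Pool.Agent.H4.OH.CycDesc
import Pool.Agent.H4.RR.AbsHeight

/-!
# Module CycAll (MP_187c26_nt, sums of radicals): heights in all cyclotomic fields

Proof. Strong induction on `N`. `3 ∤ N`: `bogCyc` with `p = 3` (constant `log(9/2)/12 ≥ log(3/2)/6`) and
`absLogHeight_eq` for `ι = (ℚ⟮ζ⟯).val`; `ℚ⟮ζ⟯` is a cyclotomic extension
(`IsPrimitiveRoot.intermediateField_adjoin_isCyclotomicExtension`) and a number field.
`N = 3 M`: if some ring automorphism `s` of `E = ℚ⟮ζ⟯` with `s (ζ^3) = ζ^3` has `(s a)^3 ≠ a^3`, use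
`cycPow` (`p = 3`). Otherwise `cycDesc` gives `ξ` of finite order with `ξ a ∈ ℚ⟮ζ^3⟯`, `ζ^3` a primitive
`M`-th root of unity (`IsPrimitiveRoot.pow`), `ξ a` not torsion, and
`absLogHeight₁ (ξ a) = absLogHeight₁ a` (`n h(ξ a) = h((ξ a)^n) = h(a^n) = n h(a)` with `ξ^n = 1`,
`absLogHeight_pow`); induction.
-/

set_option autoImplicit false

open IntermediateField NumberField

namespace Pool.Agent.H4.OH

open Pool.Agent.H4.RR

theorem cycAll {Ω : Type} [Field Ω] [CharZero Ω] (N : ℕ) (hN : 1 ≤ N) (ζ : Ω)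
    (hζ : IsPrimitiveRoot ζ N) (a : Ω) (haE : a ∈ ℚ⟮ζ⟯) (ha : a ≠ 0)
    (htors : ∀ n : ℕ, 1 ≤ n → a ^ n ≠ 1) :
    Real.log (3 / 2) / 6 ≤ absLogHeight₁ a := by
  induction N using Nat.strong_induction_on generalizing ζ a with
  | _ N ih =>
  have hN0 : 0 < N := hN
  have hNe : NeZero N := ⟨hN0.ne'⟩
  have hζint : IsIntegral ℚ ζ := (hζ.isIntegral hN0).tower_top
  have hfd : FiniteDimensional ℚ ℚ⟮ζ⟯ := IntermediateField.adjoin.finiteDimensional hζint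
  have hnf : NumberField ℚ⟮ζ⟯ := {}
  have hcyc : IsCyclotomicExtension {N} ℚ ℚ⟮ζ⟯ := by
    change IsCyclotomicExtension {N} ℚ (IntermediateField.adjoin ℚ {ζ}).toSubalgebra
    rw [IntermediateField.adjoin_simple_toSubalgebra_of_isAlgebraic hζint.isAlgebraic]
    exact hζ.adjoin_isCyclotomicExtension ℚ
  obtain ⟨a', rfl⟩ : ∃ a' : ℚ⟮ζ⟯, (a' : Ω) = a := ⟨⟨a, haE⟩, rfl⟩
  have ha' : a' ≠ 0 := by
    rintro rfl
    exact ha rfl
  have htors' : ∀ n : ℕ, 1 ≤ n → a' ^ n ≠ 1 := by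
    intro n hn h
    apply htors n hn
    have h1 := congrArg (fun z : ℚ⟮ζ⟯ => (z : Ω)) h
    simpa using h1
  have heq : absLogHeight₁ (a' : Ω) = Height.logHeight₁ a' / Module.finrank ℚ ℚ⟮ζ⟯ :=
    absLogHeight_eq ℚ⟮ζ⟯ Ω (IntermediateField.val ℚ⟮ζ⟯).toRingHom a'
  have hfr : (0 : ℝ) < Module.finrank ℚ ℚ⟮ζ⟯ := by
    exact_mod_cast (Module.finrank_pos (R := ℚ) (M := ℚ⟮ζ⟯))
  by_cases h3 : 3 ∣ N
  · obtain ⟨M, rfl⟩ := h3
    have hM : 1 ≤ M := by omega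
    have hgen : IsPrimitiveRoot (AdjoinSimple.gen ℚ ζ) (3 * M) := by
      apply IsPrimitiveRoot.of_map_of_injective (f := (IntermediateField.val ℚ⟮ζ⟯))
      · exact hζ
      · exact (IntermediateField.val ℚ⟮ζ⟯).toRingHom.injective
    by_cases hs : ∃ s : ℚ⟮ζ⟯ ≃+* ℚ⟮ζ⟯,
        s (AdjoinSimple.gen ℚ ζ ^ 3) = AdjoinSimple.gen ℚ ζ ^ 3 ∧ (s a') ^ 3 ≠ a' ^ 3
    · obtain ⟨s, hs1, hs2⟩ := hs
      have h4 := cycPow ℚ⟮ζ⟯ (3 * M) 3 hN Nat.prime_three (AdjoinSimple.gen ℚ ζ) hgen s hs1 a'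
        ha' hs2
      rw [heq, le_div_iff₀ hfr]
      refine le_trans (le_of_eq ?_) h4
      norm_num
    · obtain ⟨ξ, hξ, hξa⟩ := cycDesc 3 M Nat.prime_three hM ζ hζ a' ha' (by
        intro s hs1
        by_contra hs2
        exact hs ⟨s, hs1, hs2⟩)
      have hξ0 : ξ ≠ 0 := by
        rintro rfl
        rw [zero_pow (by omega)] at hξ
        exact zero_ne_one hξ
      have haint : IsIntegral ℚ (a' : Ω) :=
        (Algebra.IsIntegral.isIntegral (R := ℚ) a').map (IntermediateField.val ℚ⟮ζ⟯)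
      have hξint : IsIntegral ℚ ξ := by
        apply IsIntegral.of_pow (n := 3 * M) (by omega)
        rw [hξ]
        exact isIntegral_one
      have h5 : absLogHeight₁ (ξ * (a' : Ω)) = absLogHeight₁ (a' : Ω) := by
        have e1 := absLogHeight_pow Ω (ξ * (a' : Ω)) (hξint.mul haint) (3 * M)
        have e2 := absLogHeight_pow Ω (a' : Ω) haint (3 * M)
        rw [mul_pow, hξ, one_mul, e2] at e1
        have e3 : ((3 * M : ℕ) : ℝ) ≠ 0 := by
          exact_mod_cast hN0.ne'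
        exact (mul_left_cancel₀ e3 e1).symm
      rw [← h5]
      refine ih M (by omega) hM (ζ ^ 3) (hζ.pow hN0 rfl) (ξ * (a' : Ω)) hξa
        (mul_ne_zero hξ0 ha) ?_
      intro n hn h6
      apply htors (n * (3 * M)) (Nat.mul_pos hn hN0)
      have h7 : (ξ * (a' : Ω)) ^ (n * (3 * M)) = 1 := by rw [pow_mul, h6, one_pow]
      rw [mul_pow, mul_comm n (3 * M), pow_mul ξ, hξ, one_pow, one_mul] at h7
      rw [mul_comm n (3 * M)]
      exact h7
  · have h4 := bogCyc ℚ⟮ζ⟯ N 3 hN Nat.prime_three h3 a' ha' htors'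
    rw [heq, le_div_iff₀ hfr]
    refine le_trans (mul_le_mul_of_nonneg_right ?_ hfr.le) h4
    have h5 : Real.log ((3 / 2 : ℝ) ^ 2) ≤ Real.log (((3 : ℕ) : ℝ) ^ 2 / 2) := by
      apply Real.log_le_log
      · norm_num
      · norm_num
    rw [Real.log_pow] at h5
    have h6 : (((3 : ℕ) : ℝ) ^ 2 + ((3 : ℕ) : ℝ)) = 12 := by norm_num
    rw [h6]
    push_cast at h5 ⊢
    linarith

end Pool.Agent.H4.OH
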