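import Pool.Agent.H4.OH.SubDefs
import Pool.Agent.H4.OH.CycAll

/-!
# Module BaseS (MP_187c26_nt, sums of radicals): the base order `ℤ[ζ]`

`A = ℤ[ζ] ⊆ Ω` is (isomorphic to) the ring of integers of `E = ℚ⟮ζ⟯`.

(a) `base_finite`: `Module.Finite ℤ A` (`ζ` is integral: `A` is the image of
`Algebra.adjoin ℤ {ζ}`; `IsIntegral.fg_adjoin_singleton`, or through the isomorphism with `𝓞 E`).

(b) `base_bog`. Proof. There is a ring isomorphism `e : 𝓞 E ≃+* A`, `(e y : Ω) = y`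
(`IsCyclotomicExtension.Rat.adjoin_singleton_eq_top` or
`IsCyclotomicExtension.Rat.isIntegralClosure_adjoin_singleton`: `𝓞 E = ℤ[ζ]`; both are the subring of
`Ω` generated by `ζ`). For `a b : A` nonzero, `a' = e.symm a`, `b' = e.symm b`:
`OHt A a b = OHt (𝓞 E) a' b'` (product over `A →+* ℂ` versus `𝓞 E →+* ℂ`, reindex by `e`; `idx` is
invariant under ring isomorphisms), and
`OHt (𝓞 E) a' b' = mulHeight₁ (b'/a' : E)` by `height_mul_absNorm` (file RR/HeightIdeal.lean): the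
embeddings of `𝓞 E` are those of `E` (`homEquiv`), `Ideal.absNorm (span {a', b'}) = idx (𝓞 E) a' b'` (both
are `Nat.card (𝓞 E ⧸ I)`, `Submodule.cardQuot_apply`, `rfl`-like). So
`log (OHt A a b) = logHeight₁ (b'/a') = [E:ℚ] * absLogHeight₁ (b/a)` (`absLogHeight_eq`),
`card (A →+* ℂ) = [E:ℚ]`. If `b/a` is a root of unity then `a = s b` with `s ∈ T` (`s = a/b ∈ E` is a root of
unity, so integral, so in `A`), excluded. So `cycAll` applies to `b/a`.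
-/

set_option autoImplicit false

open IntermediateField NumberField

namespace Pool.Agent.H4.OH

open Pool.Agent.H4.RR

variable {Ω : Type} [Field Ω] [CharZero Ω]

/-- The roots of unity of a subring. -/
def rootsIn (A : Subring Ω) : Subgroup Ωˣ where
  carrier := {ζ | (ζ : Ω) ∈ A ∧ ∃ n : ℕ, 1 ≤ n ∧ ζ ^ n = 1}
  one_mem' := ⟨by simp, 1, le_rfl, by simp⟩
  mul_mem' := by
    rintro a b ⟨ha, n, hn, hna⟩ ⟨hb, k, hk, hkb⟩
    refine ⟨by rw [Units.val_mul]; exact A.mul_mem ha hb, n * k, Nat.mul_pos hn hk, ?_⟩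
    rw [mul_pow, pow_mul, hna, one_pow, one_mul, mul_comm n k, pow_mul, hkb, one_pow]
  inv_mem' := by
    rintro a ⟨ha, n, hn, hna⟩
    have h1 : a⁻¹ = a ^ (n - 1) := by
      rw [inv_eq_iff_mul_eq_one, ← pow_succ']
      have : n - 1 + 1 = n := by omega
      rw [this, hna]
    refine ⟨?_, n, hn, by rw [inv_pow, hna, inv_one]⟩
    rw [h1, Units.val_pow_eq_pow_val]
    exact A.pow_mem ha _

theorem baseS_idx_equiv (A B : Type) [CommRing A] [CommRing B] (e : A ≃+* B) (a b : A) :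
    idx B (e a) (e b) = idx A a b := by
  unfold idx
  have h : Submodule.toAddSubgroup (Ideal.span {e a, e b})
      = (Submodule.toAddSubgroup (Ideal.span {a, b})).map
        ((e.toAddEquiv : A ≃+ B) : A →+ B) := by
    ext y
    constructor
    · intro hy
      rw [Submodule.mem_toAddSubgroup, Ideal.mem_span_pair] at hy
      obtain ⟨c, d, hcd⟩ := hy
      refine ⟨e.symm y, ?_, by simp⟩
      show e.symm y ∈ Ideal.span {a, b}
      rw [Ideal.mem_span_pair]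
      exact ⟨e.symm c, e.symm d, by rw [← hcd]; simp⟩
    · rintro ⟨x, hx, rfl⟩
      have hx' : x ∈ Ideal.span {a, b} := hx
      rw [Ideal.mem_span_pair] at hx'
      obtain ⟨c, d, hcd⟩ := hx'
      rw [Submodule.mem_toAddSubgroup, Ideal.mem_span_pair]
      refine ⟨e c, e d, ?_⟩
      show e c * e a + e d * e b = e x
      rw [← hcd]
      simp
  rw [h]
  exact AddSubgroup.index_map_equiv _ _

theorem baseS_OHt_equiv (A B : Type) [CommRing A] [IsDomain A] [CharZero A] [Module.Finite ℤ A]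
    [CommRing B] [IsDomain B] [CharZero B] [Module.Finite ℤ B] (e : A ≃+* B) (a b : A) :
    OHt B (e a) (e b) = OHt A a b := by
  unfold OHt
  rw [baseS_idx_equiv A B e a b]
  congr 1
  refine Fintype.prod_equiv
    ⟨fun σ => σ.comp (e : A →+* B), fun τ => τ.comp (e.symm : B →+* A), ?_, ?_⟩ _ _ ?_
  · intro σ
    ext x
    simp
  · intro τ
    ext x
    simp
  · intro σ
    rfl

theorem baseS_ringOfIntegers (E : Type) [Field E] [NumberField E] (a b : 𝓞 E) (ha : a ≠ 0) :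
    OHt (𝓞 E) a b = Height.mulHeight₁ ((b : E) / (a : E)) := by
  have h := height_mul_absNorm E a b ha
  have h1 : (∏ τ : 𝓞 E →+* ℂ, max ‖τ a‖ ‖τ b‖)
      = ∏ σ : E →+* ℂ, max ‖σ (a : E)‖ ‖σ (b : E)‖ := by
    refine (Fintype.prod_equiv (homEquiv (𝓞 E) E)
      (fun σ : E →+* ℂ => max ‖σ (a : E)‖ ‖σ (b : E)‖)
      (fun τ : 𝓞 E →+* ℂ => max ‖τ a‖ ‖τ b‖) (fun σ => rfl)).symm
  have h2 : (Ideal.absNorm (Ideal.span {a, b}) : ℝ) = (idx (𝓞 E) a b : ℝ) := by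
    rfl
  have h3 : (idx (𝓞 E) a b : ℝ) ≠ 0 := by
    rw [← h2, Nat.cast_ne_zero, Ne, Ideal.absNorm_eq_zero_iff]
    intro h
    have : a ∈ Ideal.span {a, b} := Ideal.subset_span (by simp)
    rw [h] at this
    exact ha (by simpa using this)
  unfold OHt
  rw [h1, ← h, h2]
  field_simp

/-- the ring of integers of the cyclotomic field inside the big field -/
noncomputable def baseSHom (ζ : Ω) : 𝓞 (ℚ⟮ζ⟯) →+* Ω :=
  (algebraMap (ℚ⟮ζ⟯) Ω).comp (algebraMap (𝓞 (ℚ⟮ζ⟯)) (ℚ⟮ζ⟯))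

theorem baseSHom_injective (ζ : Ω) : Function.Injective (baseSHom ζ) := by
  intro x y h
  have h1 : (algebraMap (ℚ⟮ζ⟯) Ω) (x : ℚ⟮ζ⟯) = (algebraMap (ℚ⟮ζ⟯) Ω) (y : ℚ⟮ζ⟯) := h
  have h2 := (algebraMap (ℚ⟮ζ⟯) Ω).injective h1
  exact RingOfIntegers.ext h2

theorem baseS_gen (N : ℕ) (ζ : Ω) (hζ : IsPrimitiveRoot ζ N) :
    IsPrimitiveRoot (AdjoinSimple.gen ℚ ζ) N := by
  have h1 : (algebraMap (ℚ⟮ζ⟯) Ω) (AdjoinSimple.gen ℚ ζ) = ζ :=
    AdjoinSimple.algebraMap_gen ℚ ζ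
  refine IsPrimitiveRoot.of_map_of_injective (f := algebraMap (ℚ⟮ζ⟯) Ω) ?_
    (algebraMap (ℚ⟮ζ⟯) Ω).injective
  rw [h1]
  exact hζ

theorem baseS_range (N : ℕ) (hN : 1 ≤ N) (ζ : Ω) (hζ : IsPrimitiveRoot ζ N) :
    (baseSHom ζ).range = Subring.closure {ζ} := by
  have : NeZero N := ⟨by omega⟩
  have hg := baseS_gen N ζ hζ
  have : IsCyclotomicExtension {N} ℚ (ℚ⟮ζ⟯) := by
    have hint : IsIntegral ℚ ζ := (hζ.isIntegral (by omega)).tower_top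
    have htop : Algebra.adjoin ℚ {AdjoinSimple.gen ℚ ζ} = ⊤ := by
      have h := (IntermediateField.adjoin.powerBasis hint).adjoin_gen_eq_top
      rwa [IntermediateField.adjoin.powerBasis_gen] at h
    rw [IsCyclotomicExtension.iff_singleton]
    refine ⟨⟨_, hg⟩, fun x => ?_⟩
    have hx : x ∈ Algebra.adjoin ℚ {AdjoinSimple.gen ℚ ζ} := by
      rw [htop]
      exact Algebra.mem_top
    refine Algebra.adjoin_mono ?_ hx
    rintro y hy
    rw [Set.mem_singleton_iff] at hy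
    rw [hy]
    exact hg.pow_eq_one
  have h1 : (algebraMap (ℚ⟮ζ⟯) Ω) (AdjoinSimple.gen ℚ ζ) = ζ :=
    AdjoinSimple.algebraMap_gen ℚ ζ
  have hcl : IsIntegralClosure (Algebra.adjoin ℤ {AdjoinSimple.gen ℚ ζ}) ℤ (ℚ⟮ζ⟯) :=
    IsCyclotomicExtension.Rat.isIntegralClosure_adjoin_singleton hg
  apply le_antisymm
  · rintro _ ⟨y, rfl⟩
    obtain ⟨z, hz⟩ := hcl.isIntegral_iff.1 y.2
    have hz' : (z : ℚ⟮ζ⟯) = (y : ℚ⟮ζ⟯) := hz
    show (algebraMap (ℚ⟮ζ⟯) Ω) (y : ℚ⟮ζ⟯) ∈ Subring.closure {ζ}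
    rw [← hz']
    have hmem := z.2
    have key : ∀ w : ℚ⟮ζ⟯, w ∈ Algebra.adjoin ℤ {AdjoinSimple.gen ℚ ζ} →
        (algebraMap (ℚ⟮ζ⟯) Ω) w ∈ Subring.closure {ζ} := by
      intro w hw
      induction hw using Algebra.adjoin_induction with
      | mem x hx =>
        rw [Set.mem_singleton_iff] at hx
        rw [hx, h1]
        exact Subring.subset_closure rfl
      | algebraMap r =>
        have : (algebraMap (ℚ⟮ζ⟯) Ω) (algebraMap ℤ (ℚ⟮ζ⟯) r) = (r : Ω) := by simp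
        rw [this]
        exact intCast_mem _ r
      | add x y _ _ hx hy => rw [map_add]; exact Subring.add_mem _ hx hy
      | mul x y _ _ hx hy => rw [map_mul]; exact Subring.mul_mem _ hx hy
    exact key _ hmem
  · rw [Subring.closure_le]
    rintro x hx
    rw [Set.mem_singleton_iff] at hx
    rw [hx]
    refine ⟨⟨AdjoinSimple.gen ℚ ζ, hg.isIntegral (by omega)⟩, ?_⟩
    exact h1

/-- the ring of integers of the cyclotomic field is the base order -/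
noncomputable def baseSEquiv (N : ℕ) (hN : 1 ≤ N) (ζ : Ω) (hζ : IsPrimitiveRoot ζ N) :
    𝓞 (ℚ⟮ζ⟯) ≃+* Subring.closure {ζ} :=
  (RingEquiv.ofLeftInverse (Function.leftInverse_invFun (baseSHom_injective ζ))).trans
    (RingEquiv.subringCongr (baseS_range N hN ζ hζ))

theorem baseSEquiv_apply (N : ℕ) (hN : 1 ≤ N) (ζ : Ω) (hζ : IsPrimitiveRoot ζ N)
    (y : 𝓞 (ℚ⟮ζ⟯)) :
    ((baseSEquiv N hN ζ hζ y : Subring.closure {ζ}) : Ω)
      = (algebraMap (ℚ⟮ζ⟯) Ω) (y : ℚ⟮ζ⟯) := rfl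

theorem baseS_numberField (N : ℕ) (hN : 1 ≤ N) (ζ : Ω) (hζ : IsPrimitiveRoot ζ N) :
    NumberField (ℚ⟮ζ⟯) := by
  have hint : IsIntegral ℚ ζ := (hζ.isIntegral (by omega)).tower_top
  have : FiniteDimensional ℚ (ℚ⟮ζ⟯) := IntermediateField.adjoin.finiteDimensional hint
  exact {}

theorem base_finite (N : ℕ) (hN : 1 ≤ N) (ζ : Ω) (hζ : IsPrimitiveRoot ζ N) :
    Module.Finite ℤ (Subring.closure {ζ}) := by
  have := baseS_numberField N hN ζ hζ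
  exact Module.Finite.equiv (baseSEquiv N hN ζ hζ).toAddEquiv.toIntLinearEquiv

theorem base_bog (N : ℕ) (hN : 1 ≤ N) (ζ : Ω) (hζ : IsPrimitiveRoot ζ N) :
    BogS (Subring.closure {ζ}) (rootsIn (Subring.closure {ζ})) (Real.log (3 / 2) / 6) := by
  have := baseS_numberField N hN ζ hζ
  have hfin := base_finite N hN ζ hζ
  refine ⟨hfin, fun a b ha hb hS => ?_⟩
  set e := baseSEquiv N hN ζ hζ with he
  have hcoe : ∀ y : 𝓞 (ℚ⟮ζ⟯), ((e y : Subring.closure {ζ}) : Ω)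
      = (algebraMap (ℚ⟮ζ⟯) Ω) (y : ℚ⟮ζ⟯) := fun y => rfl
  obtain ⟨a', rfl⟩ := e.surjective a
  obtain ⟨b', rfl⟩ := e.surjective b
  have ha' : a' ≠ 0 := by
    rintro rfl
    exact ha (map_zero e)
  have hb' : b' ≠ 0 := by
    rintro rfl
    exact hb (map_zero e)
  have haE : (a' : ℚ⟮ζ⟯) ≠ 0 := fun h => ha' (RingOfIntegers.ext h)
  have hbE : (b' : ℚ⟮ζ⟯) ≠ 0 := fun h => hb' (RingOfIntegers.ext h)
  rw [baseS_OHt_equiv (𝓞 (ℚ⟮ζ⟯)) (Subring.closure {ζ}) e a' b',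
    baseS_ringOfIntegers (ℚ⟮ζ⟯) a' b' ha']
  have hcard : Fintype.card ((Subring.closure {ζ}) →+* ℂ) = Module.finrank ℚ (ℚ⟮ζ⟯) := by
    rw [card_hom, ← RingOfIntegers.rank (ℚ⟮ζ⟯)]
    exact (LinearEquiv.finrank_eq e.toAddEquiv.toIntLinearEquiv).symm
  rw [hcard]
  have hpos : (0 : ℝ) < Module.finrank ℚ (ℚ⟮ζ⟯) := by exact_mod_cast Module.finrank_pos
  have h1 := absLogHeight_eq (ℚ⟮ζ⟯) Ω (algebraMap (ℚ⟮ζ⟯) Ω) ((b' : ℚ⟮ζ⟯) / (a' : ℚ⟮ζ⟯))
  have h2 : Real.log (3 / 2) / 6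
      ≤ absLogHeight₁ ((algebraMap (ℚ⟮ζ⟯) Ω) ((b' : ℚ⟮ζ⟯) / (a' : ℚ⟮ζ⟯))) := by
    refine cycAll N hN ζ hζ _ ((b' : ℚ⟮ζ⟯) / (a' : ℚ⟮ζ⟯)).2 ?_ ?_
    · rw [map_ne_zero]
      exact div_ne_zero hbE haE
    · intro n hn hpow
      rw [← map_pow, map_eq_one_iff _ (algebraMap (ℚ⟮ζ⟯) Ω).injective] at hpow
      have hpow' : ((a' : ℚ⟮ζ⟯) / (b' : ℚ⟮ζ⟯)) ^ n = 1 := by
        rw [← inv_div, inv_pow, hpow, inv_one]
      have hint : IsIntegral ℤ ((a' : ℚ⟮ζ⟯) / (b' : ℚ⟮ζ⟯)) := by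
        refine IsIntegral.of_pow (n := n) (by omega) ?_
        rw [hpow']
        exact isIntegral_one
      let y : 𝓞 (ℚ⟮ζ⟯) := ⟨(a' : ℚ⟮ζ⟯) / (b' : ℚ⟮ζ⟯), hint⟩
      have hy : (y : ℚ⟮ζ⟯) = (a' : ℚ⟮ζ⟯) / (b' : ℚ⟮ζ⟯) := rfl
      have hyn : ((e y : Subring.closure {ζ}) : Ω) ^ n = 1 := by
        rw [hcoe, ← map_pow, hy, hpow', map_one]
      have hu : IsUnit ((e y : Subring.closure {ζ}) : Ω) :=
        IsUnit.of_pow_eq_one hyn (by omega)
      obtain ⟨s, hs⟩ := hu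
      refine hS s ⟨by rw [hs]; exact (e y).2, n, hn, ?_⟩ ?_
      · ext
        rw [Units.val_pow_eq_pow_val, hs, hyn, Units.val_one]
      · rw [hs, hcoe, hcoe, hcoe, hy, ← map_mul, div_mul_cancel₀ _ hbE]
  rw [h1, le_div_iff₀ hpos] at h2
  exact h2

end Pool.Agent.H4.OH
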