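import Pool.Agent.H4.OH.HtLevel

/-!
# Module Regular (MP_187c26_nt, sums of radicals): order height and Weil height of a regular pair

`A` an order with fraction field `K`, `O = 𝓞 K`. A pair `u, v ∈ A`, nonzero, is regular if some `c ∈ A`
has `c v ∈ u A` and `(1 - c) u ∈ v A` (locally `v/u` or `u/v` is in `A`). Then
`[A : (u,v)A] = [O : (u,v)O]` and the order height equals the Weil height of `v/u`.

Proof. Write `c v = a u`, `(1 - c) u = b v` (`a b ∈ A`), `d = 1 - c`, `I = (u, v)A`, `J = (c v, d u)A`.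
(1) `I J = u v A`: `c u v + d u v = u v ∈ I J`; `d u^2 = b u v`, `c v^2 = a u v`.
(2) For every nonzero integer `f` there is `w ∈ I` with `I = w A + f I`, and the same for `J`:
`A / f A` is a finite ring, so some power `e = c^n`, `n ≥ 1`, satisfies `e^2 - e ∈ f A`
(two powers of `c` coincide mod `f`: `c^i = c^(i+k)`; then `n = i k` works, `k ≥ 1`, `i ≥ 1`).
`e v = a' u` and `(1 - e) u = b' v` with `a' = c^(n-1) a`, `b' = (1 + c + ... + c^(n-1)) b`. Put
`w = e u + (1 - e) v`. Modulo `f I`: `e w ≡ e u`, `(1-e) w ≡ (1-e) v`, hence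
`u = e u + (1-e) u ≡ e w + (1-e)^2 u = e w + (1-e) b' v ≡ (e + b'(1-e)) w` and similarly
`v ≡ (1-e) w + e a' w`. So `I = w A + f I`. `J` is regular too: its generators `u1 = d u`, `v1 = c v` satisfy
`d * v1 = a * u1`... (`d c v = a d u`) and `(1 - d) u1 = c d u = b c v = b v1`, so the same applies to `J`.
(3) `[A : I J] ≤ [A : I] [A : J]`: take `f` with `f A ⊆ J` (`f = [A : J]` kills `A/J`); then
`I = w A + I J`, so `A → I / I J`, `y ↦ w y`, is surjective with kernel containing `J`:
`[I : I J] ≤ [A : J]`; `[A : IJ] = [A : I][I : IJ]`.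
(4) `[A : I] ≤ [O : I O]`: take `f = [O : A]` (finite index; `f O ⊆ A`); `I = w A + f I`, so
`I O = w O + f I O ⊆ w O + I`, i.e. `O → I O / I`, `y ↦ w y`, is surjective with kernel containing `A`:
`[I O : I] ≤ [O : A]`. And `[O : A][A : I] = [O : I] = [O : I O][I O : I] ≤ [O : IO][O : A]`. Same for `J`.
(5) `|N(uv)| = [A : uvA] = [A : IJ] ≤ [A : I][A : J] ≤ [O : IO][O : JO] = [O : IJO] = |N(uv)|`
(`Ideal.absNorm` multiplicative, `Ideal.absNorm_span_singleton`; `index_span_singleton`). All are positive, so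
`[A : I] = [O : I O]`.
(6) `OHt A u v = (∏_τ max) / [A : I]`, `mulHeight₁ (v/u) * absNorm (I O) = ∏ max`
(`height_mul_absNorm`); the rest is as in `log_OHt_coprime_aux` (HtLevel.lean).
-/

set_option autoImplicit false

open NumberField

namespace Pool.Agent.H4.OH

open Pool.Agent.H4.RR

/-- A filtration step: `H` in `L`, when `L` is covered by `φ` and `P` goes to `H`. -/
theorem relIndex_le_of_surj {M N : Type} [AddCommGroup M] [AddCommGroup N] (φ : M →+ N)
    (P : AddSubgroup M) (H L : AddSubgroup N) (hP : ∀ y ∈ P, φ y ∈ H)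
    (hL : ∀ z ∈ L, ∃ y : M, ∃ t ∈ H, z = φ y + t) (h0 : P.index ≠ 0) :
    H.relIndex L ≠ 0 ∧ H.relIndex L ≤ P.index := by
  have h1 : H.relIndex (φ.range ⊔ H) = (H.comap φ).index := by
    rw [AddSubgroup.relIndex_sup_right, AddSubgroup.index_comap]
  have h2 : (H.comap φ).index ∣ P.index := AddSubgroup.index_dvd_of_le hP
  have h3 : (H.comap φ).index ≠ 0 := by
    intro h
    rw [h, zero_dvd_iff] at h2
    exact h0 h2
  have h4 : L ≤ φ.range ⊔ H := by
    intro z hz
    obtain ⟨y, t, ht, rfl⟩ := hL z hz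
    exact AddSubgroup.add_mem_sup ⟨y, rfl⟩ ht
  have h5 : H.relIndex (φ.range ⊔ H) ≠ 0 := by rw [h1]; exact h3
  refine ⟨fun h => h5 (AddSubgroup.relIndex_eq_zero_of_le_right h4 h), ?_⟩
  refine (AddSubgroup.relIndex_le_of_le_right h4 h5).trans ?_
  rw [h1]
  exact Nat.le_of_dvd (Nat.pos_of_ne_zero h0) h2

/-- Some positive power of `c` is idempotent modulo a positive integer. -/
theorem exists_pow_idem (A : Type) [CommRing A] [IsDomain A] [CharZero A] [Module.Finite ℤ A]
    (c : A) (f : ℕ) (hf : f ≠ 0) :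
    ∃ (m : ℕ) (r : A), c ^ (m + 1) * c ^ (m + 1) - c ^ (m + 1) = (f : A) * r := by
  have hfA : (f : A) ≠ 0 := Nat.cast_ne_zero.2 hf
  have hidx : (Submodule.toAddSubgroup (Ideal.span {(f : A)})).index ≠ 0 := by
    rw [index_span_singleton A (f : A) hfA]
    exact Int.natAbs_ne_zero.2 (norm_ne_zero' A _ hfA)
  have hfin : Finite (A ⧸ Ideal.span {(f : A)}) :=
    Nat.finite_of_card_ne_zero hidx
  obtain ⟨x, y, hxy, h⟩ := Finite.exists_ne_map_eq_of_infinite
    (fun n : ℕ => (Ideal.Quotient.mk (Ideal.span {(f : A)}) c) ^ n)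
  -- wlog x < y
  have key : ∀ x y : ℕ, x < y → (Ideal.Quotient.mk (Ideal.span {(f : A)}) c) ^ x =
      (Ideal.Quotient.mk (Ideal.span {(f : A)}) c) ^ y →
      ∃ (m : ℕ) (r : A), c ^ (m + 1) * c ^ (m + 1) - c ^ (m + 1) = (f : A) * r := by
    intro x y hlt h
    obtain ⟨k, hk, rfl⟩ : ∃ k, 1 ≤ k ∧ y = x + k := ⟨y - x, by omega, by omega⟩
    set q := Ideal.Quotient.mk (Ideal.span {(f : A)}) c with hq
    have h1 : ∀ n l : ℕ, x ≤ n → q ^ (n + k * l) = q ^ n := by
      intro n l hn
      induction l with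
      | zero => simp
      | succ l ih =>
        have e1 : n + k * (l + 1) = (n - x + k * l) + (x + k) := by
          rw [mul_add, mul_one]; omega
        have e2 : n + k * l = (n - x + k * l) + x := by omega
        rw [e1, pow_add, ← h, ← pow_add, ← e2, ih]
    obtain ⟨m, hm⟩ : ∃ m, m + 1 = k * (x + 1) := ⟨k * (x + 1) - 1, by
      have : 1 ≤ k * (x + 1) := Nat.mul_pos hk (by omega)
      omega⟩
    have hx : x ≤ m + 1 := by
      rw [hm]
      nlinarith
    have h2 := h1 (m + 1) (x + 1) hx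
    rw [← hm, pow_add] at h2
    have h3 : Ideal.Quotient.mk (Ideal.span {(f : A)})
        (c ^ (m + 1) * c ^ (m + 1) - c ^ (m + 1)) = 0 := by
      rw [map_sub, map_mul, map_pow, ← hq, h2, sub_self]
    rw [Ideal.Quotient.eq_zero_iff_mem] at h3
    obtain ⟨r, hr⟩ := Ideal.mem_span_singleton'.1 h3
    exact ⟨m, r, by rw [← hr, mul_comm]⟩
  rcases lt_or_gt_of_ne hxy with h' | h'
  · exact key x y h' h
  · exact key y x h' h.symm

/-- A regular ideal is principal modulo any positive integer. -/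
theorem regular_gen (A : Type) [CommRing A] [IsDomain A] [CharZero A] [Module.Finite ℤ A]
    (u v c a b : A) (h1 : c * v = a * u) (h2 : (1 - c) * u = b * v) (f : ℕ) (hf : f ≠ 0) :
    ∃ w ∈ Ideal.span {u, v}, ∃ y1 y2 : A, ∃ t1 ∈ Ideal.span {u, v}, ∃ t2 ∈ Ideal.span {u, v},
      u = w * y1 + (f : A) * t1 ∧ v = w * y2 + (f : A) * t2 := by
  obtain ⟨m, r, hr⟩ := exists_pow_idem A c f hf
  set e := c ^ (m + 1) with he
  have hev : e * v = (c ^ m * a) * u := by
    rw [he, pow_succ]
    linear_combination c ^ m * h1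
  obtain ⟨b', hb'⟩ : ∃ b' : A, (1 - e) * u = b' * v := by
    have h3 : (1 - c) ∣ (1 - e) := by
      have := sub_dvd_pow_sub_pow (1 : A) c (m + 1)
      rwa [one_pow] at this
    obtain ⟨g, hg⟩ := h3
    refine ⟨g * b, ?_⟩
    rw [hg]
    linear_combination g * h2
  set a' := c ^ m * a with ha'
  have hu : u ∈ Ideal.span {u, v} := Ideal.subset_span (by simp)
  have hv : v ∈ Ideal.span {u, v} := Ideal.subset_span (by simp)
  refine ⟨e * u + (1 - e) * v, Ideal.add_mem _ (Ideal.mul_mem_left _ _ hu)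
    (Ideal.mul_mem_left _ _ hv), e + b' * (1 - e), (1 - e) + a' * e, ?_⟩
  -- u - w y1 and v - w y2 as combinations
  refine ⟨-(r * u) + r * v - b' * (r * v) - r * u + b' * (r * u), ?_,
    -(r * v) + r * u - a' * (r * u) - r * v + a' * (r * v), ?_, ?_, ?_⟩
  · refine Ideal.add_mem _ (Ideal.sub_mem _ (Ideal.sub_mem _ (Ideal.add_mem _ ?_ ?_) ?_) ?_) ?_
    · exact neg_mem (Ideal.mul_mem_left _ _ hu)
    · exact Ideal.mul_mem_left _ _ hv
    · exact Ideal.mul_mem_left _ _ (Ideal.mul_mem_left _ _ hv)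
    · exact Ideal.mul_mem_left _ _ hu
    · exact Ideal.mul_mem_left _ _ (Ideal.mul_mem_left _ _ hu)
  · refine Ideal.add_mem _ (Ideal.sub_mem _ (Ideal.sub_mem _ (Ideal.add_mem _ ?_ ?_) ?_) ?_) ?_
    · exact neg_mem (Ideal.mul_mem_left _ _ hv)
    · exact Ideal.mul_mem_left _ _ hu
    · exact Ideal.mul_mem_left _ _ (Ideal.mul_mem_left _ _ hu)
    · exact Ideal.mul_mem_left _ _ hv
    · exact Ideal.mul_mem_left _ _ (Ideal.mul_mem_left _ _ hv)
  · linear_combination (-2 * u + v + b' * u - b' * v) * hr + (1 - e) * hb'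
  · linear_combination (-2 * v + u - a' * u + a' * v) * hr + e * hev

/-- The product of a regular ideal and its companion. -/
theorem regular_mul {R : Type} [CommRing R] (u v c a b : R) (h1 : c * v = a * u)
    (h2 : (1 - c) * u = b * v) :
    Ideal.span {u, v} * Ideal.span {(1 - c) * u, c * v} = Ideal.span {u * v} := by
  rw [Ideal.span_pair_mul_span_pair]
  apply le_antisymm
  · rw [Ideal.span_le]
    intro z hz
    simp only [Set.mem_insert_iff, Set.mem_singleton_iff] at hz
    rw [SetLike.mem_coe, Ideal.mem_span_singleton']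
    rcases hz with rfl | rfl | rfl | rfl
    · exact ⟨b, by linear_combination (-u) * h2⟩
    · exact ⟨c, by ring⟩
    · exact ⟨1 - c, by ring⟩
    · exact ⟨a, by linear_combination (-v) * h1⟩
  · rw [Ideal.span_singleton_le_iff_mem]
    have h3 : u * v = u * (c * v) + v * ((1 - c) * u) := by ring
    rw [h3]
    exact Ideal.add_mem _ (Ideal.subset_span (by simp)) (Ideal.subset_span (by simp))

/-- The index of the product of a regular ideal and another ideal. -/
theorem index_mul_le (A : Type) [CommRing A] [IsDomain A] [CharZero A] [Module.Finite ℤ A]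
    (u v c a b : A) (h1 : c * v = a * u) (h2 : (1 - c) * u = b * v)
    (J : Ideal A) (hJ : (Submodule.toAddSubgroup J).index ≠ 0) :
    (Submodule.toAddSubgroup (Ideal.span {u, v} * J)).index ≤
      (Submodule.toAddSubgroup J).index * (Submodule.toAddSubgroup (Ideal.span {u, v})).index := by
  obtain ⟨f, hf⟩ : ∃ f : ℕ, f = (Submodule.toAddSubgroup J).index := ⟨_, rfl⟩
  have hfJ : (f : A) ∈ J := by
    have h3 : f • (1 : A) ∈ Submodule.toAddSubgroup J := by
      rw [hf]
      exact AddSubgroup.nsmul_index_mem _ 1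
    rw [nsmul_eq_mul, mul_one] at h3
    exact h3
  have hJ' : f ≠ 0 := by rw [hf]; exact hJ
  obtain ⟨w, hw, y1, y2, t1, ht1, t2, ht2, e1, e2⟩ := regular_gen A u v c a b h1 h2 f hJ'
  have hle : Submodule.toAddSubgroup (Ideal.span {u, v} * J) ≤
      Submodule.toAddSubgroup (Ideal.span {u, v}) := fun z hz => Ideal.mul_le_left hz
  have h3 := relIndex_le_of_surj (AddMonoidHom.mulLeft w) (Submodule.toAddSubgroup J)
    (Submodule.toAddSubgroup (Ideal.span {u, v} * J)) (Submodule.toAddSubgroup (Ideal.span {u, v}))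
    (fun y hy => Ideal.mul_mem_mul hw hy) (by
      intro z hz
      obtain ⟨x1, x2, hx⟩ := Ideal.mem_span_pair.1 hz
      refine ⟨y1 * x1 + y2 * x2, (x1 * t1 + x2 * t2) * f, ?_, ?_⟩
      · exact Ideal.mul_mem_mul (Ideal.add_mem _ (Ideal.mul_mem_left _ _ ht1)
          (Ideal.mul_mem_left _ _ ht2)) hfJ
      · rw [← hx]
        change x1 * u + x2 * v = w * (y1 * x1 + y2 * x2) + (x1 * t1 + x2 * t2) * f
        linear_combination x1 * e1 + x2 * e2) hJ
  rw [← AddSubgroup.relIndex_mul_index hle]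
  exact Nat.mul_le_mul_right _ h3.2

section order

variable (A : Type) [CommRing A] [IsDomain A] [CharZero A] [Module.Finite ℤ A]
    (K : Type) [Field K] [NumberField K] [Algebra A K] [IsFractionRing A K]
    (j : A →+* 𝓞 K) (hj : ∀ a : A, ((j a : 𝓞 K) : K) = algebraMap A K a)

omit [IsDomain A] [CharZero A] [Module.Finite ℤ A] [NumberField K] in
include hj in
theorem j_injective : Function.Injective j := by
  intro x y h
  apply IsFractionRing.injective A K
  rw [← hj, ← hj, h]

include hj in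
theorem index_range_ne_zero : j.toAddMonoidHom.range.index ≠ 0 := by
  set P : Submodule ℤ (𝓞 K) := AddSubgroup.toIntSubmodule j.toAddMonoidHom.range with hP
  have htor : Module.IsTorsion ℤ ((𝓞 K) ⧸ P) := by
    intro x
    obtain ⟨x, rfl⟩ := Submodule.Quotient.mk_surjective P x
    have h2 : IsLocalization (Algebra.algebraMapSubmonoid A (nonZeroDivisors ℤ)) K :=
      isLocalization_frac A K
    obtain ⟨⟨a, ⟨_, n, hn, rfl⟩⟩, hx⟩ := IsLocalization.surj
      (Algebra.algebraMapSubmonoid A (nonZeroDivisors ℤ)) (x : K)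
    refine ⟨⟨n, hn⟩, ?_⟩
    change n • (Submodule.Quotient.mk x : (𝓞 K) ⧸ P) = 0
    rw [← Submodule.Quotient.mk_smul, Submodule.Quotient.mk_eq_zero]
    refine ⟨a, ?_⟩
    change j a = n • x
    apply RingOfIntegers.ext
    rw [hj]
    simp only at hx
    rw [← hx]
    simp [mul_comm]
  have hfin : Finite ((𝓞 K) ⧸ P) := Module.finite_of_fg_torsion _ htor
  have : Finite ((𝓞 K) ⧸ j.toAddMonoidHom.range) := hfin
  exact AddSubgroup.index_ne_zero_of_finite

include hj in
theorem idx_le_absNorm (u v c a b : A) (h1 : c * v = a * u) (h2 : (1 - c) * u = b * v) :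
    idx A u v ≤ Ideal.absNorm (Ideal.span {j u, j v}) := by
  set P : AddSubgroup (𝓞 K) := j.toAddMonoidHom.range with hP
  have hP0 : P.index ≠ 0 := index_range_ne_zero A K j hj
  obtain ⟨w, hw, y1, y2, t1, ht1, t2, ht2, e1, e2⟩ := regular_gen A u v c a b h1 h2 P.index hP0
  have hfO : ∀ x : 𝓞 K, ∃ a : A, j a = (P.index : 𝓞 K) * x := by
    intro x
    have h3 : P.index • x ∈ P := AddSubgroup.nsmul_index_mem _ x
    obtain ⟨a, ha⟩ := h3
    exact ⟨a, by rw [← nsmul_eq_mul]; exact ha⟩
  set I : AddSubgroup A := Submodule.toAddSubgroup (Ideal.span {u, v}) with hI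
  set H : AddSubgroup (𝓞 K) := I.map j.toAddMonoidHom with hH
  set L : AddSubgroup (𝓞 K) := Submodule.toAddSubgroup (Ideal.span {j u, j v}) with hL
  have hHL : H ≤ L := by
    rintro _ ⟨z, hz, rfl⟩
    obtain ⟨x1, x2, hx⟩ := Ideal.mem_span_pair.1 hz
    refine Ideal.mem_span_pair.2 ⟨j x1, j x2, ?_⟩
    rw [← hx]
    change _ = j (x1 * u + x2 * v)
    rw [map_add, map_mul, map_mul]
  have h3 := relIndex_le_of_surj (AddMonoidHom.mulLeft (j w)) P H L (by
      rintro _ ⟨y, rfl⟩
      refine ⟨w * y, Ideal.mul_mem_right _ _ hw, ?_⟩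
      change j (w * y) = j w * j y
      rw [map_mul]) (by
      intro z hz
      obtain ⟨x1, x2, hx⟩ := Ideal.mem_span_pair.1 hz
      obtain ⟨a1, ha1⟩ := hfO x1
      obtain ⟨a2, ha2⟩ := hfO x2
      refine ⟨j y1 * x1 + j y2 * x2, j (a1 * t1 + a2 * t2), ?_, ?_⟩
      · exact ⟨a1 * t1 + a2 * t2, Ideal.add_mem _ (Ideal.mul_mem_left _ _ ht1)
          (Ideal.mul_mem_left _ _ ht2), rfl⟩
      · rw [← hx]
        change x1 * j u + x2 * j v = j w * (j y1 * x1 + j y2 * x2) + j (a1 * t1 + a2 * t2)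
        have e1' := congrArg j e1
        have e2' := congrArg j e2
        simp only [map_add, map_mul, map_natCast] at e1' e2' ⊢
        rw [ha1, ha2]
        linear_combination x1 * e1' + x2 * e2') hP0
  have h4 : H.index = I.index * P.index :=
    AddSubgroup.index_map_of_injective (H := I) (f := j.toAddMonoidHom) (j_injective A K j hj)
  have h5 := AddSubgroup.relIndex_mul_index hHL
  have h6 : Ideal.absNorm (Ideal.span {j u, j v}) = L.index := rfl
  have h7 : idx A u v = I.index := rfl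
  rw [h6, h7]
  have h8 : P.index * I.index ≤ P.index * L.index := by
    calc P.index * I.index = H.index := by rw [h4, mul_comm]
      _ = H.relIndex L * L.index := h5.symm
      _ ≤ P.index * L.index := Nat.mul_le_mul_right _ h3.2
  exact Nat.le_of_mul_le_mul_left h8 (Nat.pos_of_ne_zero hP0)

include hj in
theorem norm_eq_norm (x : A) :
    (Algebra.norm ℤ x).natAbs = (Algebra.norm ℤ (j x)).natAbs := by
  have h1 := norm_eq A x
  have h2 := norm_eq (𝓞 K) (j x)
  have h3 : ∏ τ : A →+* ℂ, ‖τ x‖ = ∏ σ : K →+* ℂ, ‖σ (algebraMap A K x)‖ :=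
    (Fintype.prod_equiv (homEquiv A K) _ _ (fun σ => rfl)).symm
  have h4 : ∏ τ : 𝓞 K →+* ℂ, ‖τ (j x)‖ = ∏ σ : K →+* ℂ, ‖σ (algebraMap A K x)‖ := by
    refine (Fintype.prod_equiv (homEquiv (𝓞 K) K) _ _ (fun σ => ?_)).symm
    rw [← hj]
    rfl
  have h5 : ((Algebra.norm ℤ x).natAbs : ℝ) = ((Algebra.norm ℤ (j x)).natAbs : ℝ) := by
    rw [h1, h2, h3, h4]
  exact_mod_cast h5

end order

/-- The index of a regular ideal of an order is the norm of the ideal it generates in the ring of
integers. -/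
theorem idx_regular (A : Type) [CommRing A] [IsDomain A] [CharZero A] [Module.Finite ℤ A]
    (K : Type) [Field K] [NumberField K] [Algebra A K] [IsFractionRing A K]
    (j : A →+* 𝓞 K) (hj : ∀ a : A, ((j a : 𝓞 K) : K) = algebraMap A K a)
    (u v c a b : A) (hu : u ≠ 0) (hv : v ≠ 0) (h1 : c * v = a * u) (h2 : (1 - c) * u = b * v) :
    idx A u v = Ideal.absNorm (Ideal.span {j u, j v}) := by
  have hinj := j_injective A K j hj
  have hcop : (1 - c) * u ≠ 0 ∨ c * v ≠ 0 := by
    by_contra hcon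
    push Not at hcon
    obtain ⟨h3, h4⟩ := hcon
    have h5 : (1 - c) = 0 := (mul_eq_zero.1 h3).resolve_right hu
    have h6 : c = 0 := (mul_eq_zero.1 h4).resolve_right hv
    rw [h6, sub_zero] at h5
    exact one_ne_zero h5
  have hI : idx A u v ≤ Ideal.absNorm (Ideal.span {j u, j v}) :=
    idx_le_absNorm A K j hj u v c a b h1 h2
  have hJ : idx A ((1 - c) * u) (c * v) ≤
      Ideal.absNorm (Ideal.span {j ((1 - c) * u), j (c * v)}) :=
    idx_le_absNorm A K j hj ((1 - c) * u) (c * v) (1 - c) a b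
      (by linear_combination (1 - c) * h1) (by linear_combination c * h2)
  have hI0 : idx A u v ≠ 0 := idx_ne_zero A u v (Or.inl hu)
  have hJ0 : idx A ((1 - c) * u) (c * v) ≠ 0 := idx_ne_zero A _ _ hcop
  have hIJ := index_mul_le A u v c a b h1 h2 (Ideal.span {(1 - c) * u, c * v}) hJ0
  rw [regular_mul u v c a b h1 h2, index_span_singleton A (u * v) (mul_ne_zero hu hv)] at hIJ
  have hO : Ideal.span {j u, j v} * Ideal.span {j ((1 - c) * u), j (c * v)} =
      Ideal.span {j u * j v} := by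
    have h3 := regular_mul (j u) (j v) (j c) (j a) (j b)
      (by rw [← map_mul, ← map_mul, h1])
      (by rw [← map_one j, ← map_sub, ← map_mul, ← map_mul, h2])
    rwa [← map_one j, ← map_sub, ← map_mul, ← map_mul] at h3
  have hO2 := congrArg Ideal.absNorm hO
  rw [map_mul, ← map_mul j, Ideal.absNorm_span_singleton, ← norm_eq_norm A K j hj] at hO2
  rw [← hO2] at hIJ
  change _ ≤ idx A ((1 - c) * u) (c * v) * idx A u v at hIJ
  by_contra hne
  have hlt : idx A u v < Ideal.absNorm (Ideal.span {j u, j v}) := lt_of_le_of_ne hI hne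
  have h3 : idx A ((1 - c) * u) (c * v) * idx A u v <
      Ideal.absNorm (Ideal.span {j ((1 - c) * u), j (c * v)}) *
        Ideal.absNorm (Ideal.span {j u, j v}) := by
    calc idx A ((1 - c) * u) (c * v) * idx A u v
        < idx A ((1 - c) * u) (c * v) * Ideal.absNorm (Ideal.span {j u, j v}) :=
          Nat.mul_lt_mul_of_pos_left hlt (Nat.pos_of_ne_zero hJ0)
      _ ≤ _ := Nat.mul_le_mul_right _ hJ
  have h4 := mul_comm (Ideal.absNorm (Ideal.span {j u, j v}))
    (Ideal.absNorm (Ideal.span {j ((1 - c) * u), j (c * v)}))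
  omega

variable {Ω : Type} [Field Ω] [CharZero Ω]

theorem log_OHt_regular_aux (A : Subring Ω) (hA : Module.Finite ℤ A)
    (K : Type) [Field K] [Algebra A K] [IsFractionRing A K] (u v c a b : A)
    (hu : u ≠ 0) (hv : v ≠ 0) (h1 : c * v = a * u) (h2 : (1 - c) * u = b * v) :
    Real.log (OHt A u v) = Fintype.card (A →+* ℂ) * absLogHeight₁ ((v : Ω) / (u : Ω)) := by
  have hnf : NumberField K := numberField_frac A K
  have hinj : Function.Injective (algebraMap A K) := IsFractionRing.injective A K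
  let ι : K →+* Ω := IsFractionRing.lift (g := A.subtype) (fun a b h => Subtype.ext h)
  have hι : ∀ a : A, ι (algebraMap A K a) = (a : Ω) := fun a =>
    IsFractionRing.lift_algebraMap _ a
  have hint : ∀ a : A, IsIntegral ℤ (algebraMap A K a) := fun a =>
    (Algebra.IsIntegral.isIntegral (R := ℤ) a).map (algebraMap A K).toIntAlgHom
  let j : A →+* 𝓞 K :=
    { toFun := fun a => ⟨algebraMap A K a, hint a⟩
      map_one' := by apply RingOfIntegers.ext; simp; rfl
      map_mul' := fun x y => by apply RingOfIntegers.ext; simp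
      map_zero' := by apply RingOfIntegers.ext; simp; rfl
      map_add' := fun x y => by apply RingOfIntegers.ext; simp }
  have hj : ∀ a, ((j a : 𝓞 K) : K) = algebraMap A K a := fun a => rfl
  have hju : j u ≠ 0 := by
    intro h
    have h1 : algebraMap A K u = 0 := by
      have := congrArg (fun y : 𝓞 K => (y : K)) h
      simpa [hj] using this
    exact hu (hinj (by rw [h1, map_zero]))
  have hH := height_mul_absNorm K (j u) (j v) hju
  rw [← idx_regular A K j hj u v c a b hu hv h1 h2] at hH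
  have hidx : (idx A u v : ℝ) ≠ 0 := Nat.cast_ne_zero.2 (idx_ne_zero A u v (Or.inl hu))
  have hprod : ∏ σ : K →+* ℂ, max ‖σ ((j u : 𝓞 K) : K)‖ ‖σ ((j v : 𝓞 K) : K)‖
      = ∏ τ : A →+* ℂ, max ‖τ u‖ ‖τ v‖ :=
    Fintype.prod_equiv (homEquiv A K) _ _ (fun σ => rfl)
  have hOH : OHt A u v = Height.mulHeight₁ (((j v : 𝓞 K) : K) / ((j u : 𝓞 K) : K)) := by
    rw [OHt, ← hprod, ← hH, mul_div_assoc, div_self hidx, mul_one]
  have habs := absLogHeight_eq K Ω ι (((j v : 𝓞 K) : K) / ((j u : 𝓞 K) : K))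
  have e1 : ι (((j v : 𝓞 K) : K) / ((j u : 𝓞 K) : K)) = (v : Ω) / (u : Ω) := by
    rw [map_div₀, hj, hj, hι, hι]
  rw [e1] at habs
  have hcard : (Fintype.card (A →+* ℂ) : ℝ) = Module.finrank ℚ K := by
    rw [← Fintype.card_congr (homEquiv A K), NumberField.Embeddings.card]
  have hpos : (0 : ℝ) < Module.finrank ℚ K := by exact_mod_cast Module.finrank_pos
  rw [habs, hcard, hOH, Height.logHeight₁_eq_log_mulHeight₁]
  field_simp

theorem log_OHt_regular (A : Subring Ω) (hA : Module.Finite ℤ A) (u v c a b : A)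
    (hu : u ≠ 0) (hv : v ≠ 0) (h1 : c * v = a * u) (h2 : (1 - c) * u = b * v) :
    Real.log (OHt A u v) = Fintype.card (A →+* ℂ) * absLogHeight₁ ((v : Ω) / (u : Ω)) :=
  log_OHt_regular_aux A hA (FractionRing A) u v c a b hu hv h1 h2

end Pool.Agent.H4.OH
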