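import Pool.Agent.H4.OH.SubDefs

/-!
# Module SubStep (MP_187c26_nt, sums of radicals): the step theorem inside a field

`R = A[x]` inside `Ω`, `x^m ∈ A`, the powers `1, x, ..., x^(m-1)` independent over `A`.

Proof. `letI : Algebra A R := (Subring.inclusion hAR).toAlgebra`. The map
`(Fin m → A) → R`, `c ↦ ∑ c_i x^i` is injective (`hind`) and surjective: its range is a subring
containing `A` and `x` (closed under multiplication since `x^(i+j) = x^m * x^(i+j-m)`, `x^m ∈ A`; or use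
`Subring.closure_induction`; alternatively `Submodule.span A {1, x, ..., x^(m-1)}` is a subring), so
it is all of `R = A ⊔ closure {x}`. This gives `bas : Module.Basis (Fin m) A R`, `bas i = x^i`
(`Module.Basis.mk` or `Basis.ofEquivFun`), and `Module.Finite ℤ R` (`Module.Finite.of_basis`,
`Module.Finite.trans`).

`BogS`: let `U V : R` be nonzero with `U ≠ s V` for all `s ∈ S ⊔ zpowers x`. Take
`G = {(g1, g2) : A × A | g1 ≠ 0, g2 ≠ 0, the two bounds of DenS, and ∃ s ∈ S, g1 = s g2}`.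
`BogO A G κ`: if `a g2 ≠ b g1` for all `(g1, g2) ∈ G` then `a ≠ s b` for all `s ∈ S` (otherwise take
`(g1, g2)` from `DenS` for `s`: `a g2 = s b g2 = b g1`), so `BogS A S κ` applies. `DenO A G θ` holds by
definition. Apply `step` (file Step.lean); its hypothesis `hne`: `U g2 = V g1 x^e` and `g1 = s g2` would
give `U = s x^e V`, `s x^e ∈ S ⊔ zpowers x`; the second one gives `V = s x^e U`, i.e.
`U = (s x^e)⁻¹ V`.
-/

set_option autoImplicit false

namespace Pool.Agent.H4.OH

variable {Ω : Type} [Field Ω] [CharZero Ω]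

omit [CharZero Ω] in
open Polynomial in
theorem substep_basis (A R : Subring Ω) (hAR : A ≤ R) (x : Ωˣ) (m : ℕ) (hm : 1 ≤ m)
    (hR : R = A ⊔ Subring.closure {(x : Ω)}) (b : A) (hx : (x : Ω) ^ m = (b : Ω))
    (hind : ∀ c : Fin m → A, ∑ i, (c i : Ω) * (x : Ω) ^ (i : ℕ) = 0 → ∀ i, c i = 0)
    (xR : R) (hxR : (xR : Ω) = (x : Ω)) :
    letI : Algebra A R := (Subring.inclusion hAR).toAlgebra
    ∃ bas : Module.Basis (Fin m) A R, ∀ i, bas i = xR ^ (i : ℕ) := by
  let : Algebra A R := (Subring.inclusion hAR).toAlgebra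
  have halg : ∀ a : A, ((algebraMap A R a : R) : Ω) = (a : Ω) := fun a => rfl
  have hsmul : ∀ (a : A) (y : R), ((a • y : R) : Ω) = (a : Ω) * (y : Ω) := by
    intro a y
    rw [Algebra.smul_def, Subring.coe_mul, halg]
  have hli : LinearIndependent A (fun i : Fin m => xR ^ (i : ℕ)) := by
    rw [Fintype.linearIndependent_iff]
    intro c hc
    apply hind c
    have h1 := congrArg (fun y : R => (y : Ω)) hc
    simp only [AddSubmonoidClass.coe_finsetSum] at h1
    rw [Subring.coe_zero] at h1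
    rw [← h1]
    refine Finset.sum_congr rfl fun i _ => ?_
    rw [hsmul, Subring.coe_pow, hxR]
  have hspan : ⊤ ≤ Submodule.span A (Set.range (fun i : Fin m => xR ^ (i : ℕ))) := by
    have hmon : (X ^ m - C b : A[X]).Monic := monic_X_pow_sub_C b (by omega)
    have hroot : aeval xR (X ^ m - C b : A[X]) = 0 := by
      rw [map_sub, map_pow, aeval_X, aeval_C, sub_eq_zero]
      apply Subtype.ext
      rw [Subring.coe_pow, hxR, halg, hx]
    have h2 := Submodule.span_range_natDegree_eq_adjoin hmon hroot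
    rw [natDegree_X_pow_sub_C] at h2
    have h3 : Algebra.adjoin A {xR} = ⊤ := by
      rw [eq_top_iff]
      intro y _
      have h4 : A ⊔ Subring.closure {(x : Ω)} ≤
          (Algebra.adjoin A {xR}).toSubring.map R.subtype := by
        apply sup_le
        · intro a ha
          exact ⟨algebraMap A R ⟨a, ha⟩, Subalgebra.algebraMap_mem _ _, rfl⟩
        · rw [Subring.closure_le]
          rintro z hz
          rw [Set.mem_singleton_iff] at hz
          rw [hz]
          exact ⟨xR, Algebra.subset_adjoin rfl, hxR⟩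
      have h5 : (y : Ω) ∈ A ⊔ Subring.closure {(x : Ω)} := by
        rw [← hR]; exact y.2
      obtain ⟨z, hz, hzy⟩ := h4 h5
      have h6 : z = y := Subtype.ext hzy
      rw [← h6]
      exact hz
    intro y _
    have h7 : y ∈ Subalgebra.toSubmodule (Algebra.adjoin A {xR}) := by
      rw [h3]; exact Submodule.mem_top
    rw [← h2] at h7
    refine Submodule.span_mono ?_ h7
    intro z hz
    obtain ⟨i, hi, rfl⟩ := (@Finset.mem_image _ _ (fun a b => Classical.propDecidable (a = b))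
      _ _ _).1 (Finset.mem_coe.1 hz)
    rw [Finset.mem_range] at hi
    exact ⟨⟨i, hi⟩, rfl⟩
  refine ⟨Module.Basis.mk hli hspan, fun i => ?_⟩
  rw [Module.Basis.mk_apply]

theorem stepS (A R : Subring Ω) (hAR : A ≤ R) (x : Ωˣ) (m : ℕ) (hm : 1 ≤ m)
    (hR : R = A ⊔ Subring.closure {(x : Ω)}) (b : A) (hx : (x : Ω) ^ m = (b : Ω))
    (hind : ∀ c : Fin m → A, ∑ i, (c i : Ω) * (x : Ω) ^ (i : ℕ) = 0 → ∀ i, c i = 0)
    (B : ℝ) (hB : 1 < B) (hbB : ∀ τ : A →+* ℂ, ‖τ b‖ = B)
    (S : Subgroup Ωˣ) (κ θ : ℝ) (hκ : 0 < κ) (hθ : 0 ≤ θ)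
    (hBog : BogS A S κ) (hDen : DenS A S θ) :
    BogS R (S ⊔ Subgroup.zpowers x) (min κ (Real.log (5 / 4) / (2 + 2 * θ))
      - min κ (Real.log (5 / 4) / (2 + 2 * θ)) ^ 2 / Real.log B) := by
  obtain ⟨hA, hBog⟩ := hBog
  obtain ⟨_, hDen⟩ := hDen
  let : Algebra A R := (Subring.inclusion hAR).toAlgebra
  have halg : ∀ a : A, ((algebraMap A R a : R) : Ω) = (a : Ω) := fun a => rfl
  have hxmem : (x : Ω) ∈ R := by
    rw [hR]
    exact (le_sup_right : Subring.closure {(x : Ω)} ≤ A ⊔ Subring.closure {(x : Ω)})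
      (Subring.subset_closure rfl)
  let xR : R := ⟨(x : Ω), hxmem⟩
  have hxR : (xR : Ω) = (x : Ω) := rfl
  obtain ⟨bas, hbas⟩ := substep_basis A R hAR x m hm hR b hx hind xR hxR
  have hfinAR : Module.Finite A R := Module.Finite.of_basis bas
  have hfin : Module.Finite ℤ R := Module.Finite.trans A R
  refine ⟨hfin, fun U V hU hV hne => ?_⟩
  have hxb : xR ^ m = algebraMap A R b := by
    apply Subtype.ext
    rw [Subring.coe_pow, hxR, halg, hx]
  set G : Set (A × A) := {g | g.1 ≠ 0 ∧ g.2 ≠ 0 ∧ (∀ τ : A →+* ℂ,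
      ‖τ g.1‖ ≤ Real.exp (θ * (Real.log (OHt A g.1 g.2) / Fintype.card (A →+* ℂ))) ∧
      ‖τ g.2‖ ≤ Real.exp (θ * (Real.log (OHt A g.1 g.2) / Fintype.card (A →+* ℂ)))) ∧
      ∃ s ∈ S, (g.1 : Ω) = (s : Ω) * (g.2 : Ω)} with hG
  have hBogO : BogO A G κ := by
    intro a c ha hc hg
    apply hBog a c ha hc
    intro s hs hac
    obtain ⟨g1, g2, h1, h2, h3, h4⟩ := hDen s hs
    apply hg (g1, g2) ⟨h1, h2, h4, s, hs, h3⟩
    apply Subtype.ext
    rw [Subring.coe_mul, Subring.coe_mul]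
    simp only
    rw [hac, h3]
    ring
  have hDenO : DenO A G θ := fun g hg => ⟨hg.1, hg.2.1, hg.2.2.1⟩
  refine step A R m hm xR b hxb bas hbas B hB hbB G κ θ hκ hθ hBogO hDenO U V hU hV ?_
  rintro g ⟨h1, h2, _, s, hs, h3⟩ e
  have hg2 : ((g.2 : A) : Ω) ≠ 0 := by
    intro h
    exact h2 (Subtype.ext h)
  have hmem : s * x ^ e ∈ S ⊔ Subgroup.zpowers x :=
    Subgroup.mul_mem_sup hs (Subgroup.npow_mem_zpowers x e)
  constructor
  · intro h
    have h4 := congrArg (fun y : R => (y : Ω)) h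
    simp only [Subring.coe_mul, Subring.coe_pow, halg, hxR] at h4
    apply hne _ hmem
    rw [Units.val_mul, Units.val_pow_eq_pow_val]
    apply mul_right_cancel₀ hg2
    rw [h4, h3]
    ring
  · intro h
    have h4 := congrArg (fun y : R => (y : Ω)) h
    simp only [Subring.coe_mul, Subring.coe_pow, halg, hxR] at h4
    apply hne _ (Subgroup.inv_mem _ hmem)
    have h5 : (V : Ω) = ((s * x ^ e : Ωˣ) : Ω) * (U : Ω) := by
      rw [Units.val_mul, Units.val_pow_eq_pow_val]
      apply mul_right_cancel₀ hg2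
      rw [h4, h3]
      ring
    rw [h5, ← mul_assoc, ← Units.val_mul, inv_mul_cancel, Units.val_one, one_mul]

end Pool.Agent.H4.OH
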