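import Mathlib

/-!
# Module ShortRel (MP_187c26_nt, sums of radicals): independence of radicals (Kummer)

`Ω/F` Galois, `F` contains a primitive `m`-th root of unity, `z_i ∈ Ω` nonzero with `z_i^m ∈ F` and
`z_i / z_j ∉ F` for `i ≠ j`. Then the `z_i` are linearly independent over `F`.

Proof. It suffices to treat finite relations (`linearIndependent_iff'`). Suppose a nontrivial relation
exists; choose one `∑_{i ∈ s} c_i z_i = 0` with all `c_i ≠ 0` (`i ∈ s`), `s` nonempty of minimal
cardinality (`Nat.find` or `Finset.strongInduction`). `s` has at least two elements `i ≠ j` (`z_i ≠ 0`).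
As `z_i/z_j ∉ F` and `Ω/F` is Galois there is `σ : Ω ≃ₐ[F] Ω` with `σ (z_i/z_j) ≠ z_i/z_j`
(`IsGalois.mem_bot_iff_fixed` or `IsGalois.tfae`). `(σ z_k / z_k)^m = 1`, so `σ z_k = ω_k z_k` with
`ω_k ∈ F` (a power of the primitive root, `IsPrimitiveRoot.eq_pow_of_pow_eq_one`; here
`ω_k` is the image of an element of `F`), and `ω_i ≠ ω_j`. Apply `σ`: `∑ c_k ω_k z_k = 0`; subtract `ω_j` times the
relation: `∑_{k ∈ s} c_k (ω_k - ω_j) z_k = 0`, nontrivial (`k = i`), support in `s \ {j}`: contradiction.
-/

set_option autoImplicit false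

namespace Pool.Agent.H4.OH

theorem shortRel (F Ω : Type) [Field F] [Field Ω] [Algebra F Ω] [IsGalois F Ω] (m : ℕ) (hm : 1 ≤ m)
    (ω : F) (hω : IsPrimitiveRoot ω m) {ι : Type} (z : ι → Ω) (hz0 : ∀ i, z i ≠ 0)
    (hzm : ∀ i, z i ^ m ∈ Set.range (algebraMap F Ω))
    (hne : ∀ i j, i ≠ j → z i / z j ∉ Set.range (algebraMap F Ω)) :
    LinearIndependent F z := by
  classical
  have : NeZero m := ⟨by omega⟩
  have hωΩ : IsPrimitiveRoot (algebraMap F Ω ω) m :=
    hω.map_of_injective (algebraMap F Ω).injective
  have hact : ∀ (σ : Ω ≃ₐ[F] Ω) (k : ι), ∃ w : F, σ (z k) = algebraMap F Ω w * z k := by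
    intro σ k
    have h1 : (σ (z k) / z k) ^ m = 1 := by
      obtain ⟨a, ha⟩ := hzm k
      rw [div_pow, ← map_pow, ← ha, AlgEquiv.commutes, div_self]
      rw [ha]
      exact pow_ne_zero _ (hz0 k)
    obtain ⟨i, -, hi⟩ := hωΩ.eq_pow_of_pow_eq_one h1
    refine ⟨ω ^ i, ?_⟩
    rw [map_pow, hi, div_mul_cancel₀ _ (hz0 k)]
  rw [linearIndependent_iff']
  intro s
  induction s using Finset.strongInduction with
  | H s ih =>
    intro c hc i hi
    by_contra hci
    by_cases hex : ∃ j ∈ s, j ≠ i
    · obtain ⟨j, hj, hji⟩ := hex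
      have hnotF : ∃ σ : Ω ≃ₐ[F] Ω, σ (z i / z j) ≠ z i / z j := by
        by_contra hcon
        push Not at hcon
        have h2 := (InfiniteGalois.mem_range_algebraMap_iff_fixed (k := F) (K := Ω) (z i / z j)).2 hcon
        exact hne i j (Ne.symm hji) h2
      obtain ⟨σ, hσ⟩ := hnotF
      choose w hw using hact σ
      have h3 : ∑ k ∈ s, (c k * (w k - w j)) • z k = 0 := by
        have h4 : σ (∑ k ∈ s, c k • z k) = 0 := by rw [hc, map_zero]
        rw [map_sum] at h4
        have h5 : ∑ k ∈ s, (c k * (w k - w j)) • z k =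
            ∑ k ∈ s, σ (c k • z k) - w j • ∑ k ∈ s, c k • z k := by
          rw [Finset.smul_sum, ← Finset.sum_sub_distrib]
          refine Finset.sum_congr rfl fun k _ => ?_
          rw [map_smul, hw k]
          simp only [Algebra.smul_def, map_mul, map_sub]
          ring
        rw [h5, h4, hc, smul_zero, sub_zero]
      have h6 : ∑ k ∈ s.erase j, (c k * (w k - w j)) • z k = 0 := by
        rw [← Finset.add_sum_erase s _ hj] at h3
        simpa using h3
      have h7 := ih (s.erase j) (Finset.erase_ssubset hj) (fun k => c k * (w k - w j)) h6 i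
        (Finset.mem_erase.2 ⟨Ne.symm hji, hi⟩)
      have h8 : w i = w j := by
        rcases mul_eq_zero.1 h7 with h | h
        · exact absurd h hci
        · exact sub_eq_zero.1 h
      refine hσ ?_
      rw [map_div₀, hw i, hw j, h8]
      have hwj : algebraMap F Ω (w j) ≠ 0 := by
        intro h0
        have := hw j
        rw [h0, zero_mul] at this
        exact hz0 j ((map_eq_zero σ).1 this)
      rw [mul_div_mul_left _ _ hwj]
    · push Not at hex
      have hs : s = {i} := by
        ext k
        constructor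
        · intro hk
          rw [Finset.mem_singleton]
          exact hex k hk
        · intro hk
          rw [Finset.mem_singleton] at hk
          rw [hk]
          exact hi
      rw [hs, Finset.sum_singleton, smul_eq_zero] at hc
      rcases hc with h | h
      · exact hci h
      · exact hz0 i h

end Pool.Agent.H4.OH
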