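import Pool.Agent.H4.OH.IdxIneq

/-!
# Representation of a pair by polynomials of minimal degree (MP_187c26_nt, sums of radicals)
-/

set_option autoImplicit false
set_option linter.unusedSectionVars false

open Polynomial

namespace Pool.Agent.H4.OH

section

variable (A R : Type) [CommRing A] [IsDomain A] [CharZero A] [Module.Finite ℤ A]
  [CommRing R] [IsDomain R] [Algebra A R]

/-- `u`, `v` of degree at most `D`, not both zero, with `u(x) V = v(x) U`. -/
def RepP (x U V : R) (D : ℕ) : Prop :=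
  ∃ u v : A[X], (u ≠ 0 ∨ v ≠ 0) ∧ u.natDegree ≤ D ∧ v.natDegree ≤ D ∧
    aeval x u * V = aeval x v * U

theorem repP_half (m : ℕ) (x : R) (bas : Module.Basis (Fin m) A R) (U V : R) :
    RepP A R x U V (m / 2) := by
  set d := m / 2 with hd
  let e : (Fin (d + 1) → A) →ₗ[A] A[X] :=
    (degreeLT A (d + 1)).subtype ∘ₗ (degreeLTEquiv A (d + 1)).symm.toLinearMap
  let ax : A[X] →ₗ[A] R := (aeval x : A[X] →ₐ[A] R).toLinearMap
  let L : ((Fin (d + 1) ⊕ Fin (d + 1)) → A) →ₗ[A] R :=
    (LinearMap.mulRight A V) ∘ₗ (ax ∘ₗ e) ∘ₗ (LinearMap.funLeft A A Sum.inl) -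
      (LinearMap.mulRight A U) ∘ₗ (ax ∘ₗ e) ∘ₗ (LinearMap.funLeft A A Sum.inr)
  have hninj : ¬ Function.Injective L := by
    intro hinj
    let L2 : ((Fin (d + 1) ⊕ Fin (d + 1)) → A) →ₗ[A] (Fin m → A) :=
      bas.equivFun.toLinearMap ∘ₗ L
    have h2 : Function.Injective L2 := bas.equivFun.injective.comp hinj
    have h3 := card_le_of_injective A L2 h2
    rw [Fintype.card_sum, Fintype.card_fin, Fintype.card_fin] at h3
    omega
  have hker : ∃ w, w ≠ 0 ∧ L w = 0 := by
    by_contra hcon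
    push Not at hcon
    apply hninj
    rw [injective_iff_map_eq_zero]
    intro w hw
    by_contra h0
    exact hcon w h0 hw
  obtain ⟨w, hw0, hw⟩ := hker
  have hw' : ax (e (fun i => w (Sum.inl i))) * V - ax (e (fun i => w (Sum.inr i))) * U = 0 := hw
  have hdeg : ∀ z : Fin (d + 1) → A, (e z).natDegree ≤ d := by
    intro z
    have h1 : e z ∈ degreeLT A (d + 1) := ((degreeLTEquiv A (d + 1)).symm z).2
    rw [mem_degreeLT] at h1
    have h2 : (e z).degree ≤ d := by
      rw [← Order.lt_succ_iff]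
      exact_mod_cast h1
    exact natDegree_le_of_degree_le h2
  have hinj : ∀ z : Fin (d + 1) → A, e z = 0 → z = 0 := by
    intro z hz
    have h1 : (degreeLTEquiv A (d + 1)).symm z = 0 := Subtype.ext hz
    exact (LinearEquiv.map_eq_zero_iff _).1 h1
  refine ⟨e (fun i => w (Sum.inl i)), e (fun i => w (Sum.inr i)), ?_, hdeg _, hdeg _,
    sub_eq_zero.1 hw'⟩
  by_contra hcon
  push Not at hcon
  have h1 := hinj _ hcon.1
  have h2 := hinj _ hcon.2
  apply hw0
  funext i
  rcases i with i | i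
  · exact congrFun h1 i
  · exact congrFun h2 i

theorem aeval_ne_zero_of_lt (m : ℕ) (x : R) (bas : Module.Basis (Fin m) A R)
    (hbas : ∀ i, bas i = x ^ (i : ℕ)) {p : A[X]} (hp : p ≠ 0) (hd : p.natDegree < m) :
    aeval x p ≠ 0 := by
  intro h0
  apply hp
  ext i
  rw [coeff_zero]
  rcases Nat.lt_or_ge i m with hi | hi
  · have h1 := repr_aeval A R m x bas hbas p hd ⟨i, hi⟩
    rw [h0, map_zero, Finsupp.zero_apply] at h1
    exact h1.symm
  · exact coeff_eq_zero_of_natDegree_lt (by omega)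

/-- Clearing denominators of a polynomial over the fraction field. -/
theorem clear_den (K : Type) [Field K] [Algebra A K] [IsFractionRing A K] (D : ℕ) (p q : K[X])
    (hp : p.natDegree ≤ D) (hq : q.natDegree ≤ D) :
    ∃ (b : A) (p₁ q₁ : A[X]), b ≠ 0 ∧
      p₁.map (algebraMap A K) = C (algebraMap A K b) * p ∧ p₁.natDegree = p.natDegree ∧
      q₁.map (algebraMap A K) = C (algebraMap A K b) * q ∧ q₁.natDegree = q.natDegree := by
  classical
  obtain ⟨b, hb⟩ := IsLocalization.exist_integer_multiples_of_finset (nonZeroDivisors A)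
    (Finset.image p.coeff (Finset.range (D + 1)) ∪ Finset.image q.coeff (Finset.range (D + 1)))
  have hinj : Function.Injective (algebraMap A K) := IsFractionRing.injective A K
  have hb0 : algebraMap A K (b : A) ≠ 0 := by
    have := nonZeroDivisors.coe_ne_zero b
    exact fun h => this (hinj (by rw [h, map_zero]))
  have key : ∀ p : K[X], p.natDegree ≤ D →
      (∀ i ≤ D, IsLocalization.IsInteger A ((b : A) • p.coeff i)) →
      ∃ p₁ : A[X], p₁.map (algebraMap A K) = C (algebraMap A K (b : A)) * p ∧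
        p₁.natDegree = p.natDegree := by
    intro p hp hint
    have hl : C (algebraMap A K (b : A)) * p ∈ lifts (algebraMap A K) := by
      rw [lifts_iff_coeff_lifts]
      intro i
      rw [coeff_C_mul]
      by_cases hi : i ≤ D
      · obtain ⟨z, hz⟩ := hint i hi
        rw [Algebra.smul_def] at hz
        exact ⟨z, hz⟩
      · rw [coeff_eq_zero_of_natDegree_lt (by omega), mul_zero]
        exact ⟨0, map_zero _⟩
    obtain ⟨q, hq⟩ := (mem_lifts _).1 hl
    refine ⟨q, hq, ?_⟩
    rw [← natDegree_map_eq_of_injective hinj q, hq, natDegree_C_mul hb0]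
  obtain ⟨u₁, hu₁, hu₁d⟩ := key p hp (fun i hi => hb _ (Finset.mem_union_left _
    (Finset.mem_image_of_mem _ (Finset.mem_range.2 (by omega)))))
  obtain ⟨v₁, hv₁, hv₁d⟩ := key q hq (fun i hi => hb _ (Finset.mem_union_right _
    (Finset.mem_image_of_mem _ (Finset.mem_range.2 (by omega)))))
  exact ⟨b, u₁, v₁, nonZeroDivisors.coe_ne_zero b, hu₁, hu₁d, hv₁, hv₁d⟩

theorem exists_rep (m : ℕ) (hm : 1 ≤ m) (x : R) (bas : Module.Basis (Fin m) A R)
    (hbas : ∀ i, bas i = x ^ (i : ℕ)) (U V : R) (hU : U ≠ 0) (hV : V ≠ 0)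
    (K : Type) [Field K] [Algebra A K] [IsFractionRing A K] :
    ∃ (D : ℕ) (u v : A[X]), 2 * D ≤ m ∧ u.natDegree ≤ D ∧ v.natDegree ≤ D ∧
      (u.natDegree = D ∨ v.natDegree = D) ∧
      IsCoprime (u.map (algebraMap A K)) (v.map (algebraMap A K)) ∧
      aeval x u ≠ 0 ∧ aeval x v ≠ 0 ∧ aeval x u * V = aeval x v * U := by
  classical
  have hex : ∃ D, RepP A R x U V D := ⟨m / 2, repP_half A R m x bas U V⟩
  set D := Nat.find hex with hD
  have hDle : D ≤ m / 2 := Nat.find_min' hex (repP_half A R m x bas U V)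
  have hmin : ∀ E, RepP A R x U V E → D ≤ E := fun E hE => Nat.find_min' hex hE
  obtain ⟨u, v, hne, hu, hv, huv⟩ := Nat.find_spec hex
  rw [← hD] at hu hv
  have hinj : Function.Injective (algebraMap A K) := IsFractionRing.injective A K
  have hnv : ∀ p : A[X], p ≠ 0 → p.natDegree ≤ D → aeval x p ≠ 0 := fun p hp hd =>
    aeval_ne_zero_of_lt A R m x bas hbas hp (by omega)
  have hu0 : u ≠ 0 := by
    rintro rfl
    rw [map_zero, zero_mul] at huv
    rcases hne with h | h
    · exact h rfl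
    · exact mul_ne_zero (hnv v h hv) hU huv.symm
  have hv0 : v ≠ 0 := by
    rintro rfl
    rw [map_zero, zero_mul] at huv
    exact mul_ne_zero (hnv u hu0 hu) hV huv
  -- degrees
  have hdeg : u.natDegree = D ∨ v.natDegree = D := by
    by_contra hcon
    push Not at hcon
    have h1 : u.natDegree ≤ D - 1 := by omega
    have h2 : v.natDegree ≤ D - 1 := by omega
    have h3 := hmin (D - 1) ⟨u, v, hne, h1, h2, huv⟩
    omega
  refine ⟨D, u, v, by omega, hu, hv, hdeg, ?_, hnv u hu0 hu, hnv v hv0 hv, huv⟩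
  -- coprimality
  set uK := u.map (algebraMap A K) with huK
  set vK := v.map (algebraMap A K) with hvK
  have huK0 : uK ≠ 0 := by
    rw [huK, Ne, Polynomial.map_eq_zero_iff hinj]
    exact hu0
  have hvK0 : vK ≠ 0 := by
    rw [hvK, Ne, Polynomial.map_eq_zero_iff hinj]
    exact hv0
  have huKd : uK.natDegree = u.natDegree := natDegree_map_eq_of_injective hinj u
  have hvKd : vK.natDegree = v.natDegree := natDegree_map_eq_of_injective hinj v
  set g := EuclideanDomain.gcd uK vK with hg
  obtain ⟨u', hu'⟩ := EuclideanDomain.gcd_dvd_left uK vK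
  obtain ⟨v', hv'⟩ := EuclideanDomain.gcd_dvd_right uK vK
  rw [← hg] at hu' hv'
  have hg0 : g ≠ 0 := by
    intro h
    rw [h, zero_mul] at hu'
    exact huK0 hu'
  have hu'0 : u' ≠ 0 := by
    intro h
    rw [h, mul_zero] at hu'
    exact huK0 hu'
  have hv'0 : v' ≠ 0 := by
    intro h
    rw [h, mul_zero] at hv'
    exact hvK0 hv'
  have hgu : g.natDegree + u'.natDegree = uK.natDegree := by
    rw [← natDegree_mul hg0 hu'0, ← hu']
  have hgv : g.natDegree + v'.natDegree = vK.natDegree := by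
    rw [← natDegree_mul hg0 hv'0, ← hv']
  obtain ⟨b, u₁, v₁, hb0, hu₁, hu₁d, hv₁, hv₁d⟩ :=
    clear_den A K D u' v' (by omega) (by omega)
  obtain ⟨b', g₁, g₂, hb'0, hg₁, hg₁d, -, -⟩ := clear_den A K D g g (by omega) (by omega)
  have hrel : ∀ (p p' p₁ : A[X]) (q : K[X]), p.map (algebraMap A K) = g * q →
      p₁.map (algebraMap A K) = C (algebraMap A K b) * q →
      C (b' * b) * p = g₁ * p₁ := by
    intro p _ p₁ q h1 h2
    apply Polynomial.map_injective (algebraMap A K) hinj
    rw [Polynomial.map_mul, Polynomial.map_mul, Polynomial.map_C, h1, h2, hg₁, map_mul, C_mul]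
    ring
  have hru := hrel u u u₁ u' (by rw [← huK]; exact hu') hu₁
  have hrv := hrel v v v₁ v' (by rw [← hvK]; exact hv') hv₁
  have hu₁0 : u₁ ≠ 0 := by
    intro h
    rw [h, mul_zero] at hru
    have h1 : C (b' * b) * u ≠ 0 := mul_ne_zero (C_ne_zero.mpr (mul_ne_zero hb'0 hb0)) hu0
    exact h1 hru
  have hg₁0 : g₁ ≠ 0 := by
    intro h
    rw [h, zero_mul] at hru
    have h1 : C (b' * b) * u ≠ 0 := mul_ne_zero (C_ne_zero.mpr (mul_ne_zero hb'0 hb0)) hu0
    exact h1 hru
  have hg₁x : aeval x g₁ ≠ 0 := hnv g₁ hg₁0 (by omega)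
  have huv' : aeval x u₁ * V = aeval x v₁ * U := by
    apply mul_left_cancel₀ hg₁x
    have e1 : algebraMap A R (b' * b) * aeval x u = aeval x g₁ * aeval x u₁ := by
      have := congrArg (aeval x) hru
      rwa [map_mul (aeval x), map_mul (aeval x), aeval_C] at this
    have e2 : algebraMap A R (b' * b) * aeval x v = aeval x g₁ * aeval x v₁ := by
      have := congrArg (aeval x) hrv
      rwa [map_mul (aeval x), map_mul (aeval x), aeval_C] at this
    calc aeval x g₁ * (aeval x u₁ * V) = (aeval x g₁ * aeval x u₁) * V := by ring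
      _ = (algebraMap A R (b' * b) * aeval x u) * V := by rw [e1]
      _ = algebraMap A R (b' * b) * (aeval x u * V) := by ring
      _ = algebraMap A R (b' * b) * (aeval x v * U) := by rw [huv]
      _ = (algebraMap A R (b' * b) * aeval x v) * U := by ring
      _ = (aeval x g₁ * aeval x v₁) * U := by rw [e2]
      _ = aeval x g₁ * (aeval x v₁ * U) := by ring
  have h4 := hmin (D - g.natDegree) ⟨u₁, v₁, Or.inl hu₁0, by omega, by omega, huv'⟩
  have hgd : g.natDegree = 0 := by omega
  have hgu' : IsUnit g := by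
    rw [natDegree_eq_zero] at hgd
    obtain ⟨c, hc⟩ := hgd
    rw [← hc]
    refine isUnit_C.2 (isUnit_iff_ne_zero.2 ?_)
    rintro rfl
    rw [map_zero] at hc
    exact hg0 hc.symm
  exact EuclideanDomain.gcd_isUnit_iff.1 hgu'

end

end Pool.Agent.H4.OH
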