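import Pool.Agent.H4.OH.Core
import Pool.Agent.H4.OH.Rep
import Pool.Agent.H4.RR.RhoNe

/-!
# The step theorem for orders (MP_187c26_nt, sums of radicals)
-/

set_option autoImplicit false
set_option linter.unusedSectionVars false

open Polynomial

namespace Pool.Agent.H4.OH

open Pool.Agent.H4.RR (fam famDet rho)

lemma exists_node_eq (m : ℕ) (c : ℂ) (hm : 1 ≤ m) (hc : c ≠ 0) (z : ℂ) (hz : z ^ m = c ^ m) :
    ∃ j : Fin m, z = node m c j := by
  have hm0 : m ≠ 0 := Nat.one_le_iff_ne_zero.mp hm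
  have hprim := Complex.isPrimitiveRoot_exp m hm0
  have h1 : (z / c) ^ m = 1 := by
    rw [div_pow, hz]
    exact div_self (pow_ne_zero _ hc)
  have : NeZero m := ⟨hm0⟩
  obtain ⟨i, hi, hi'⟩ := hprim.eq_pow_of_pow_eq_one h1
  refine ⟨⟨i, hi⟩, ?_⟩
  have e : node m c ⟨i, hi⟩ = c * (Complex.exp (2 * Real.pi * Complex.I / (m : ℂ))) ^ i := by
    unfold node
    rw [← Complex.exp_nat_mul]
    congr 2
    ring
  rw [e, hi']
  field_simp

section

variable (A R : Type) [CommRing A] [IsDomain A] [CharZero A] [Module.Finite ℤ A]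
  [CommRing R] [IsDomain R] [CharZero R] [Module.Finite ℤ R] [Algebra A R]

theorem card_hom_step (m : ℕ) (bas : Module.Basis (Fin m) A R) :
    Fintype.card (R →+* ℂ) = Fintype.card (A →+* ℂ) * m := by
  have hfree : Module.Free A R := Module.Free.of_basis bas
  have h1 : Module.finrank A R = m := by
    rw [Module.finrank_eq_card_basis bas, Fintype.card_fin]
  rw [card_hom, card_hom, ← Module.finrank_mul_finrank ℤ A R, h1]

theorem exists_embed_equiv (m : ℕ) (hm : 1 ≤ m) (x : R) (b : A) (hx : x ^ m = algebraMap A R b)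
    (bas : Module.Basis (Fin m) A R) (hbas : ∀ i, bas i = x ^ (i : ℕ))
    (c : (A →+* ℂ) → ℂ) (hc0 : ∀ τ, c τ ≠ 0) (hcb : ∀ τ, c τ ^ m = τ b) :
    ∃ e : ((A →+* ℂ) × Fin m) ≃ (R →+* ℂ), ∀ (τ : A →+* ℂ) (j : Fin m),
      (∀ a : A, e (τ, j) (algebraMap A R a) = τ a) ∧ e (τ, j) x = node m (c τ) j := by
  classical
  have hex : ∀ σ : R →+* ℂ, ∃ j : Fin m, σ x = node m (c (σ.comp (algebraMap A R))) j := by
    intro σ
    apply exists_node_eq m _ hm (hc0 _)
    rw [← map_pow, hx, hcb]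
    rfl
  choose J hJ using hex
  let g : (R →+* ℂ) → (A →+* ℂ) × Fin m := fun σ => (σ.comp (algebraMap A R), J σ)
  have hinj : Function.Injective g := by
    intro σ σ' h
    have h1 : σ.comp (algebraMap A R) = σ'.comp (algebraMap A R) := congrArg Prod.fst h
    have h2 : J σ = J σ' := congrArg Prod.snd h
    have h3 : σ x = σ' x := by rw [hJ, hJ, h1, h2]
    ext z
    rw [← bas.sum_repr z, map_sum, map_sum]
    refine Finset.sum_congr rfl fun i _ => ?_
    rw [Algebra.smul_def, map_mul, map_mul, hbas, map_pow, map_pow, h3]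
    congr 1
    exact RingHom.congr_fun h1 _
  have hcard : Fintype.card (R →+* ℂ) = Fintype.card ((A →+* ℂ) × Fin m) := by
    rw [Fintype.card_prod, Fintype.card_fin, card_hom_step A R m bas]
  have hbij : Function.Bijective g := (Fintype.bijective_iff_injective_and_card g).2 ⟨hinj, hcard⟩
  refine ⟨(Equiv.ofBijective g hbij).symm, fun τ j => ?_⟩
  have hg : g ((Equiv.ofBijective g hbij).symm (τ, j)) = (τ, j) :=
    (Equiv.ofBijective g hbij).apply_symm_apply (τ, j)
  set σ := (Equiv.ofBijective g hbij).symm (τ, j) with hσ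
  have h1 : σ.comp (algebraMap A R) = τ := congrArg Prod.fst hg
  have h2 : J σ = j := congrArg Prod.snd hg
  refine ⟨fun a => ?_, ?_⟩
  · rw [← h1]; rfl
  · rw [hJ, h2, h1]

/-- Lower bound for order heights outside the pairs proportional to a pair of `G`. -/
def BogO (G : Set (A × A)) (κ : ℝ) : Prop :=
  ∀ a b : A, a ≠ 0 → b ≠ 0 → (∀ g ∈ G, a * g.2 ≠ b * g.1) →
    κ * Fintype.card (A →+* ℂ) ≤ Real.log (OHt A a b)

/-- The pairs of `G` have small conjugates. -/
def DenO (G : Set (A × A)) (θ : ℝ) : Prop :=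
  ∀ g ∈ G, g.1 ≠ 0 ∧ g.2 ≠ 0 ∧ ∀ τ : A →+* ℂ,
    ‖τ g.1‖ ≤ Real.exp (θ * (Real.log (OHt A g.1 g.2) / Fintype.card (A →+* ℂ))) ∧
    ‖τ g.2‖ ≤ Real.exp (θ * (Real.log (OHt A g.1 g.2) / Fintype.card (A →+* ℂ)))

/-- The step theorem, normalised so that `u` has degree `D`. -/
lemma step_aux (m : ℕ) (hm : 1 ≤ m) (x : R) (b : A) (hx : x ^ m = algebraMap A R b)
    (bas : Module.Basis (Fin m) A R) (hbas : ∀ i, bas i = x ^ (i : ℕ))
    (B : ℝ) (hB : 1 < B) (hbB : ∀ τ : A →+* ℂ, ‖τ b‖ = B)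
    (G : Set (A × A)) (κ θ : ℝ) (hκ : 0 < κ) (hθ : 0 ≤ θ)
    (hBog : BogO A G κ) (hDen : DenO A G θ)
    (U V : R) (hU : U ≠ 0) (hV : V ≠ 0)
    (hne : ∀ g ∈ G, ∀ e : ℕ, U * algebraMap A R g.2 ≠ V * algebraMap A R g.1 * x ^ e)
    (D : ℕ) (u v : A[X]) (hD : 2 * D ≤ m) (hu : u.natDegree = D) (hv : v.natDegree ≤ D)
    (K : Type) [Field K] [Algebra A K] [IsFractionRing A K]
    (hcop : IsCoprime (u.map (algebraMap A K)) (v.map (algebraMap A K)))
    (hux : aeval x u ≠ 0) (hvx : aeval x v ≠ 0)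
    (huv : aeval x u * V = aeval x v * U) :
    (min κ (Real.log (5 / 4) / (2 + 2 * θ))
      - min κ (Real.log (5 / 4) / (2 + 2 * θ)) ^ 2 / Real.log B) * Fintype.card (R →+* ℂ)
      ≤ Real.log (OHt R U V) := by
  -- the roots of the conjugates of `b`
  have hroot : ∀ τ : A →+* ℂ, ∃ z : ℂ, z ^ m = τ b := fun τ =>
    IsAlgClosed.exists_pow_nat_eq (τ b) (by omega)
  choose c hcb using hroot
  have hcn : ∀ τ, ‖c τ‖ ^ m = B := by
    intro τ
    rw [← norm_pow, hcb, hbB]
  have hcpos : ∀ τ, 0 ≤ ‖c τ‖ := fun τ => norm_nonneg _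
  set β : ℝ := B ^ (1 / (m : ℝ)) with hβdef
  have hB0 : 0 < B := by linarith
  have hmR : (0 : ℝ) < m := by exact_mod_cast hm
  have hβpow : β ^ m = B := by
    rw [hβdef, ← Real.rpow_natCast, ← Real.rpow_mul hB0.le, one_div_mul_cancel hmR.ne',
      Real.rpow_one]
  have hβ0 : 0 < β := Real.rpow_pos_of_pos hB0 _
  have hβ : 1 < β := Real.one_lt_rpow hB (by positivity)
  have hc : ∀ τ, ‖c τ‖ = β := by
    intro τ
    exact (pow_left_inj₀ (hcpos τ) hβ0.le (by omega)).mp ((hcn τ).trans hβpow.symm)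
  have hc0 : ∀ τ, c τ ≠ 0 := by
    intro τ
    rw [← norm_pos_iff, hc τ]
    exact hβ0
  have hlogβ : Real.log β = Real.log B / m := by
    rw [hβdef, Real.log_rpow hB0]
    ring
  obtain ⟨e, he⟩ := exists_embed_equiv A R m hm x b hx bas hbas c hc0 hcb
  have hu0 : u ≠ 0 := by
    intro h
    apply hux
    rw [h, map_zero]
  have hv0 : v ≠ 0 := by
    intro h
    apply hvx
    rw [h, map_zero]
  -- rho
  have hinj : Function.Injective (algebraMap A K) := IsFractionRing.injective A K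
  have hrho : rho D u v ≠ 0 := by
    intro h
    have h1 := Pool.Agent.H4.RR.rho_ne_zero D (u.map (algebraMap A K)) (v.map (algebraMap A K))
      (by rw [natDegree_map_eq_of_injective hinj]; exact hu.le)
      (by rw [natDegree_map_eq_of_injective hinj]; exact hv)
      (Or.inl (by rw [natDegree_map_eq_of_injective hinj]; exact hu)) hcop
    apply h1
    rw [← Pool.Agent.H4.RR.rho_map, h, map_zero]
  -- weights
  have heval : ∀ (w : A[X]) (τ : A →+* ℂ) (j : Fin m),
      (w.map τ).eval (node m (c τ) j) = e (τ, j) (aeval x w) := by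
    intro w τ j
    rw [eval_map, aeval_def, hom_eval₂, (he τ j).2]
    congr 1
    ext a
    exact ((he τ j).1 a).symm
  have hwt : ∀ (τ : A →+* ℂ) (j : Fin m), wt m c u v τ j
      = max ‖e (τ, j) (aeval x u)‖ ‖e (τ, j) (aeval x v)‖ := by
    intro τ j
    rw [wt, heval u τ j, heval v τ j]
  have hpos : ∀ (τ : A →+* ℂ) (j : Fin m), 0 < wt m c u v τ j := by
    intro τ j
    rw [hwt]
    apply lt_max_of_lt_left
    rw [norm_pos_iff, Ne, map_eq_zero_iff _ (hom_injective R _)]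
    exact hux
  set I := idx R (aeval x u) (aeval x v) with hIdef
  have hI : 0 < I := Nat.pos_of_ne_zero (idx_ne_zero R _ _ (Or.inl hux))
  have hOH : OHt R U V = OHt R (aeval x u) (aeval x v) := by
    refine OHt_congr R _ _ _ _ hU hux ?_
    rw [mul_comm, ← huv, mul_comm]
  have hH : (I : ℝ) * OHt R (aeval x u) (aeval x v) = ∏ τ : A →+* ℂ, ∏ j, wt m c u v τ j := by
    have hIR : (I : ℝ) ≠ 0 := by exact_mod_cast hI.ne'
    rw [OHt, ← hIdef, mul_div_cancel₀ _ hIR, ← e.prod_comp, Fintype.prod_prod_type]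
    exact Finset.prod_congr rfl (fun τ _ => Finset.prod_congr rfl (fun j _ => (hwt τ j).symm))
  have h1 : ∀ (n : ℕ) (s t : A[X]), (s * u + t * v).natDegree ≤ n → n ≤ 2 * D →
      rho D u v * ((s * u + t * v).coeff n) ^ (m - 2 * D) ≠ 0 →
      I ≤ (Algebra.norm ℤ (rho D u v * ((s * u + t * v).coeff n) ^ (m - 2 * D))).natAbs :=
    fun n s t hdeg hn h0 => idx_le_one A R m D n hD hn x bas hbas u v s t hu.le hv hdeg h0
  have hul : u.coeff D ≠ 0 := by
    rw [← hu, coeff_natDegree]; exact leadingCoeff_ne_zero.mpr hu0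
  have h2 : I ≤ (Algebra.norm ℤ (rho D u v)).natAbs
      * (idx A (u.coeff D) (v.coeff v.natDegree)) ^ (m - 2 * D) :=
    idx_le_two A R m D v.natDegree hD hv x bas hbas u v hu.le le_rfl hrho (Or.inl hul)
  have hne' : ∀ g ∈ G, ∀ e : ℕ, C g.2 * u ≠ C g.1 * X ^ e * v := by
    intro g hg e' heq
    apply hne g hg e'
    have h3 : algebraMap A R g.2 * aeval x u = algebraMap A R g.1 * x ^ e' * aeval x v := by
      have := congrArg (aeval x) heq
      rwa [map_mul, map_mul, map_mul, aeval_C, aeval_C, map_pow, aeval_X] at this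
    apply mul_left_cancel₀ hvx
    calc aeval x v * (U * algebraMap A R g.2) = (aeval x v * U) * algebraMap A R g.2 := by ring
      _ = (aeval x u * V) * algebraMap A R g.2 := by rw [huv]
      _ = (algebraMap A R g.2 * aeval x u) * V := by ring
      _ = (algebraMap A R g.1 * x ^ e' * aeval x v) * V := by rw [h3]
      _ = aeval x v * (V * algebraMap A R g.1 * x ^ e') := by ring
  have hcore := core m D c β u v hβ hc hm hD hu hu0 hv hv0 hrho hpos I hI _ hH h1 h2 G κ θ hκ hθ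
    hBog hDen hne'
  rw [hOH, card_hom_step A R m bas]
  refine le_trans ?_ hcore
  set κ' := min κ (Real.log (5 / 4) / (2 + 2 * θ))
  have hlogB : 0 < Real.log B := Real.log_pos hB
  have hN : (0 : ℝ) ≤ Fintype.card (A →+* ℂ) := Nat.cast_nonneg _
  rw [hlogβ]
  have hsq : (κ' - κ' ^ 2 / Real.log B) * m
      ≤ (D : ℝ) ^ 2 * (Real.log B / m) + ((m : ℝ) - 2 * D) * κ' := by
    have h3 : (D : ℝ) ^ 2 * (Real.log B / m) + ((m : ℝ) - 2 * D) * κ'
        - (κ' - κ' ^ 2 / Real.log B) * m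
        = (D * Real.log B - m * κ') ^ 2 / (m * Real.log B) := by
      field_simp
      ring
    have h4 : 0 ≤ (D * Real.log B - m * κ') ^ 2 / (m * Real.log B) := by positivity
    linarith
  calc (κ' - κ' ^ 2 / Real.log B) * ((Fintype.card (A →+* ℂ) * m : ℕ) : ℝ)
      = Fintype.card (A →+* ℂ) * ((κ' - κ' ^ 2 / Real.log B) * m) := by push_cast; ring
    _ ≤ _ := by gcongr

/-- The order height does not depend on the order of the pair. -/
lemma OHt_comm (a b : R) : OHt R a b = OHt R b a := by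
  unfold OHt idx
  rw [Set.pair_comm]
  congr 1
  exact Finset.prod_congr rfl fun τ _ => max_comm _ _

/-- The step theorem: a lower bound for order heights on `R = A[x]`. -/
theorem step (m : ℕ) (hm : 1 ≤ m) (x : R) (b : A) (hx : x ^ m = algebraMap A R b)
    (bas : Module.Basis (Fin m) A R) (hbas : ∀ i, bas i = x ^ (i : ℕ))
    (B : ℝ) (hB : 1 < B) (hbB : ∀ τ : A →+* ℂ, ‖τ b‖ = B)
    (G : Set (A × A)) (κ θ : ℝ) (hκ : 0 < κ) (hθ : 0 ≤ θ)
    (hBog : BogO A G κ) (hDen : DenO A G θ)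
    (U V : R) (hU : U ≠ 0) (hV : V ≠ 0)
    (hne : ∀ g ∈ G, ∀ e : ℕ, U * algebraMap A R g.2 ≠ V * algebraMap A R g.1 * x ^ e ∧
      V * algebraMap A R g.2 ≠ U * algebraMap A R g.1 * x ^ e) :
    (min κ (Real.log (5 / 4) / (2 + 2 * θ))
      - min κ (Real.log (5 / 4) / (2 + 2 * θ)) ^ 2 / Real.log B) * Fintype.card (R →+* ℂ)
      ≤ Real.log (OHt R U V) := by
  obtain ⟨D, u, v, hD, hu, hv, huv, hcop, hux, hvx, hrel⟩ :=
    exists_rep A R m hm x bas hbas U V hU hV (FractionRing A)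
  by_cases hu' : u.natDegree = D
  · exact step_aux A R m hm x b hx bas hbas B hB hbB G κ θ hκ hθ hBog hDen U V hU hV
      (fun g hg e => (hne g hg e).1) D u v hD hu' hv (FractionRing A) hcop hux hvx hrel
  · have hv' : v.natDegree = D := huv.resolve_left hu'
    rw [OHt_comm]
    exact step_aux A R m hm x b hx bas hbas B hB hbB G κ θ hκ hθ hBog hDen V U hV hU
      (fun g hg e => (hne g hg e).2) D v u hD hv' hu (FractionRing A) hcop.symm hvx hux hrel.symm

end

end Pool.Agent.H4.OH
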