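import Mathlib

/-!
# Module RatCyc (MP_187c26_nt, sums of radicals): radicals in cyclotomic fields

`x_i^(2m) = p_i` distinct primes, `ζ` a primitive `N`-th root of unity in `Ω`. If
`g = ∏_{i ∈ s} x_i^(e_i) ∈ ℚ(ζ)` (`e_i ∈ ℤ`) then `m ∣ e_i` for all `i ∈ s`.

Proof. `E = ℚ⟮ζ⟯`, `g ∈ E`, `g^(2m) = ∏ p_i^(e_i) = c ∈ ℚ`, `c > 0`. For every embedding `φ : E →+* ℂ`:
`‖φ g‖^(2m) = c`, so `‖φ g‖^2 = ρ` does not depend on `φ`, `ρ^m = c`. Let `s : E ≃ₐ[ℚ] E` be the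
automorphism `ζ ↦ ζ⁻¹` (`IsCyclotomicExtension.autEquivPow` at `-1`, or
`IsCyclotomicExtension.fromZetaAut` with `ζ⁻¹` primitive); for every `φ` and `y ∈ E`:
`φ (s y) = conj (φ y)` (both sides are ring homs in `y`, equal at `ζ` since `‖φ ζ‖ = 1`; `E` is generated
by `ζ`: `IntermediateField.algHom_ext_of_eq_adjoin` or power basis). So `t = g * s g` has `φ t = ρ` for all
`φ`; hence `t ∈ ℚ`: all `φ t` are equal, so the minimal polynomial of `t` has only one root, i.e.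
degree one (separable; e.g. `t` is fixed by all automorphisms `σ` of the Galois extension `E/ℚ`:
`φ (σ t) = ρ = φ t` and `φ` is injective; `IsGalois.mem_bot_iff_fixed`). So `t = q ∈ ℚ`, `q = ρ`, `q^m = ρ^m = c =
∏ p_i^(e_i)`. Compare `padicValRat p_i`: `m * v_{p_i}(q) = e_i` (`padicValRat.pow`, `padicValRat.prod`-like;
`padicValRat p_i (p_j) = 0` for `i ≠ j`).
-/

set_option autoImplicit false

open IntermediateField

namespace Pool.Agent.H4.OH

/-- a power `g ^ (2 m)` which is a positive rational in a cyclotomic field is an `m`-th power -/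
private theorem rc_core {E : Type} [Field E] [Algebra ℚ E] (N m : ℕ) [NeZero N]
    [IsCyclotomicExtension {N} ℚ E] (hm : 1 ≤ m) (g : E) (c : ℚ) (hc : 0 < c)
    (hg : g ^ (2 * m) = algebraMap ℚ E c) : ∃ q : ℚ, q ^ m = c := by
  haveI : FiniteDimensional ℚ E := IsCyclotomicExtension.finiteDimensional {N} ℚ E
  haveI : IsGalois ℚ E := IsCyclotomicExtension.isGalois {N} ℚ E
  have hirr : Irreducible (Polynomial.cyclotomic N ℚ) :=
    Polynomial.cyclotomic.irreducible_rat (NeZero.pos N)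
  have hz := IsCyclotomicExtension.zeta_spec N ℚ E
  set z := IsCyclotomicExtension.zeta N ℚ E with hzdef
  set s : E ≃ₐ[ℚ] E := IsCyclotomicExtension.fromZetaAut hz.inv hirr with hs
  have hsz : s z = z⁻¹ := IsCyclotomicExtension.fromZetaAut_spec hz.inv hirr
  have hconj : ∀ (φ : E →ₐ[ℚ] ℂ) (y : E), φ (s y) = (starRingEnd ℂ) (φ y) := by
    intro φ y
    let cj : ℂ →ₐ[ℚ] ℂ := (starRingEnd ℂ).toRatAlgHom
    have h1 : φ.comp s.toAlgHom = cj.comp φ := by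
      apply (hz.powerBasis ℚ).algHom_ext
      rw [IsPrimitiveRoot.powerBasis_gen]
      show φ (s z) = (starRingEnd ℂ) (φ z)
      rw [hsz, map_inv₀]
      have h2 : φ z ^ N = 1 := by rw [← map_pow, hz.pow_eq_one, map_one]
      have h3 : ‖φ z‖ = 1 := Complex.norm_eq_one_of_pow_eq_one h2 (NeZero.ne N)
      rw [Complex.inv_def, Complex.normSq_eq_norm_sq, h3]
      simp
    exact congrArg (fun f : E →ₐ[ℚ] ℂ => f y) h1
  set t : E := g * s g with ht
  have hnorm : ∀ φ : E →ₐ[ℚ] ℂ, φ t = ((‖φ g‖ ^ 2 : ℝ) : ℂ) := by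
    intro φ
    rw [ht, map_mul, hconj, Complex.mul_conj, Complex.normSq_eq_norm_sq]
  have hpow : ∀ φ : E →ₐ[ℚ] ℂ, (‖φ g‖ ^ 2) ^ m = (c : ℝ) := by
    intro φ
    have h1 : (φ g) ^ (2 * m) = (c : ℂ) := by
      rw [← map_pow, hg, AlgHom.commutes]
      rfl
    rw [← pow_mul, ← norm_pow, h1, Complex.norm_ratCast, abs_of_pos (by exact_mod_cast hc)]
  have heq : ∀ φ ψ : E →ₐ[ℚ] ℂ, φ t = ψ t := by
    intro φ ψ
    rw [hnorm, hnorm]
    congr 1
    have h1 := (hpow φ).trans (hpow ψ).symm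
    exact (pow_left_inj₀ (by positivity) (by positivity) (by omega)).1 h1
  obtain ⟨φ⟩ : Nonempty (E →ₐ[ℚ] ℂ) := ⟨IsAlgClosed.lift⟩
  have hfix : ∀ σ : E ≃ₐ[ℚ] E, σ t = t := by
    intro σ
    exact φ.injective (heq (φ.comp σ.toAlgHom) φ)
  obtain ⟨q, hq⟩ := (IsGalois.mem_range_algebraMap_iff_fixed t).2 hfix
  refine ⟨q, ?_⟩
  have h1 : φ t = (q : ℂ) := by
    rw [← hq, AlgHom.commutes]
    rfl
  rw [hnorm] at h1
  have h2 : (‖φ g‖ ^ 2 : ℝ) = (q : ℝ) := by exact_mod_cast h1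
  have h3 := hpow φ
  rw [h2] at h3
  exact_mod_cast h3

private theorem rc_val {ι : Type} [DecidableEq ι] (s : Finset ι) (p : ι → ℕ)
    (hp : ∀ i ∈ s, (p i).Prime) (hinj : ∀ i ∈ s, ∀ j ∈ s, p i = p j → i = j) (e : ι → ℤ)
    (i : ι) (hi : i ∈ s) :
    padicValRat (p i) (∏ j ∈ s, ((p j : ℕ) : ℚ) ^ e j) = e i := by
  haveI : Fact (p i).Prime := ⟨hp i hi⟩
  have key : ∀ t ⊆ s, (∏ j ∈ t, ((p j : ℕ) : ℚ) ^ e j) ≠ 0 ∧
      padicValRat (p i) (∏ j ∈ t, ((p j : ℕ) : ℚ) ^ e j) = if i ∈ t then e i else 0 := by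
    intro t
    induction t using Finset.induction with
    | empty => intro _; simp
    | insert a t ha ih =>
      intro hts
      obtain ⟨h1, h2⟩ := ih (fun x hx => hts (Finset.mem_insert_of_mem hx))
      have has : a ∈ s := hts (Finset.mem_insert_self a t)
      have hpa : ((p a : ℕ) : ℚ) ≠ 0 := by exact_mod_cast (hp a has).ne_zero
      rw [Finset.prod_insert ha]
      refine ⟨mul_ne_zero (zpow_ne_zero _ hpa) h1, ?_⟩
      rw [padicValRat.mul (zpow_ne_zero _ hpa) h1, h2, padicValRat.zpow]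
      by_cases hia : i = a
      · subst hia
        rw [if_neg ha, if_pos (Finset.mem_insert_self _ _), padicValRat.of_nat,
          padicValNat_self]
        simp
      · have hne : p i ≠ p a := fun h => hia (hinj i hi a has h)
        have h3 : padicValNat (p i) (p a) = 0 := by
          haveI : Fact (p a).Prime := ⟨hp a has⟩
          exact padicValNat_primes hne
        rw [padicValRat.of_nat, h3]
        simp [Finset.mem_insert, hia]
  have := (key s (Finset.Subset.refl s)).2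
  rwa [if_pos hi] at this

theorem ratCyc {Ω : Type} [Field Ω] [CharZero Ω] (N m : ℕ) (hN : 1 ≤ N) (hm : 1 ≤ m) (ζ : Ω)
    (hζ : IsPrimitiveRoot ζ N) {ι : Type} [DecidableEq ι] (s : Finset ι) (p : ι → ℕ) (x : ι → Ωˣ)
    (hp : ∀ i ∈ s, (p i).Prime) (hinj : ∀ i ∈ s, ∀ j ∈ s, p i = p j → i = j)
    (hx : ∀ i ∈ s, (x i : Ω) ^ (2 * m) = (p i : Ω)) (e : ι → ℤ)
    (hg : ((∏ i ∈ s, x i ^ e i : Ωˣ) : Ω) ∈ ℚ⟮ζ⟯) :
    ∀ i ∈ s, (m : ℤ) ∣ e i := by
  haveI : NeZero N := ⟨by omega⟩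
  have halg : IsAlgebraic ℚ ζ := by
    have h1 : IsIntegral ℤ ζ := hζ.isIntegral (by omega)
    exact (h1.tower_top (A := ℚ)).isAlgebraic
  haveI : IsCyclotomicExtension {N} ℚ ℚ⟮ζ⟯ := by
    change IsCyclotomicExtension {N} ℚ (ℚ⟮ζ⟯).toSubalgebra
    rw [IntermediateField.adjoin_simple_toSubalgebra_of_isAlgebraic halg]
    exact hζ.adjoin_isCyclotomicExtension ℚ
  set c : ℚ := ∏ j ∈ s, ((p j : ℕ) : ℚ) ^ e j with hc
  have hc0 : 0 < c := by
    rw [hc]
    apply Finset.prod_pos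
    intro j hj
    have : (0 : ℚ) < ((p j : ℕ) : ℚ) := by exact_mod_cast (hp j hj).pos
    exact zpow_pos this _
  have hpow : (⟨_, hg⟩ : ℚ⟮ζ⟯) ^ (2 * m) = algebraMap ℚ ℚ⟮ζ⟯ c := by
    apply Subtype.ext
    show ((∏ i ∈ s, x i ^ e i : Ωˣ) : Ω) ^ (2 * m) = algebraMap ℚ Ω c
    rw [Units.coe_prod, ← Finset.prod_pow, hc, map_prod]
    refine Finset.prod_congr rfl fun i hi => ?_
    rw [map_zpow₀, map_natCast, ← hx i hi, Units.val_zpow_eq_zpow_val, ← zpow_natCast, ← zpow_natCast,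
      ← zpow_mul, ← zpow_mul, mul_comm]
  obtain ⟨q, hq⟩ := rc_core N m hm _ c hc0 hpow
  intro i hi
  have h1 := rc_val s p hp hinj e i hi
  haveI : Fact (p i).Prime := ⟨hp i hi⟩
  rw [← hc, ← hq, padicValRat.pow] at h1
  exact ⟨_, h1.symm⟩

end Pool.Agent.H4.OH
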