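import Pool.Agent.H4.OH.ShortRel
import Pool.Agent.H4.OH.RatCyc

/-!
# Module IndT (MP_187c26_nt, sums of radicals): independence over `ℤ[ζ, x_q : q ∈ T]`

`Ω` an algebraic closure of `ℚ`, `m ∣ N`, `x_i^(2m) = p_i` distinct primes, `x_i^m ∈ ℤ[ζ]` (`i ∈ s`). For
`T ⊆ s`, `k ∈ s \ T` and `A = ℤ[ζ, x_i : i ∈ T]`: `∑_{j<m} c_j x_k^j = 0` with `c_j ∈ A` implies all `c_j = 0`.

Proof. `F = ℚ⟮ζ⟯`. For `f : s → Fin m` let `μ_f = ∏_{i ∈ s} x_i^(f i)`. By `shortRel` (for `m` replaced by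
`m`: `μ_f^m = ∏ (x_i^m)^(f i) ∈ F`, `ω = ζ^(N/m) ∈ F`, `Ω/F` is Galois: algebraically closed and algebraic
over `ℚ`, characteristic zero) the family `μ` is linearly independent over `F`: if `μ_f/μ_g ∈ F` then by
`ratCyc` `m ∣ f i - g i` for all `i`, so `f = g` as `0 ≤ f i, g i < m`.
Let `V` be the `F`-span of the `μ_f` with `f i = 0` for `i ∉ T`. Every product `∏_{i∈T} x_i^(a_i)`
(`a_i ∈ ℕ`) lies in `V`: write `a_i = m q_i + r_i`, `x_i^m ∈ F`. So `V` is closed under multiplication and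
`A ⊆ V` (`Subring.closure_induction`). Write `c_j = ∑_{f, supp f ⊆ T} κ_{j,f} μ_f`; then
`0 = ∑_j c_j x_k^j = ∑_j ∑_f κ_{j,f} μ_{f + j e_k}` (where `f + j e_k` has value `j` at `k`, `f k = 0` before);
the map `(j, f) ↦ f + j e_k` is injective, so all `κ_{j,f} = 0` and `c_j = 0`.
-/

set_option autoImplicit false

open IntermediateField

namespace Pool.Agent.H4.OH

/-- the monomial with exponents `f` -/
private noncomputable def ixmu {Ω ι : Type} [Field Ω] (s : Finset ι) (m : ℕ) (x : ι → Ωˣ)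
    (f : ↥s → Fin m) : Ω := ∏ i : ↥s, (x i : Ω) ^ (f i : ℕ)

private theorem ixmu_ne {Ω ι : Type} [Field Ω] (s : Finset ι) (m : ℕ) (x : ι → Ωˣ)
    (f : ↥s → Fin m) : ixmu s m x f ≠ 0 :=
  Finset.prod_ne_zero_iff.2 fun i _ => pow_ne_zero _ (x i).ne_zero

private theorem ixmu_upd {Ω ι : Type} [Field Ω] [DecidableEq ι] (s : Finset ι) (m : ℕ)
    (x : ι → Ωˣ) (f : ↥s → Fin m) (i : ↥s) (a : Fin m) :
    ixmu s m x (Function.update f i a) * (x i : Ω) ^ (f i : ℕ) =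
      ixmu s m x f * (x i : Ω) ^ (a : ℕ) := by
  unfold ixmu
  rw [← Finset.mul_prod_erase Finset.univ (fun j : ↥s => (x j : Ω) ^ (Function.update f i a j : ℕ))
      (Finset.mem_univ i),
    ← Finset.mul_prod_erase Finset.univ (fun j : ↥s => (x j : Ω) ^ (f j : ℕ)) (Finset.mem_univ i)]
  have h : ∏ j ∈ Finset.univ.erase i, (x j : Ω) ^ (Function.update f i a j : ℕ) =
      ∏ j ∈ Finset.univ.erase i, (x j : Ω) ^ (f j : ℕ) := by
    refine Finset.prod_congr rfl fun j hj => ?_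
    rw [Function.update_of_ne (Finset.ne_of_mem_erase hj)]
  rw [h, Function.update_self]
  ring

theorem indT {Ω : Type} [Field Ω] [CharZero Ω] [IsAlgClosed Ω] [Algebra.IsAlgebraic ℚ Ω] (N m : ℕ)
    (hN : 1 ≤ N) (hm : 1 ≤ m) (hmN : m ∣ N) (ζ : Ω)
    (hζ : IsPrimitiveRoot ζ N) {ι : Type} [DecidableEq ι] (s : Finset ι) (p : ι → ℕ) (x : ι → Ωˣ)
    (hp : ∀ i ∈ s, (p i).Prime) (hinj : ∀ i ∈ s, ∀ j ∈ s, p i = p j → i = j)
    (hx : ∀ i ∈ s, (x i : Ω) ^ (2 * m) = (p i : Ω))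
    (hxm : ∀ i ∈ s, (x i : Ω) ^ m ∈ Subring.closure {ζ})
    (T : Finset ι) (hT : T ⊆ s) (k : ι) (hk : k ∈ s) (hkT : k ∉ T)
    (A : Subring Ω) (hA : A = Subring.closure ({ζ} ∪ {y | ∃ i ∈ T, y = (x i : Ω)}))
    (c : Fin m → A) (hc : ∑ j, (c j : Ω) * (x k : Ω) ^ (j : ℕ) = 0) :
    ∀ j, c j = 0 := by
  classical
  have hgal : IsGalois ℚ⟮ζ⟯ Ω := by
    have : Algebra.IsAlgebraic ℚ⟮ζ⟯ Ω := Algebra.IsAlgebraic.tower_top (K := ℚ) ℚ⟮ζ⟯
    have : IsAlgClosure ℚ⟮ζ⟯ Ω := ⟨inferInstance, inferInstance⟩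
    infer_instance
  have hζF : ζ ∈ ℚ⟮ζ⟯ := mem_adjoin_simple_self ℚ ζ
  have hclF : ∀ y ∈ Subring.closure {ζ}, y ∈ ℚ⟮ζ⟯ := by
    intro y hy
    have h1 : Subring.closure {ζ} ≤ (ℚ⟮ζ⟯).toSubalgebra.toSubring := by
      rw [Subring.closure_le]
      rintro _ rfl
      exact hζF
    exact h1 hy
  have hω : IsPrimitiveRoot (⟨ζ, hζF⟩ ^ (N / m) : ℚ⟮ζ⟯) m := by
    have h1 : IsPrimitiveRoot (⟨ζ, hζF⟩ : ℚ⟮ζ⟯) N := by
      rw [← IsPrimitiveRoot.coe_submonoidClass_iff]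
      exact hζ
    exact h1.pow (by omega) (Nat.div_mul_cancel hmN).symm
  have hli : LinearIndependent ℚ⟮ζ⟯ (ixmu s m x) := by
    refine shortRel ℚ⟮ζ⟯ Ω m hm _ hω (ixmu s m x) (ixmu_ne s m x) ?_ ?_
    · intro f
      have h1 : ixmu s m x f ^ m ∈ ℚ⟮ζ⟯ := by
        unfold ixmu
        rw [← Finset.prod_pow]
        refine prod_mem fun i _ => ?_
        rw [← pow_mul, mul_comm, pow_mul]
        exact pow_mem (hclF _ (hxm i i.2)) _
      exact ⟨⟨_, h1⟩, rfl⟩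
    · rintro f g hfg ⟨y, hy⟩
      apply hfg
      set e : ι → ℤ := fun i => if h : i ∈ s then ((f ⟨i, h⟩ : ℕ) : ℤ) - ((g ⟨i, h⟩ : ℕ) : ℤ) else 0
        with he
      have h1 : ((∏ i ∈ s, x i ^ e i : Ωˣ) : Ω) = ixmu s m x f / ixmu s m x g := by
        rw [Units.coe_prod, ← Finset.prod_coe_sort s]
        unfold ixmu
        rw [← Finset.prod_div_distrib]
        refine Finset.prod_congr rfl fun i _ => ?_
        have h2 : e i = ((f i : ℕ) : ℤ) - ((g i : ℕ) : ℤ) := by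
          rw [he]
          simp only [dif_pos i.2]
        rw [h2, Units.val_zpow_eq_zpow_val, zpow_sub₀ (x i).ne_zero, zpow_natCast, zpow_natCast]
      have h3 := ratCyc N m hN hm ζ hζ s p x hp hinj hx e (by
        rw [h1, ← hy]
        exact y.2)
      funext i
      have h4 := h3 i i.2
      have h5 : e i = ((f i : ℕ) : ℤ) - ((g i : ℕ) : ℤ) := by
        rw [he]
        simp only [dif_pos i.2]
      rw [h5] at h4
      apply Fin.ext
      have h6 := (f i).2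
      have h7 := (g i).2
      have h8 : ((f i : ℕ) : ℤ) - ((g i : ℕ) : ℤ) = 0 := by
        apply Int.eq_zero_of_abs_lt_dvd h4
        rw [abs_lt]
        constructor <;> omega
      omega
  let IT := {f : ↥s → Fin m // ∀ i : ↥s, (i : ι) ∉ T → (f i : ℕ) = 0}
  let S : Set Ω := {y | ∃ i ∈ T, y = (x i : Ω)}
  let V : Submodule ℚ⟮ζ⟯ Ω := Submodule.span ℚ⟮ζ⟯ (Set.range fun f : IT => ixmu s m x f.1)
  have hmon : ∀ y ∈ Submonoid.closure S, ∃ (κ : ℚ⟮ζ⟯) (f : IT), y = (κ : Ω) * ixmu s m x f.1 := by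
    intro y hy
    induction hy using Submonoid.closure_induction_right with
    | one =>
      refine ⟨1, ⟨fun _ => ⟨0, hm⟩, fun _ _ => rfl⟩, ?_⟩
      unfold ixmu
      simp
    | mul_right y hy z hz ih =>
      obtain ⟨κ, f, rfl⟩ := ih
      obtain ⟨i, hi, rfl⟩ := hz
      have hi' := hT hi
      have hxi : (x i : Ω) ≠ 0 := (x i).ne_zero
      by_cases hlt : (f.1 ⟨i, hi'⟩ : ℕ) + 1 < m
      · refine ⟨κ, ⟨Function.update f.1 ⟨i, hi'⟩ ⟨_, hlt⟩, ?_⟩, ?_⟩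
        · intro j hj
          have hne : j ≠ ⟨i, hi'⟩ := by
            rintro rfl
            exact hj hi
          rw [Function.update_of_ne hne]
          exact f.2 j hj
        · have h1 := ixmu_upd s m x f.1 ⟨i, hi'⟩ ⟨_, hlt⟩
          have h2 : ixmu s m x (Function.update f.1 ⟨i, hi'⟩ ⟨_, hlt⟩) = ixmu s m x f.1 * x i := by
            apply mul_right_cancel₀ (pow_ne_zero (f.1 ⟨i, hi'⟩ : ℕ) hxi)
            rw [h1, mul_assoc, ← pow_succ']
          rw [h2, mul_assoc]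
      · have hm1 : (f.1 ⟨i, hi'⟩ : ℕ) + 1 = m := by
          have := (f.1 ⟨i, hi'⟩).2
          omega
        refine ⟨κ * ⟨_, hclF _ (hxm i hi')⟩, ⟨Function.update f.1 ⟨i, hi'⟩ ⟨0, hm⟩, ?_⟩, ?_⟩
        · intro j hj
          have hne : j ≠ ⟨i, hi'⟩ := by
            rintro rfl
            exact hj hi
          rw [Function.update_of_ne hne]
          exact f.2 j hj
        · have h1 := ixmu_upd s m x f.1 ⟨i, hi'⟩ ⟨0, hm⟩
          have h2 : (x i : Ω) ^ m = (x i : Ω) ^ (f.1 ⟨i, hi'⟩ : ℕ) * x i := by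
            rw [← pow_succ, hm1]
          have h3 : ((κ * ⟨(x i : Ω) ^ m, hclF _ (hxm i hi')⟩ : ℚ⟮ζ⟯) : Ω) = (κ : Ω) * (x i : Ω) ^ m := rfl
          rw [h3, h2]
          have h4 : ixmu s m x (Function.update f.1 ⟨i, hi'⟩ ⟨0, hm⟩) * (x i : Ω) ^ (f.1 ⟨i, hi'⟩ : ℕ) =
              ixmu s m x f.1 := by
            rw [h1]
            simp
          calc (κ : Ω) * ixmu s m x f.1 * x i
              = κ * (ixmu s m x (Function.update f.1 ⟨i, hi'⟩ ⟨0, hm⟩) *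
                  (x i : Ω) ^ (f.1 ⟨i, hi'⟩ : ℕ)) * x i := by rw [h4]
            _ = _ := by ring
  have hAV : ∀ y ∈ A, y ∈ V := by
    intro y hy
    have h1 : Subring.closure ({ζ} ∪ S) ≤ (Algebra.adjoin ℚ⟮ζ⟯ S).toSubring := by
      rw [Subring.closure_le]
      rintro z (hz | hz)
      · rw [Set.mem_singleton_iff.1 hz]
        exact (Algebra.adjoin ℚ⟮ζ⟯ S).algebraMap_mem ⟨ζ, hζF⟩
      · exact Algebra.subset_adjoin hz
    rw [hA] at hy
    have h2 : y ∈ Subalgebra.toSubmodule (Algebra.adjoin ℚ⟮ζ⟯ S) := h1 hy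
    rw [Algebra.adjoin_eq_span] at h2
    refine (Submodule.span_le.2 ?_) h2
    intro z hz
    obtain ⟨κ, f, rfl⟩ := hmon z hz
    have h3 : (κ : Ω) * ixmu s m x f.1 = κ • ixmu s m x f.1 := rfl
    rw [h3]
    exact V.smul_mem κ (Submodule.subset_span ⟨f, rfl⟩)
  have hex : ∀ j, ∃ κ : IT → ℚ⟮ζ⟯, ∑ f, κ f • ixmu s m x f.1 = (c j : Ω) := fun j =>
    (Submodule.mem_span_range_iff_exists_fun ℚ⟮ζ⟯).1 (hAV _ (c j).2)
  choose κ hκ using hex
  -- the injective map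
  let G : Fin m × IT → (↥s → Fin m) := fun q => Function.update q.2.1 ⟨k, hk⟩ q.1
  have hG : Function.Injective G := by
    rintro ⟨j, f⟩ ⟨j', f'⟩ h
    have h0 : Function.update f.1 ⟨k, hk⟩ j = Function.update f'.1 ⟨k, hk⟩ j' := h
    have h1 : j = j' := by
      have := congrFun h0 ⟨k, hk⟩
      rwa [Function.update_self, Function.update_self] at this
    have h2 : f = f' := by
      apply Subtype.ext
      funext i
      by_cases hi : i = ⟨k, hk⟩
      · rw [hi]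
        apply Fin.ext
        rw [f.2 _ hkT, f'.2 _ hkT]
      · have := congrFun h0 i
        rwa [Function.update_of_ne hi, Function.update_of_ne hi] at this
    rw [h1, h2]
  have hli2 := hli.comp G hG
  rw [Fintype.linearIndependent_iff] at hli2
  have hval : ∀ q : Fin m × IT, ixmu s m x (G q) = ixmu s m x q.2.1 * (x k : Ω) ^ (q.1 : ℕ) := by
    intro q
    have h1 := ixmu_upd s m x q.2.1 ⟨k, hk⟩ q.1
    rw [q.2.2 ⟨k, hk⟩ hkT, pow_zero, mul_one] at h1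
    exact h1
  have h0 := hli2 (fun q => κ q.1 q.2) (by
    rw [Fintype.sum_prod_type]
    rw [← hc]
    refine Finset.sum_congr rfl fun j _ => ?_
    rw [← hκ j, Finset.sum_mul]
    refine Finset.sum_congr rfl fun f _ => ?_
    show κ j f • ixmu s m x (G (j, f)) = _
    rw [hval, smul_mul_assoc])
  intro j
  apply Subtype.ext
  rw [← hκ j]
  have h1 : ∀ f, κ j f = 0 := fun f => h0 (j, f)
  rw [Finset.sum_eq_zero]
  · rfl
  · intro f _
    rw [h1 f, zero_smul]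

end Pool.Agent.H4.OH
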