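import Pool.Agent.H4.OH.SubDefs
import Pool.Agent.H4.RR.DenTower

/-!
# Module Mono (MP_187c26_nt, sums of radicals): monomials have small conjugates

`x_i^M = b_i` with pairwise coprime natural numbers `b_i ≥ 2` (`i ∈ s`), `A ⊆ Ω` an order containing
the `x_i` (`i ∈ s`) and the roots of unity `T`. Then `DenS A (T ⊔ ⨆ i ∈ s, zpowers (x i)) 1`.

Proof. Compare `den_tower` in `Pool/Agent/H4/RR/DenTower.lean` (reuse `mem_iSup_zpowers`). Let
`t = ζ * ∏_{i∈s} x_i^(j_i)`, `ζ ∈ T`. Put `g1 = ζ ∏ x_i^(j_i^+)`, `g2 = ∏ x_i^(j_i^-)`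
(`j^+ = j.toNat`, `j^- = (-j).toNat`), elements of `A`, `g1 = t g2`. With
`β_i = (b_i : ℝ)^(1/M)` every `τ : A →+* ℂ` satisfies `‖τ x_i‖ = β_i` (as `‖τ x_i‖^M = b_i`) and
`‖τ ζ‖ = 1` (`ζ` has finite order), so `‖τ g1‖ = R1 := ∏ β_i^(j_i^+)`, `‖τ g2‖ = R2 := ∏ β_i^(j_i^-)`, for
all `τ`. `g1` and `g2` are coprime in `A`: `IsCoprime (b_i : A) (b_j : A)` for `i ≠ j` (from
`Nat.Coprime`, `Nat.isCoprime_iff_coprime`, map to `A`), `b_i = x_i^M`, so `IsCoprime x_i x_j`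
(`IsCoprime.pow_iff`), `IsCoprime.prod_left/right`, `IsCoprime.pow`; for `i = j` one of the exponents
is zero; `ζ` is a unit of `A` (`ζ^n = 1`, `ζ^(n-1) ∈ A`). Hence `Ideal.span {g1, g2} = ⊤`
(`Ideal.isCoprime_span_singleton_iff`/`Ideal.span_pair...`), `idx A g1 g2 = 1`
(`AddSubgroup.index_top`), and `OHt A g1 g2 = ∏_τ max R1 R2 = (max R1 R2)^N`, `N = card`, so
`log (OHt) / N = log (max R1 R2)` and `R1, R2 ≤ max R1 R2 = exp (1 * log (max R1 R2))`.
-/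

set_option autoImplicit false

namespace Pool.Agent.H4.OH

open Pool.Agent.H4.RR (mem_iSup_zpowers norm_eq_one_of_pow beta beta_pow beta_pos)

variable {Ω : Type} [Field Ω] [CharZero Ω]

theorem mono_idx (A : Type) [CommRing A] (g1 g2 : A) (h : IsCoprime g1 g2) : idx A g1 g2 = 1 := by
  unfold idx
  have h1 : Ideal.span {g1, g2} = ⊤ := by
    rw [Ideal.eq_top_iff_one, Ideal.mem_span_pair]
    exact h
  rw [h1, Submodule.top_toAddSubgroup, AddSubgroup.index_top]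

theorem denS_mono (A : Subring Ω) (hA : Module.Finite ℤ A) {ι : Type} [DecidableEq ι]
    (s : Finset ι) (b : ι → ℕ) (M : ℕ) (hM : 1 ≤ M) (x : ι → Ωˣ) (hb : ∀ i ∈ s, 2 ≤ b i)
    (hx : ∀ i ∈ s, (x i : Ω) ^ M = (b i : Ω)) (hxA : ∀ i ∈ s, (x i : Ω) ∈ A)
    (hcop : ∀ i ∈ s, ∀ j ∈ s, i ≠ j → Nat.Coprime (b i) (b j))
    (T : Subgroup Ωˣ) (hT : ∀ ζ ∈ T, (ζ : Ω) ∈ A ∧ ∃ n : ℕ, 1 ≤ n ∧ ζ ^ n = 1) :
    DenS A (T ⊔ ⨆ i ∈ s, Subgroup.zpowers (x i)) 1 := by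
  refine ⟨hA, ?_⟩
  intro t ht
  obtain ⟨ζ, hζ, y, hy, hty⟩ := Subgroup.mem_sup.1 ht
  obtain ⟨j, rfl⟩ := mem_iSup_zpowers x s y hy
  obtain ⟨hζA, N0, hN0, hζN⟩ := hT ζ hζ
  -- exponents
  set jp : ι → ℕ := fun i => (j i).toNat with hjp
  set jm : ι → ℕ := fun i => (-(j i)).toNat with hjm
  have hjz : ∀ i, j i + (jm i : ℤ) = (jp i : ℤ) := by
    intro i
    simp only [hjp, hjm]
    omega
  have hj0 : ∀ i, jp i = 0 ∨ jm i = 0 := by
    intro i
    simp only [hjp, hjm]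
    omega
  -- the identity of units
  have hunit : t * ∏ i ∈ s, x i ^ jm i = ζ * ∏ i ∈ s, x i ^ jp i := by
    rw [← hty, mul_assoc, ← Finset.prod_mul_distrib]
    congr 1
    refine Finset.prod_congr rfl fun i _ => ?_
    rw [← zpow_natCast, ← zpow_add, hjz, zpow_natCast]
  -- elements of A
  let X : ι → A := fun i => if h : i ∈ s then ⟨(x i : Ω), hxA i h⟩ else 1
  have hX : ∀ i ∈ s, ((X i : A) : Ω) = (x i : Ω) := by
    intro i hi
    simp only [X, dif_pos hi]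
  have hXm : ∀ i ∈ s, X i ^ M = (b i : A) := by
    intro i hi
    apply Subtype.ext
    rw [Subring.coe_pow, hX i hi, hx i hi]
    simp
  let z : A := ⟨(ζ : Ω), hζA⟩
  have hzN : z ^ N0 = 1 := by
    apply Subtype.ext
    rw [Subring.coe_pow, Subring.coe_one]
    show (ζ : Ω) ^ N0 = 1
    rw [← Units.val_pow_eq_pow_val, hζN, Units.val_one]
  have hzunit : IsUnit z := IsUnit.of_pow_eq_one hzN (by omega)
  set g1 : A := z * ∏ i ∈ s, X i ^ jp i with hg1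
  set g2 : A := ∏ i ∈ s, X i ^ jm i with hg2
  have hcoe : ∀ e : ι → ℕ, (((∏ i ∈ s, X i ^ e i : A) : Ω)) = ((∏ i ∈ s, x i ^ e i : Ωˣ) : Ω) := by
    intro e
    rw [Units.coe_prod]
    refine (map_prod A.subtype _ _).trans ?_
    refine Finset.prod_congr rfl fun i hi => ?_
    rw [Units.val_pow_eq_pow_val, map_pow]
    show (X i : Ω) ^ e i = _
    rw [hX i hi]
  have hg1Ω : (g1 : Ω) = ((ζ * ∏ i ∈ s, x i ^ jp i : Ωˣ) : Ω) := by
    rw [hg1, Subring.coe_mul, hcoe jp, Units.val_mul]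
  have hg2Ω : (g2 : Ω) = ((∏ i ∈ s, x i ^ jm i : Ωˣ) : Ω) := hcoe jm
  -- norms of the conjugates
  have hb1 : ∀ i ∈ s, 1 ≤ b i := fun i hi => le_trans (by norm_num) (hb i hi)
  have hβ : ∀ (τ : A →+* ℂ), ∀ i ∈ s, ‖τ (X i)‖ = beta M (b i) := by
    intro τ i hi
    have h1 : ‖τ (X i)‖ ^ M = beta M (b i) ^ M := by
      rw [beta_pow _ _ hM, ← norm_pow, ← map_pow, hXm i hi, map_natCast]
      simp
    exact (pow_left_inj₀ (norm_nonneg _) (beta_pos _ _ (hb1 i hi)).le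
      (by omega)).1 h1
  have hnorm : ∀ (τ : A →+* ℂ) (e : ι → ℕ), ‖τ (∏ i ∈ s, X i ^ e i)‖
      = ∏ i ∈ s, beta M (b i) ^ e i := by
    intro τ e
    rw [map_prod, norm_prod]
    refine Finset.prod_congr rfl fun i hi => ?_
    rw [map_pow, norm_pow, hβ τ i hi]
  set R1 : ℝ := ∏ i ∈ s, beta M (b i) ^ jp i with hR1
  set R2 : ℝ := ∏ i ∈ s, beta M (b i) ^ jm i with hR2
  have hR1pos : 0 < R1 := Finset.prod_pos fun i hi => pow_pos (beta_pos _ _ (hb1 i hi)) _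
  have hn1 : ∀ τ : A →+* ℂ, ‖τ g1‖ = R1 := by
    intro τ
    have h1 : ‖τ z‖ = 1 := by
      refine norm_eq_one_of_pow hN0 ?_
      rw [← map_pow, hzN, map_one]
    rw [hg1, map_mul, norm_mul, h1, one_mul]
    exact hnorm τ jp
  have hn2 : ∀ τ : A →+* ℂ, ‖τ g2‖ = R2 := fun τ => hnorm τ jm
  -- coprimality
  have hcopX : ∀ i ∈ s, ∀ k ∈ s, i ≠ k → IsCoprime (X i) (X k) := by
    intro i hi k hk hik
    have h1 : IsCoprime ((b i : ℤ)) ((b k : ℤ)) :=
      Nat.isCoprime_iff_coprime.2 (hcop i hi k hk hik)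
    have h2 := h1.map (Int.castRingHom A)
    rw [map_natCast, map_natCast, ← hXm i hi, ← hXm k hk] at h2
    exact (IsCoprime.pow_iff hM hM).1 h2
  have hcopg : IsCoprime g1 g2 := by
    have h1 : IsCoprime (∏ i ∈ s, X i ^ jp i) g2 := by
      refine IsCoprime.prod_left fun i hi => IsCoprime.prod_right fun k hk => ?_
      by_cases hik : i = k
      · subst hik
        rcases hj0 i with h | h
        · rw [h, pow_zero]
          exact isCoprime_one_left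
        · rw [h, pow_zero]
          exact isCoprime_one_right
      · exact (hcopX i hi k hk hik).pow
    exact (isCoprime_mul_unit_left_left hzunit _ _).2 h1
  have hN : (0 : ℝ) < Fintype.card (A →+* ℂ) := by
    exact_mod_cast card_hom_pos A
  have hOH : Real.log (OHt A g1 g2) / Fintype.card (A →+* ℂ) = Real.log (max R1 R2) := by
    have h1 : OHt A g1 g2 = (max R1 R2) ^ Fintype.card (A →+* ℂ) := by
      unfold OHt
      rw [mono_idx A g1 g2 hcopg, Nat.cast_one, div_one]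
      simp only [hn1, hn2]
      rw [Finset.prod_const, Finset.card_univ]
    rw [h1, Real.log_pow, mul_div_cancel_left₀ _ hN.ne']
  have hmax : 0 < max R1 R2 := lt_max_of_lt_left hR1pos
  refine ⟨g1, g2, ?_, ?_, ?_, ?_⟩
  · intro h
    have h1 : (g1 : Ω) = 0 := by rw [h]; rfl
    rw [hg1Ω] at h1
    exact Units.ne_zero _ h1
  · intro h
    have h1 : (g2 : Ω) = 0 := by rw [h]; rfl
    rw [hg2Ω] at h1
    exact Units.ne_zero _ h1
  · rw [hg1Ω, hg2Ω, ← Units.val_mul, hunit]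
  · intro τ
    rw [hOH, one_mul, Real.exp_log hmax, hn1 τ, hn2 τ]
    exact ⟨le_max_left _ _, le_max_right _ _⟩

end Pool.Agent.H4.OH
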