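import Mathlib

/-!
# Module SqrtCyc (MP_187c26_nt, sums of radicals): square roots of primes in `ℤ[ζ]`

`8 p ∣ N`, `ζ` a primitive `N`-th root of unity, `z^2 = p`. Then `z ∈ ℤ[ζ]`.

Proof. `p = 2`: `ε = ζ^(N/8)` is a primitive 8th root of unity, `(ε + ε^(-1))^2 = 2` (`ε^4 = -1`,
`ε^(-1) = ε^7`), so `z = ±(ε + ε^7)`. `p` odd: `η = ζ^(N/p)` primitive `p`-th root of unity; quadratic
Gauss sum `g = ∑_{a : ZMod p} χ(a) η^a ∈ ℤ[ζ]` with `g^2 = χ(-1) p = ± p` (`gaussSum_sq` for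
`quadraticChar (ZMod p)` mapped to `Ω` and the additive character `ZMod p → Ω` given by `η`,
`AddChar.zmodChar`; `gaussSum` is a finite sum of `±` powers of `η`). `i = ζ^(N/4)`, `i^2 = -1`. So
`z^2 = g^2` or `z^2 = (i g)^2`, `z = ± g` or `± i g`.
-/

set_option autoImplicit false

namespace Pool.Agent.H4.OH

private theorem sc_of_sq {Ω : Type} [Field Ω] (S : Subring Ω) {z g : Ω} (h : z ^ 2 = g ^ 2)
    (hg : g ∈ S) : z ∈ S := by
  rcases sq_eq_sq_iff_eq_or_eq_neg.mp h with h1 | h1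
  · rw [h1]; exact hg
  · rw [h1]; exact S.neg_mem hg

theorem sqrt_mem {Ω : Type} [Field Ω] [CharZero Ω] (N p : ℕ) (hp : p.Prime) (hN : 1 ≤ N)
    (hpN : 8 * p ∣ N) (ζ : Ω) (hζ : IsPrimitiveRoot ζ N) (z : Ω) (hz : z ^ 2 = (p : Ω)) :
    z ∈ Subring.closure {ζ} := by
  have hS : ζ ∈ Subring.closure ({ζ} : Set Ω) := Subring.subset_closure rfl
  have hN0 : 0 < N := hN
  have h8 : 8 ∣ N := (Dvd.intro _ rfl).trans hpN
  have h4 : 4 ∣ N := (by norm_num : (4 : ℕ) ∣ 8).trans h8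
  have hpd : p ∣ N := (Dvd.intro_left _ rfl).trans hpN
  rcases hp.eq_two_or_odd' with h2 | hodd
  · subst h2
    have hε : IsPrimitiveRoot (ζ ^ (N / 8)) 8 :=
      hζ.pow hN0 (Nat.div_mul_cancel h8).symm
    have hε4 : IsPrimitiveRoot ((ζ ^ (N / 8)) ^ 4) 2 := hε.pow (by norm_num) (by norm_num)
    have h1 : (ζ ^ (N / 8)) ^ 4 = -1 := hε4.eq_neg_one_of_two_right
    apply sc_of_sq _ (g := ζ ^ (N / 8) + (ζ ^ (N / 8)) ^ 7)
    · rw [hz]
      generalize ζ ^ (N / 8) = ε at h1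
      push_cast
      linear_combination (-1 : Ω) * ε ^ 2 * (ε ^ 8 - ε ^ 4 + 1) * h1 - 2 * (ε ^ 4 - 1) * h1
    · exact Subring.add_mem _ (Subring.pow_mem _ hS _) (Subring.pow_mem _ (Subring.pow_mem _ hS _) _)
  · have : Fact p.Prime := ⟨hp⟩
    have hη : IsPrimitiveRoot (ζ ^ (N / p)) p := hζ.pow hN0 (Nat.div_mul_cancel hpd).symm
    have hi : IsPrimitiveRoot (ζ ^ (N / 4)) 4 := hζ.pow hN0 (Nat.div_mul_cancel h4).symm
    have hi2 : IsPrimitiveRoot ((ζ ^ (N / 4)) ^ 2) 2 := hi.pow (by norm_num) (by norm_num)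
    have hi1 : (ζ ^ (N / 4)) ^ 2 = -1 := hi2.eq_neg_one_of_two_right
    have hchar : ringChar (ZMod p) ≠ 2 := by
      rw [ZMod.ringChar_zmod_n]
      rintro rfl
      exact absurd hodd (by decide)
    have hχ1 : (quadraticChar (ZMod p)).ringHomComp (Int.castRingHom Ω) ≠ 1 :=
      (MulChar.ringHomComp_ne_one_iff (RingHom.injective_int _)).mpr (quadraticChar_ne_one hchar)
    have hχ2 : ((quadraticChar (ZMod p)).ringHomComp (Int.castRingHom Ω)).IsQuadratic :=
      (quadraticChar_isQuadratic (ZMod p)).comp _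
    have hψ := AddChar.zmodChar_primitive_of_primitive_root p hη
    have hg := gaussSum_sq hχ1 hχ2 hψ
    have hgS : gaussSum ((quadraticChar (ZMod p)).ringHomComp (Int.castRingHom Ω))
        (AddChar.zmodChar p ((IsPrimitiveRoot.iff_def (ζ ^ (N / p)) p).mp hη).left) ∈
        Subring.closure ({ζ} : Set Ω) := by
      unfold gaussSum
      refine Subring.sum_mem _ fun a _ => ?_
      refine Subring.mul_mem _ ?_ ?_
      · rw [MulChar.ringHomComp_apply]
        exact intCast_mem _ _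
      · rw [AddChar.zmodChar_apply]
        exact Subring.pow_mem _ (Subring.pow_mem _ hS _) _
    rw [ZMod.card, MulChar.ringHomComp_apply] at hg
    have hne : (-1 : ZMod p) ≠ 0 := neg_ne_zero.mpr one_ne_zero
    rcases quadraticChar_dichotomy hne with h5 | h5
    · rw [h5, map_one, one_mul] at hg
      exact sc_of_sq _ (hz.trans hg.symm) hgS
    · rw [h5, map_neg, map_one] at hg
      refine sc_of_sq _ (g := ζ ^ (N / 4) * _) ?_ (Subring.mul_mem _ (Subring.pow_mem _ hS _) hgS)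
      rw [mul_pow, hi1, hg, hz]
      ring

end Pool.Agent.H4.OH
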