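import Pool.Agent.H4.OH.SubStep
import Pool.Agent.H4.OH.Mono
import Pool.Agent.H4.OH.BaseS
import Pool.Agent.H4.OH.SqrtCyc
import Pool.Agent.H4.OH.IndT

/-!
# The tower of orders (MP_187c26_nt, sums of radicals)
-/

set_option autoImplicit false

open IntermediateField

namespace Pool.Agent.H4.OH

/-- One step of the recursion for the constants. -/
noncomputable def cn (c : ℝ) : ℝ :=
  min c (Real.log (5 / 4) / 4) - min c (Real.log (5 / 4) / 4) ^ 2 / (Real.log 2 / 2)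

/-- The constant after `n` steps. -/
noncomputable def cs (κ : ℝ) : ℕ → ℝ
  | 0 => κ
  | n + 1 => cn (cs κ n)

lemma log_five_four_pos : 0 < Real.log (5 / 4) := Real.log_pos (by norm_num)

lemma log_five_four_lt : Real.log (5 / 4) < Real.log 2 :=
  Real.log_lt_log (by norm_num) (by norm_num)

lemma cn_pos (c : ℝ) (hc : 0 < c) : 0 < cn c := by
  unfold cn
  set t := min c (Real.log (5 / 4) / 4)
  have h1 : 0 < t := lt_min hc (by have := log_five_four_pos; positivity)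
  have h2 : t ≤ Real.log (5 / 4) / 4 := min_le_right _ _
  have h3 := log_five_four_pos
  have h4 := log_five_four_lt
  have h5 : t < Real.log 2 / 2 := by linarith
  have h6 : t ^ 2 / (Real.log 2 / 2) < t := by
    rw [div_lt_iff₀ (by linarith)]
    nlinarith
  linarith

lemma cs_pos (κ : ℝ) (hκ : 0 < κ) (n : ℕ) : 0 < cs κ n := by
  induction n with
  | zero => exact hκ
  | succ n ih => exact cn_pos _ ih

variable {Ω : Type} [Field Ω] [CharZero Ω]

lemma bogS_mono {A : Subring Ω} {S : Subgroup Ωˣ} {κ κ' : ℝ} (h : BogS A S κ) (hle : κ' ≤ κ) :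
    BogS A S κ' := by
  obtain ⟨hA, h⟩ := h
  refine ⟨hA, fun a b ha hb hs => le_trans ?_ (h a b ha hb hs)⟩
  exact mul_le_mul_of_nonneg_right hle (Nat.cast_nonneg _)

/-- The order `ℤ[ζ, x_i : i ∈ T]`. -/
def ordT (ζ : Ω) {ι : Type} (x : ι → Ωˣ) (T : Finset ι) : Subring Ω :=
  Subring.closure ({ζ} ∪ {y | ∃ i ∈ T, y = (x i : Ω)})

lemma zeta_mem_ordT (ζ : Ω) {ι : Type} (x : ι → Ωˣ) (T : Finset ι) : ζ ∈ ordT ζ x T :=
  Subring.subset_closure (Or.inl rfl)

lemma x_mem_ordT (ζ : Ω) {ι : Type} (x : ι → Ωˣ) (T : Finset ι) (i : ι) (hi : i ∈ T) :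
    (x i : Ω) ∈ ordT ζ x T :=
  Subring.subset_closure (Or.inr ⟨i, hi, rfl⟩)

lemma base_le_ordT (ζ : Ω) {ι : Type} (x : ι → Ωˣ) (T : Finset ι) :
    Subring.closure {ζ} ≤ ordT ζ x T :=
  Subring.closure_mono Set.subset_union_left

lemma ordT_empty (ζ : Ω) {ι : Type} (x : ι → Ωˣ) : ordT ζ x (∅ : Finset ι) = Subring.closure {ζ} := by
  unfold ordT
  congr 1
  ext y
  simp

lemma ordT_insert (ζ : Ω) {ι : Type} [DecidableEq ι] (x : ι → Ωˣ) (T : Finset ι) (k : ι) :
    ordT ζ x (insert k T) = ordT ζ x T ⊔ Subring.closure {(x k : Ω)} := by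
  unfold ordT
  rw [← Subring.closure_union]
  congr 1
  ext y
  constructor
  · rintro (h | ⟨i, hi, rfl⟩)
    · exact Or.inl (Or.inl h)
    · rcases Finset.mem_insert.mp hi with rfl | hi
      · exact Or.inr rfl
      · exact Or.inl (Or.inr ⟨i, hi, rfl⟩)
  · rintro ((h | ⟨i, hi, rfl⟩) | h)
    · exact Or.inl h
    · exact Or.inr ⟨i, Finset.mem_insert_of_mem hi, rfl⟩
    · exact Or.inr ⟨k, Finset.mem_insert_self _ _, h⟩

theorem towerS [IsAlgClosed Ω] [Algebra.IsAlgebraic ℚ Ω] (N m : ℕ)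
    (hN : 1 ≤ N) (hm : 1 ≤ m) (hmN : m ∣ N) (ζ : Ω)
    (hζ : IsPrimitiveRoot ζ N) {ι : Type} [DecidableEq ι] (s : Finset ι) (p : ι → ℕ) (x : ι → Ωˣ)
    (hp : ∀ i ∈ s, (p i).Prime) (hinj : ∀ i ∈ s, ∀ j ∈ s, p i = p j → i = j)
    (hx : ∀ i ∈ s, (x i : Ω) ^ (2 * m) = (p i : Ω)) (hpN : ∀ i ∈ s, 8 * p i ∣ N)
    (T : Finset ι) (hT : T ⊆ s) :
    BogS (ordT ζ x T) (rootsIn (Subring.closure {ζ}) ⊔ ⨆ i ∈ T, Subgroup.zpowers (x i))
      (cs (Real.log (3 / 2) / 6) T.card) := by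
  have hκ0 : 0 < Real.log (3 / 2) / 6 := by
    have : 0 < Real.log (3 / 2) := Real.log_pos (by norm_num)
    positivity
  have hxm : ∀ i ∈ s, (x i : Ω) ^ m ∈ Subring.closure {ζ} := by
    intro i hi
    refine sqrt_mem N (p i) (hp i hi) hN (hpN i hi) ζ hζ _ ?_
    rw [← pow_mul, mul_comm m 2, hx i hi]
  induction T using Finset.induction_on with
  | empty =>
    rw [ordT_empty]
    have h2 : (rootsIn (Subring.closure {ζ}) ⊔ ⨆ i ∈ (∅ : Finset ι), Subgroup.zpowers (x i))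
        = rootsIn (Subring.closure {ζ}) := by simp
    rw [h2]
    exact base_bog N hN ζ hζ
  | insert k T hkT ih =>
    have hTs : T ⊆ s := fun i hi => hT (Finset.mem_insert_of_mem hi)
    have hks : k ∈ s := hT (Finset.mem_insert_self _ _)
    have ihB := ih hTs
    have hfin : Module.Finite ℤ (ordT ζ x T) := ihB.1
    have hroots : ∀ ξ ∈ rootsIn (Subring.closure {ζ}), (ξ : Ω) ∈ ordT ζ x T ∧
        ∃ n : ℕ, 1 ≤ n ∧ ξ ^ n = 1 := by
      intro ξ hξ
      exact ⟨base_le_ordT ζ x T hξ.1, hξ.2⟩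
    have hDen := denS_mono (ordT ζ x T) hfin T p (2 * m) (by omega) x
      (fun i hi => (hp i (hTs hi)).two_le) (fun i hi => hx i (hTs hi))
      (fun i hi => x_mem_ordT ζ x T i hi)
      (fun i hi j hj hij => (Nat.coprime_primes (hp i (hTs hi)) (hp j (hTs hj))).mpr
        (fun h => hij (hinj i (hTs hi) j (hTs hj) h)))
      (rootsIn (Subring.closure {ζ})) hroots
    have hbmem : (x k : Ω) ^ m ∈ ordT ζ x T := base_le_ordT ζ x T (hxm k hks)
    have hpk : (2 : ℝ) ≤ p k := by exact_mod_cast (hp k hks).two_le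
    have hB1 : 1 < Real.sqrt (p k) := by
      rw [Real.lt_sqrt (by norm_num)]
      linarith
    have hbB : ∀ τ : ordT ζ x T →+* ℂ, ‖τ ⟨(x k : Ω) ^ m, hbmem⟩‖ = Real.sqrt (p k) := by
      intro τ
      have h1 : (⟨(x k : Ω) ^ m, hbmem⟩ : ordT ζ x T) ^ 2 = ((p k : ℕ) : ordT ζ x T) := by
        apply Subtype.ext
        simp only [SubmonoidClass.mk_pow, Subring.coe_natCast]
        rw [← pow_mul, mul_comm m 2, hx k hks]
      have h2 : ‖τ ⟨(x k : Ω) ^ m, hbmem⟩‖ ^ 2 = (p k : ℝ) := by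
        rw [← norm_pow, ← map_pow, h1, map_natCast]
        simp
      rw [← h2, Real.sqrt_sq (norm_nonneg _)]
    have hstep := stepS (ordT ζ x T) (ordT ζ x (insert k T))
      (by rw [ordT_insert]; exact le_sup_left) (x k) m hm (ordT_insert ζ x T k)
      ⟨(x k : Ω) ^ m, hbmem⟩ rfl
      (fun c hc => indT N m hN hm hmN ζ hζ s p x hp hinj hx hxm T hTs k hks hkT _ rfl c hc)
      (Real.sqrt (p k)) hB1 hbB
      (rootsIn (Subring.closure {ζ}) ⊔ ⨆ i ∈ T, Subgroup.zpowers (x i)) _ 1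
      (cs_pos _ hκ0 T.card) zero_le_one ihB hDen
    have hS : (rootsIn (Subring.closure {ζ}) ⊔ ⨆ i ∈ insert k T, Subgroup.zpowers (x i))
        = (rootsIn (Subring.closure {ζ}) ⊔ ⨆ i ∈ T, Subgroup.zpowers (x i))
          ⊔ Subgroup.zpowers (x k) := by
      rw [Finset.iSup_insert, sup_assoc, sup_comm (⨆ i ∈ T, Subgroup.zpowers (x i))]
    rw [hS, Finset.card_insert_of_notMem hkT]
    apply bogS_mono hstep
    change cn (cs (Real.log (3 / 2) / 6) T.card) ≤ _
    unfold cn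
    have h22 : (2 : ℝ) + 2 * 1 = 4 := by norm_num
    rw [h22]
    have hl2 : 0 < Real.log 2 := Real.log_pos (by norm_num)
    have hlog : Real.log 2 / 2 ≤ Real.log (Real.sqrt (p k)) := by
      rw [Real.log_sqrt (by linarith)]
      have := Real.log_le_log (by norm_num) hpk
      linarith
    have h3 : min (cs (Real.log (3 / 2) / 6) T.card) (Real.log (5 / 4) / 4) ^ 2
          / Real.log (Real.sqrt (p k))
        ≤ min (cs (Real.log (3 / 2) / 6) T.card) (Real.log (5 / 4) / 4) ^ 2 / (Real.log 2 / 2) := by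
      apply div_le_div_of_nonneg_left (by positivity) (by positivity) hlog
    linarith

end Pool.Agent.H4.OH
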