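import Pool.Agent.H4.OH.TowerS

/-!
# The explicit constant (MP_187c26_nt, sums of radicals)
-/

set_option autoImplicit false

namespace Pool.Agent.H4.OH

lemma log_one_add_inv_ge (a : ℝ) (ha : 0 < a) : 2 / (2 * a + 1) ≤ Real.log (1 + a⁻¹) := by
  have h := Real.hasSum_log_one_add_inv ha
  have h1 := sum_le_hasSum (Finset.range 1) (fun k _ => by positivity) h
  simp only [Finset.range_one, Finset.sum_singleton, Nat.cast_zero, mul_zero, zero_add, pow_one] at h1
  have e : (2 : ℝ) * (1 / 1) * (1 / (2 * a + 1)) = 2 / (2 * a + 1) := by ring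
  rw [e] at h1
  exact h1

lemma log_five_four_ge : (2 : ℝ) / 9 ≤ Real.log (5 / 4) := by
  have h := log_one_add_inv_ge 4 (by norm_num)
  have e1 : (2 : ℝ) / (2 * 4 + 1) = 2 / 9 := by norm_num
  have e2 : (1 : ℝ) + 4⁻¹ = 5 / 4 := by norm_num
  rw [e1, e2] at h
  exact h

lemma log_three_two_ge : (2 : ℝ) / 5 ≤ Real.log (3 / 2) := by
  have h := log_one_add_inv_ge 2 (by norm_num)
  have e1 : (2 : ℝ) / (2 * 2 + 1) = 2 / 5 := by norm_num
  have e2 : (1 : ℝ) + 2⁻¹ = 3 / 2 := by norm_num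
  rw [e1, e2] at h
  exact h

lemma log_two_ge : (2 : ℝ) / 3 ≤ Real.log 2 := by
  have h := log_one_add_inv_ge 1 (by norm_num)
  have e1 : (2 : ℝ) / (2 * 1 + 1) = 2 / 3 := by norm_num
  have e2 : (1 : ℝ) + 1⁻¹ = 2 := by norm_num
  rw [e1, e2] at h
  exact h

lemma cn_ge (c x : ℝ) (hx : 18 ≤ x) (hc : 1 / x ≤ c) : 1 / (x + 4) ≤ cn c := by
  unfold cn
  have hx0 : 0 < x := by linarith
  have hlog := log_five_four_ge
  have hl2 := log_two_ge
  have hlt := log_five_four_lt
  have hl2' : Real.log 2 < 1 := by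
    have := Real.log_two_lt_d9
    linarith
  set L := Real.log 2 / 2 with hL
  set t := min c (Real.log (5 / 4) / 4) with ht
  have hL3 : 1 / 3 ≤ L := by rw [hL]; linarith
  have hL0 : 0 < L := by linarith
  have h1x : 1 / x ≤ 1 / 18 := by
    apply one_div_le_one_div_of_le (by norm_num) hx
  have ht1 : 1 / x ≤ t := by
    rw [ht]
    apply le_min hc
    linarith
  have ht2 : t ≤ Real.log (5 / 4) / 4 := min_le_right _ _
  have h1x0 : 0 < 1 / x := by positivity
  -- monotonicity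
  have hsum : t + 1 / x ≤ L := by
    have : Real.log (5 / 4) ≤ 1 := by linarith
    linarith
  have hmono : 1 / x - (1 / x) ^ 2 / L ≤ t - t ^ 2 / L := by
    have h3 : t - t ^ 2 / L - (1 / x - (1 / x) ^ 2 / L)
        = (t - 1 / x) * (L - (t + 1 / x)) / L := by
      field_simp
      ring
    have h4 : 0 ≤ (t - 1 / x) * (L - (t + 1 / x)) / L := by
      apply div_nonneg _ hL0.le
      exact mul_nonneg (by linarith) (by linarith)
    linarith
  refine le_trans ?_ hmono
  have h5 : (1 / x) ^ 2 / L ≤ 3 * (1 / x) ^ 2 := by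
    rw [div_le_iff₀ hL0]
    nlinarith [sq_nonneg (1 / x)]
  have h6 : 1 / (x + 4) ≤ 1 / x - 3 * (1 / x) ^ 2 := by
    rw [div_le_iff₀ (by linarith)]
    have e : (1 / x - 3 * (1 / x) ^ 2) * (x + 4) = 1 + (x - 12) / x ^ 2 := by
      field_simp
      ring
    rw [e]
    have : 0 ≤ (x - 12) / x ^ 2 := div_nonneg (by linarith) (by positivity)
    linarith
  linarith

/-- The constant after `r` steps is at least `1 / (4 r + 18)`. -/
theorem cs_ge (r : ℕ) : 1 / (4 * (r : ℝ) + 18) ≤ cs (Real.log (3 / 2) / 6) r := by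
  induction r with
  | zero =>
    change 1 / (4 * ((0 : ℕ) : ℝ) + 18) ≤ Real.log (3 / 2) / 6
    have := log_three_two_ge
    norm_num
    linarith
  | succ r ih =>
    have h := cn_ge (cs (Real.log (3 / 2) / 6) r) (4 * (r : ℝ) + 18) (by
      have : (0 : ℝ) ≤ r := Nat.cast_nonneg r
      linarith) ih
    have e : 4 * ((r + 1 : ℕ) : ℝ) + 18 = 4 * (r : ℝ) + 18 + 4 := by push_cast; ring
    rw [e]
    exact h

end Pool.Agent.H4.OH
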