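import Pool.Agent.H4.OH.IdxDet
import Pool.Agent.H4.RR.FamDet

/-!
# The two index inequalities (MP_187c26_nt, sums of radicals)

`R` is free over the order `A` with basis `1, x, ..., x^(m-1)`.
-/

set_option autoImplicit false
set_option linter.unusedSectionVars false

open Polynomial

namespace Pool.Agent.H4.OH

open Pool.Agent.H4.RR (fam famDet rho)

/-- One step of the filtration. -/
theorem relIndex_step {G G' : Type} [AddCommGroup G] [AddCommGroup G'] (H V V' : AddSubgroup G)
    (φ : G →+ G') (J : AddSubgroup G') (hVV : V ≤ V') (hker : ∀ z ∈ V', φ z = 0 → z ∈ V)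
    (hJ : ∀ y ∈ J, ∃ z ∈ H, z ∈ V' ∧ φ z = y) (hJidx : J.index ≠ 0)
    (hne : H.relIndex V ≠ 0) :
    H.relIndex V' ≠ 0 ∧ H.relIndex V' ≤ H.relIndex V * J.index := by
  set K : AddSubgroup G := J.comap φ with hK
  have h1 := AddSubgroup.relIndex_inf_mul_relIndex H K V'
  -- K relative to V'
  have h2 : K.relIndex V' ∣ J.index := by
    rw [hK, AddSubgroup.relIndex_comap]
    exact AddSubgroup.relIndex_dvd_index_of_normal _ _
  have h2' : K.relIndex V' ≠ 0 := by
    intro h0
    rw [h0, zero_dvd_iff] at h2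
    exact hJidx h2
  have h2'' : K.relIndex V' ≤ J.index := Nat.le_of_dvd (Nat.pos_of_ne_zero hJidx) h2
  -- H relative to K ⊓ V'
  have h3 : K ⊓ V' ≤ V ⊔ H := by
    intro z hz
    obtain ⟨z', hz'H, hz'V, hz'⟩ := hJ (φ z) hz.1
    have h4 : z - z' ∈ V := by
      apply hker
      · exact V'.sub_mem hz.2 hz'V
      · rw [map_sub, hz', sub_self]
    have h5 : z = (z - z') + z' := by abel
    rw [h5]
    exact AddSubgroup.add_mem_sup h4 hz'H
  have h4 : H.relIndex (V ⊔ H) = H.relIndex V := AddSubgroup.relIndex_sup_right _ _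
  have h5 : H.relIndex (V ⊔ H) ≠ 0 := by rw [h4]; exact hne
  have h6 : H.relIndex (K ⊓ V') ≤ H.relIndex V := by
    rw [← h4]
    exact AddSubgroup.relIndex_le_of_le_right h3 h5
  have h7 : H.relIndex (K ⊓ V') ≠ 0 := fun h0 => h5 (AddSubgroup.relIndex_eq_zero_of_le_right h3 h0)
  have h8 : (H ⊓ K).relIndex V' ≠ 0 := by
    rw [← h1]
    exact mul_ne_zero h7 h2'
  have h9 : H.relIndex V' ≤ (H ⊓ K).relIndex V' :=
    AddSubgroup.relIndex_le_of_le_left inf_le_left h8
  refine ⟨?_, ?_⟩
  · intro h0
    have h10 := AddSubgroup.relIndex_dvd_of_le_left V' (inf_le_left : H ⊓ K ≤ H)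
    rw [h0, zero_dvd_iff] at h10
    exact h8 h10
  · calc H.relIndex V' ≤ (H ⊓ K).relIndex V' := h9
      _ = H.relIndex (K ⊓ V') * K.relIndex V' := h1.symm
      _ ≤ H.relIndex V * J.index := Nat.mul_le_mul h6 h2''

section

variable (A R : Type) [CommRing A] [IsDomain A] [CharZero A] [Module.Finite ℤ A]
  [CommRing R] [Algebra A R]

/-- Coordinates of a polynomial in `x` of degree `< m`. -/
lemma repr_aeval (m : ℕ) (x : R) (bas : Module.Basis (Fin m) A R)
    (hbas : ∀ i, bas i = x ^ (i : ℕ)) (w : A[X]) (hw : w.natDegree < m) (i : Fin m) :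
    bas.repr (aeval x w) i = w.coeff i := by
  have h1 : aeval x w = ∑ i : Fin m, w.coeff i • bas i := by
    rw [aeval_eq_sum_range' hw, ← Fin.sum_univ_eq_sum_range (fun i => w.coeff i • x ^ i) m]
    exact Finset.sum_congr rfl (fun i _ => by rw [hbas])
  rw [h1]
  exact congrFun (bas.repr_sum_self (fun i : Fin m => w.coeff (i : ℕ))) i

lemma famDet_eq_det (m D n : ℕ) (hD : 2 * D ≤ m) (hn : n ≤ 2 * D) (x : R)
    (bas : Module.Basis (Fin m) A R) (hbas : ∀ i, bas i = x ^ (i : ℕ))
    (u v w : A[X]) (hu : u.natDegree ≤ D) (hv : v.natDegree ≤ D) (hw : w.natDegree ≤ n) :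
    famDet m D n u v w = bas.det (fun r : Fin m => aeval x (fam D n u v w (r : ℕ))) := by
  rw [Module.Basis.det_apply, famDet, ← Matrix.det_transpose]
  congr 1
  ext i r
  rw [Matrix.transpose_apply, Matrix.of_apply, Module.Basis.toMatrix_apply,
    repr_aeval A R m x bas hbas _
      (Pool.Agent.H4.RR.fam_natDegree_lt m D n hD hn u v w hu hv hw r r.2)]

lemma fam_mem (D n : ℕ) (x : R) (u v w : A[X]) (I : Ideal R) (hu : aeval x u ∈ I)
    (hv : aeval x v ∈ I) (hw : aeval x w ∈ I) (r : ℕ) : aeval x (fam D n u v w r) ∈ I := by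
  unfold fam
  split_ifs
  · rw [map_mul]; exact I.mul_mem_left _ hu
  · rw [map_mul]; exact I.mul_mem_left _ hv
  · rw [map_mul]; exact I.mul_mem_left _ hw

/-- Inequality (1): the index of the ideal `(u(x), v(x))` is at most the norm of
`rho * w_n^(m-2D)`. -/
theorem idx_le_one (m D n : ℕ) (hD : 2 * D ≤ m) (hn : n ≤ 2 * D) (x : R)
    (bas : Module.Basis (Fin m) A R) (hbas : ∀ i, bas i = x ^ (i : ℕ))
    (u v s t : A[X]) (hu : u.natDegree ≤ D) (hv : v.natDegree ≤ D)
    (hw : (s * u + t * v).natDegree ≤ n)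
    (h0 : rho D u v * ((s * u + t * v).coeff n) ^ (m - 2 * D) ≠ 0) :
    idx R (aeval x u) (aeval x v)
      ≤ (Algebra.norm ℤ (rho D u v * ((s * u + t * v).coeff n) ^ (m - 2 * D))).natAbs := by
  rw [← Pool.Agent.H4.RR.famDet_eq m D n hD hn u v _ hu hv hw,
    famDet_eq_det A R m D n hD hn x bas hbas u v _ hu hv hw] at h0 ⊢
  set 𝔞 : Ideal R := Ideal.span {aeval x u, aeval x v} with h𝔞
  have hUm : aeval x u ∈ 𝔞 := Ideal.subset_span (by simp)
  have hVm : aeval x v ∈ 𝔞 := Ideal.subset_span (by simp)
  exact (index_det A R m bas (𝔞.restrictScalars A) _ (fun r => by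
    change aeval x (fam D n u v (s * u + t * v) (r : ℕ)) ∈ 𝔞
    apply fam_mem A R D n x u v _ 𝔞 hUm hVm
    rw [map_add, map_mul, map_mul]
    exact 𝔞.add_mem (𝔞.mul_mem_left _ hUm) (𝔞.mul_mem_left _ hVm)) h0).2

/-- The subgroup of elements of degree `< r`. -/
def degLt (m : ℕ) (bas : Module.Basis (Fin m) A R) (r : ℕ) : AddSubgroup R where
  carrier := {z | ∀ i : Fin m, r ≤ (i : ℕ) → bas.repr z i = 0}
  zero_mem' := by intro i _; simp
  add_mem' := by
    intro a b ha hb i hi
    rw [map_add, Finsupp.add_apply, ha i hi, hb i hi, add_zero]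
  neg_mem' := by
    intro a ha i hi
    rw [map_neg, Finsupp.neg_apply, ha i hi, neg_zero]

lemma mem_degLt (m : ℕ) (bas : Module.Basis (Fin m) A R) (r : ℕ) (z : R) :
    z ∈ degLt A R m bas r ↔ ∀ i : Fin m, r ≤ (i : ℕ) → bas.repr z i = 0 := Iff.rfl

/-- Inequality (2): `[R : (u(x), v(x))] ≤ |N(rho)| * [A : (u_D, v_n)]^(m-2D)`. -/
theorem idx_le_two (m D n : ℕ) (hD : 2 * D ≤ m) (hnD : n ≤ D) (x : R)
    (bas : Module.Basis (Fin m) A R) (hbas : ∀ i, bas i = x ^ (i : ℕ))
    (u v : A[X]) (hu : u.natDegree ≤ D) (hv : v.natDegree ≤ n)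
    (hrho : rho D u v ≠ 0) (hlead : u.coeff D ≠ 0 ∨ v.coeff n ≠ 0) :
    idx R (aeval x u) (aeval x v)
      ≤ (Algebra.norm ℤ (rho D u v)).natAbs * (idx A (u.coeff D) (v.coeff n)) ^ (m - 2 * D) := by
  set 𝔞 : Ideal R := Ideal.span {aeval x u, aeval x v} with h𝔞
  have hUm : aeval x u ∈ 𝔞 := Ideal.subset_span (by simp)
  have hVm : aeval x v ∈ 𝔞 := Ideal.subset_span (by simp)
  set H : AddSubgroup R := Submodule.toAddSubgroup 𝔞 with hH
  have hmemH : ∀ z, z ∈ H ↔ z ∈ 𝔞 := fun z => Iff.rfl
  have hv' : v.natDegree ≤ D := hv.trans hnD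
  -- base of the filtration
  have hbase : H.relIndex (degLt A R m bas (2 * D)) ≠ 0 ∧
      H.relIndex (degLt A R m bas (2 * D)) ≤ (Algebra.norm ℤ (rho D u v)).natAbs := by
    let ψ : (Fin (2 * D) → A) →ₗ[A] R :=
      Fintype.linearCombination A (fun i : Fin (2 * D) => bas ⟨i, lt_of_lt_of_le i.2 hD⟩)
    have hψ : ∀ a : Fin (2 * D) → A, ψ a = ∑ i, a i • bas ⟨i, lt_of_lt_of_le i.2 hD⟩ :=
      fun a => rfl
    have hrange : (ψ.toAddMonoidHom : (Fin (2 * D) → A) →+ R).range = degLt A R m bas (2 * D) := by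
      ext z
      rw [mem_degLt]
      constructor
      · rintro ⟨a, rfl⟩ i hi
        change bas.repr (ψ a) i = 0
        rw [hψ, map_sum, Finsupp.finsetSum_apply]
        refine Finset.sum_eq_zero fun j _ => ?_
        rw [map_smul, bas.repr_self, Finsupp.smul_single, Finsupp.single_apply, if_neg]
        intro h
        have := congrArg Fin.val h
        simp only at this
        have := j.2
        omega
      · intro hz
        refine ⟨fun i => bas.repr z ⟨i, lt_of_lt_of_le i.2 hD⟩, ?_⟩
        change ψ _ = z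
        rw [hψ]
        conv_rhs => rw [← bas.sum_repr z]
        rw [← Finset.sum_subset (Finset.subset_univ
          (Finset.univ.map ⟨fun i : Fin (2 * D) => (⟨i, lt_of_lt_of_le i.2 hD⟩ : Fin m),
            fun i j h => Fin.ext (by simpa using congrArg Fin.val h)⟩))]
        · rw [Finset.sum_map]
          rfl
        · intro i _ hi
          rw [hz i, zero_smul]
          by_contra hlt
          push Not at hlt
          apply hi
          rw [Finset.mem_map]
          exact ⟨⟨i, hlt⟩, Finset.mem_univ _, rfl⟩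
    have hcomap := AddSubgroup.index_comap H (ψ.toAddMonoidHom : (Fin (2 * D) → A) →+ R)
    rw [hrange] at hcomap
    rw [← hcomap]
    have hdet : (Pi.basisFun A (Fin (2 * D))).det
        (fun r : Fin (2 * D) => fun i : Fin (2 * D) => (fam D 0 u v 0 (r : ℕ)).coeff (i : ℕ))
        = rho D u v := by
      rw [Module.Basis.det_apply, rho, ← Matrix.det_transpose]
      congr 1
    have h := index_det A (Fin (2 * D) → A) (2 * D) (Pi.basisFun A (Fin (2 * D)))
      ((𝔞.restrictScalars A).comap ψ)
      (fun r : Fin (2 * D) => fun i : Fin (2 * D) => (fam D 0 u v 0 (r : ℕ)).coeff (i : ℕ))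
      (by
        intro r
        rw [Submodule.mem_comap]
        have hdeg : (fam D 0 u v 0 (r : ℕ)).natDegree < 2 * D :=
          Pool.Agent.H4.RR.fam_natDegree_lt (2 * D) D 0 le_rfl (by omega) u v 0 hu hv'
            (by simp) r r.2
        have e : ψ (fun i : Fin (2 * D) => (fam D 0 u v 0 (r : ℕ)).coeff (i : ℕ))
            = aeval x (fam D 0 u v 0 (r : ℕ)) := by
          rw [hψ, aeval_eq_sum_range' hdeg,
            ← Fin.sum_univ_eq_sum_range (fun i => (fam D 0 u v 0 (r : ℕ)).coeff i • x ^ i) (2 * D)]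
          exact Finset.sum_congr rfl (fun i _ => by rw [hbas])
        rw [e]
        change aeval x (fam D 0 u v 0 (r : ℕ)) ∈ 𝔞
        exact fam_mem A R D 0 x u v 0 𝔞 hUm hVm (by simp) r)
      (by rw [hdet]; exact hrho)
    rw [hdet] at h
    exact h
  -- the steps
  set q := idx A (u.coeff D) (v.coeff n) with hq
  have hq0 : q ≠ 0 := idx_ne_zero A _ _ hlead
  have hstep : ∀ k : ℕ, 2 * D + k ≤ m →
      H.relIndex (degLt A R m bas (2 * D + k)) ≠ 0 ∧
      H.relIndex (degLt A R m bas (2 * D + k))
        ≤ (Algebra.norm ℤ (rho D u v)).natAbs * q ^ k := by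
    intro k
    induction k with
    | zero =>
      intro _
      simpa using hbase
    | succ k ih =>
      intro hk
      obtain ⟨ih1, ih2⟩ := ih (by omega)
      set r := 2 * D + k with hr
      have hrm : r < m := by omega
      have h := relIndex_step H (degLt A R m bas r) (degLt A R m bas (r + 1))
        ((bas.coord ⟨r, hrm⟩).toAddMonoidHom : R →+ A)
        (Submodule.toAddSubgroup (Ideal.span {u.coeff D, v.coeff n}))
        (by
          intro z hz i hi
          exact hz i (by omega))
        (by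
          intro z hz hz0 i hi
          rcases Nat.lt_or_ge r (i : ℕ) with h1 | h1
          · exact hz i h1
          · have : i = ⟨r, hrm⟩ := Fin.ext (by simp only; omega)
            rw [this]
            exact hz0)
        (by
          intro y hy
          obtain ⟨s, t, hst⟩ := Ideal.mem_span_pair.mp hy
          set p : A[X] := C s * (X ^ (r - D) * u) + C t * (X ^ (r - n) * v) with hp
          have hd1 : (C s * (X ^ (r - D) * u)).natDegree ≤ r := by
            refine (natDegree_C_mul_le _ _).trans (natDegree_mul_le.trans ?_)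
            have := natDegree_X_pow_le (R := A) (r - D)
            omega
          have hd2 : (C t * (X ^ (r - n) * v)).natDegree ≤ r := by
            refine (natDegree_C_mul_le _ _).trans (natDegree_mul_le.trans ?_)
            have := natDegree_X_pow_le (R := A) (r - n)
            omega
          have hpdeg : p.natDegree ≤ r := (natDegree_add_le _ _).trans (max_le hd1 hd2)
          have hpm : p.natDegree < m := by omega
          have hpr : p.coeff r = y := by
            rw [hp, coeff_add, coeff_C_mul, coeff_C_mul, ← hst]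
            have e1 : (X ^ (r - D) * u).coeff r = u.coeff D := by
              have : r = D + (r - D) := by omega
              conv_lhs => rw [this]
              rw [Nat.add_sub_cancel_left, mul_comm, coeff_mul_X_pow]
            have e2 : (X ^ (r - n) * v).coeff r = v.coeff n := by
              have : r = n + (r - n) := by omega
              conv_lhs => rw [this]
              rw [Nat.add_sub_cancel_left, mul_comm, coeff_mul_X_pow]
            rw [e1, e2]
          refine ⟨aeval x p, ?_, ?_, ?_⟩
          · rw [hmemH, hp, map_add, map_mul, map_mul, map_mul, map_mul]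
            exact 𝔞.add_mem (𝔞.mul_mem_left _ (𝔞.mul_mem_left _ hUm))
              (𝔞.mul_mem_left _ (𝔞.mul_mem_left _ hVm))
          · intro i hi
            rw [repr_aeval A R m x bas hbas p hpm]
            exact coeff_eq_zero_of_natDegree_lt (by omega)
          · change bas.repr (aeval x p) ⟨r, hrm⟩ = y
            rw [repr_aeval A R m x bas hbas p hpm]
            exact hpr)
        hq0 ih1
      refine ⟨h.1, h.2.trans ?_⟩
      rw [pow_succ, ← mul_assoc]
      exact Nat.mul_le_mul_right _ ih2
  have hfin := (hstep (m - 2 * D) (by omega)).2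
  have e : 2 * D + (m - 2 * D) = m := by omega
  rw [e] at hfin
  have htop : degLt A R m bas m = ⊤ := by
    rw [eq_top_iff]
    intro z _ i hi
    have := i.2
    omega
  rw [htop, AddSubgroup.relIndex_top_right] at hfin
  exact hfin

end

end Pool.Agent.H4.OH
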