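import Pool.Agent.H4.OH.Node
import Pool.Agent.H4.OH.IdxIneq
import Pool.Agent.H4.RR.Core

/-!
# Core inequality for orders (MP_187c26_nt, sums of radicals)
-/

set_option autoImplicit false
set_option linter.unusedSectionVars false

open Polynomial

namespace Pool.Agent.H4.OH

open Pool.Agent.H4.RR (fam famDet rho le_of_sq_le_sq' mean_gt)

section

variable {A : Type} [CommRing A] [IsDomain A] [CharZero A] [Module.Finite ℤ A]

/-- The weights `max (|u(x_j)|, |v(x_j)|)`. -/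
noncomputable def wt (m : ℕ) (c : (A →+* ℂ) → ℂ) (u v : A[X]) (τ : A →+* ℂ) (j : Fin m) : ℝ :=
  max ‖(u.map τ).eval (node m (c τ) j)‖ ‖(v.map τ).eval (node m (c τ) j)‖

lemma cmap_natDegree_le (τ : A →+* ℂ) (w : A[X]) : (w.map τ).natDegree ≤ w.natDegree :=
  natDegree_map_le

lemma cmap_rho (τ : A →+* ℂ) (D : ℕ) (u v : A[X]) :
    rho D (u.map τ) (v.map τ) = τ (rho D u v) :=
  (Pool.Agent.H4.RR.rho_map τ D u v).symm

variable (m D : ℕ) (c : (A →+* ℂ) → ℂ) (β : ℝ) (u v : A[X])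

/-- (I_w) for an embedding. -/
lemma Iw_tau (hβ : 1 ≤ β) (hc : ∀ τ, ‖c τ‖ = β) (hm : 1 ≤ m) (hD : 2 * D ≤ m)
    (hu : u.natDegree ≤ D) (hv : v.natDegree ≤ D)
    (hpos : ∀ (τ : A →+* ℂ) (j : Fin m), 0 < wt m c u v τ j)
    (w : A[X]) (n : ℕ) (hw : w.natDegree ≤ n) (hn : n ≤ 2 * D) (τ : A →+* ℂ) :
    ‖τ (rho D u v * (w.coeff n) ^ (m - 2 * D))‖ ^ 2
        * β ^ (2 * (D ^ 2 + n * (m - 2 * D)))
      ≤ (∏ j, wt m c u v τ j) ^ 2 * (nsq m (c τ) (wt m c u v τ) (w.map τ)) ^ (m - 2 * D) := by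
  have hc0 : c τ ≠ 0 := by
    rw [← norm_pos_iff, hc τ]
    linarith
  have h := Iw m D n (c τ) hc0 hm hD hn (u.map τ) (v.map τ) (w.map τ)
    ((cmap_natDegree_le τ u).trans hu) ((cmap_natDegree_le τ v).trans hv)
    ((cmap_natDegree_le τ w).trans hw) (wt m c u v τ) (hpos τ)
    (fun j => le_max_left _ _) (fun j => le_max_right _ _)
  rw [cmap_rho, coeff_map, hc τ] at h
  rw [← Finset.prod_pow]
  refine le_trans (le_of_eq ?_) h
  rw [map_mul, map_pow, norm_mul, norm_pow]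
  ring

/-- Product of (I_w) over the embeddings. -/
lemma prod_Iw (hβ : 1 ≤ β) (hc : ∀ τ, ‖c τ‖ = β) (hm : 1 ≤ m) (hD : 2 * D ≤ m)
    (hu : u.natDegree ≤ D) (hv : v.natDegree ≤ D)
    (hpos : ∀ (τ : A →+* ℂ) (j : Fin m), 0 < wt m c u v τ j)
    (w : A[X]) (n : ℕ) (hw : w.natDegree ≤ n) (hn : n ≤ 2 * D) :
    (∏ τ : A →+* ℂ, ‖τ (rho D u v * (w.coeff n) ^ (m - 2 * D))‖) ^ 2
        * (β ^ (2 * (D ^ 2 + n * (m - 2 * D)))) ^ (Fintype.card (A →+* ℂ))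
      ≤ (∏ τ : A →+* ℂ, ∏ j, wt m c u v τ j) ^ 2
        * ∏ τ : A →+* ℂ, (nsq m (c τ) (wt m c u v τ) (w.map τ)) ^ (m - 2 * D) := by
  have h : ∏ τ : A →+* ℂ, (‖τ (rho D u v * (w.coeff n) ^ (m - 2 * D))‖ ^ 2
        * β ^ (2 * (D ^ 2 + n * (m - 2 * D))))
      ≤ ∏ τ : A →+* ℂ, ((∏ j, wt m c u v τ j) ^ 2
        * (nsq m (c τ) (wt m c u v τ) (w.map τ)) ^ (m - 2 * D)) := by
    apply Finset.prod_le_prod
    · intro τ _
      positivity
    · intro τ _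
      exact Iw_tau m D c β u v hβ hc hm hD hu hv hpos w n hw hn τ
  rw [Finset.prod_mul_distrib, Finset.prod_mul_distrib, Finset.prod_pow, Finset.prod_const,
    Finset.prod_pow, Finset.card_univ] at h
  exact h

lemma nsq_u_le (hpos : ∀ (τ : A →+* ℂ) (j : Fin m), 0 < wt m c u v τ j) (τ : A →+* ℂ) :
    nsq m (c τ) (wt m c u v τ) (u.map τ) ≤ 1 :=
  nsq_le_one m _ _ (hpos τ) _ (fun _ => le_max_left _ _)

lemma nsq_v_le (hpos : ∀ (τ : A →+* ℂ) (j : Fin m), 0 < wt m c u v τ j) (τ : A →+* ℂ) :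
    nsq m (c τ) (wt m c u v τ) (v.map τ) ≤ 1 :=
  nsq_le_one m _ _ (hpos τ) _ (fun _ => le_max_right _ _)

lemma tau_le (hβ : 1 ≤ β) (hc : ∀ τ, ‖c τ‖ = β) (hm : 1 ≤ m) (hD : 2 * D ≤ m)
    (hu : u.natDegree ≤ D) (hv : v.natDegree ≤ D)
    (hpos : ∀ (τ : A →+* ℂ) (j : Fin m), 0 < wt m c u v τ j)
    (w : A[X]) (n : ℕ) (hw : w.natDegree ≤ n) (hn : n ≤ 2 * D) (τ : A →+* ℂ)
    (hns : nsq m (c τ) (wt m c u v τ) (w.map τ) ≤ 1) :
    ‖τ (rho D u v * (w.coeff n) ^ (m - 2 * D))‖ * β ^ (D ^ 2)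
      ≤ ∏ j, wt m c u v τ j := by
  have h := Iw_tau m D c β u v hβ hc hm hD hu hv hpos w n hw hn τ
  have hP : 0 ≤ ∏ j, wt m c u v τ j := Finset.prod_nonneg (fun j _ => (hpos τ j).le)
  have h1 : (nsq m (c τ) (wt m c u v τ) (w.map τ)) ^ (m - 2 * D) ≤ 1 :=
    pow_le_one₀ (nsq_nonneg _ _ _ _) hns
  have h2 : (‖τ (rho D u v * (w.coeff n) ^ (m - 2 * D))‖ * β ^ (D ^ 2)) ^ 2
      ≤ (∏ j, wt m c u v τ j) ^ 2 := by
    calc (‖τ (rho D u v * (w.coeff n) ^ (m - 2 * D))‖ * β ^ (D ^ 2)) ^ 2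
        = ‖τ (rho D u v * (w.coeff n) ^ (m - 2 * D))‖ ^ 2
            * β ^ (2 * D ^ 2) := by ring
      _ ≤ ‖τ (rho D u v * (w.coeff n) ^ (m - 2 * D))‖ ^ 2
            * β ^ (2 * (D ^ 2 + n * (m - 2 * D))) := by
          apply mul_le_mul_of_nonneg_left _ (by positivity)
          apply pow_le_pow_right₀ hβ
          nlinarith [Nat.zero_le (n * (m - 2 * D))]
      _ ≤ (∏ j, wt m c u v τ j) ^ 2
            * (nsq m (c τ) (wt m c u v τ) (w.map τ)) ^ (m - 2 * D) := h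
      _ ≤ (∏ j, wt m c u v τ j) ^ 2 * 1 := by
          apply mul_le_mul_of_nonneg_left h1 (by positivity)
      _ = (∏ j, wt m c u v τ j) ^ 2 := mul_one _
  exact le_of_sq_le_sq' h2 hP

/-- The order height of the pair of leading coefficients. -/
lemma ratio_le (hβ : 1 ≤ β) (hc : ∀ τ, ‖c τ‖ = β) (hm : 1 ≤ m) (hD : 2 * D ≤ m)
    (hu : u.natDegree = D) (hu0 : u ≠ 0)
    (hv : v.natDegree ≤ D) (hv0 : v ≠ 0) (hrho : rho D u v ≠ 0)
    (hpos : ∀ (τ : A →+* ℂ) (j : Fin m), 0 < wt m c u v τ j)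
    (I : ℕ) (hI : 0 < I) (H : ℝ)
    (hH : (I : ℝ) * H = ∏ τ : A →+* ℂ, ∏ j, wt m c u v τ j)
    (h2 : I ≤ (Algebra.norm ℤ (rho D u v)).natAbs
      * (idx A (u.coeff D) (v.coeff v.natDegree)) ^ (m - 2 * D)) :
    OHt A (u.coeff D) (v.coeff v.natDegree) ^ (m - 2 * D)
      * (β ^ (D ^ 2)) ^ (Fintype.card (A →+* ℂ)) ≤ H := by
  obtain ⟨k, hk⟩ : ∃ k, k = m - 2 * D := ⟨_, rfl⟩
  rw [← hk] at h2 ⊢
  set a : A := u.coeff D with ha
  set d : A := v.coeff v.natDegree with hd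
  have ha0 : a ≠ 0 := by
    rw [ha, ← hu, coeff_natDegree]; exact leadingCoeff_ne_zero.mpr hu0
  have hd0 : d ≠ 0 := by
    rw [hd, coeff_natDegree]; exact leadingCoeff_ne_zero.mpr hv0
  set N := Fintype.card (A →+* ℂ) with hN
  have hβ0 : 0 < β := by linarith
  -- archimedean bound
  have h3 : ∀ τ : A →+* ℂ, ‖τ (rho D u v)‖ * (max ‖τ a‖ ‖τ d‖) ^ k * β ^ (D ^ 2)
      ≤ ∏ j, wt m c u v τ j := by
    intro τ
    have e : (max ‖τ a‖ ‖τ d‖) ^ k = max (‖τ a‖ ^ k) (‖τ d‖ ^ k) := by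
      rcases le_total ‖τ a‖ ‖τ d‖ with h | h
      · rw [max_eq_right h, max_eq_right (pow_le_pow_left₀ (norm_nonneg _) h k)]
      · rw [max_eq_left h, max_eq_left (pow_le_pow_left₀ (norm_nonneg _) h k)]
    rw [e, mul_max_of_nonneg _ _ (norm_nonneg _), max_mul_of_nonneg _ _ (by positivity)]
    apply max_le
    · have := tau_le m D c β u v hβ hc hm hD hu.le hv hpos u D hu.le (by omega) τ
        (nsq_u_le m c u v hpos τ)
      rw [← hk, map_mul, map_pow, norm_mul, norm_pow] at this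
      exact this
    · have := tau_le m D c β u v hβ hc hm hD hu.le hv hpos v v.natDegree le_rfl (by omega) τ
        (nsq_v_le m c u v hpos τ)
      rw [← hk, map_mul, map_pow, norm_mul, norm_pow] at this
      exact this
  have h4 : ((Algebra.norm ℤ (rho D u v)).natAbs : ℝ)
      * (∏ τ : A →+* ℂ, max ‖τ a‖ ‖τ d‖) ^ k * (β ^ (D ^ 2)) ^ N
      ≤ ∏ τ : A →+* ℂ, ∏ j, wt m c u v τ j := by
    have : ∏ τ : A →+* ℂ, (‖τ (rho D u v)‖ * (max ‖τ a‖ ‖τ d‖) ^ k * β ^ (D ^ 2))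
        ≤ ∏ τ : A →+* ℂ, ∏ j, wt m c u v τ j := by
      apply Finset.prod_le_prod
      · intro τ _
        positivity
      · intro τ _
        exact h3 τ
    rw [Finset.prod_mul_distrib, Finset.prod_mul_distrib, Finset.prod_const, Finset.card_univ,
      ← hN, Finset.prod_pow, ← norm_eq] at this
    exact this
  -- divide by the index
  have hIR : (0 : ℝ) < I := by exact_mod_cast hI
  set ix := idx A a d with hix
  have hix0 : (0 : ℝ) < ix := by exact_mod_cast Nat.pos_of_ne_zero (idx_ne_zero A a d (Or.inl ha0))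
  have h2R : (I : ℝ) ≤ ((Algebra.norm ℤ (rho D u v)).natAbs : ℝ) * (ix : ℝ) ^ k := by
    exact_mod_cast h2
  set P := ∏ τ : A →+* ℂ, max ‖τ a‖ ‖τ d‖ with hP
  have hP0 : 0 < P := prod_max_pos A a d (Or.inl ha0)
  have hOH : OHt A a d = P / ix := rfl
  rw [hOH, div_pow]
  have h5 : (I : ℝ) * (P ^ k / (ix : ℝ) ^ k * (β ^ (D ^ 2)) ^ N) ≤ I * H := by
    rw [hH]
    refine le_trans ?_ h4
    have h6 : P ^ k / (ix : ℝ) ^ k * (β ^ (D ^ 2)) ^ N
        = (P ^ k * (β ^ (D ^ 2)) ^ N) / (ix : ℝ) ^ k := by ring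
    rw [h6, ← mul_div_assoc, div_le_iff₀ (by positivity)]
    calc (I : ℝ) * (P ^ k * (β ^ (D ^ 2)) ^ N)
        ≤ (((Algebra.norm ℤ (rho D u v)).natAbs : ℝ) * (ix : ℝ) ^ k)
          * (P ^ k * (β ^ (D ^ 2)) ^ N) := by
          apply mul_le_mul_of_nonneg_right h2R (by positivity)
      _ = ((Algebra.norm ℤ (rho D u v)).natAbs : ℝ) * P ^ k * (β ^ (D ^ 2)) ^ N
          * (ix : ℝ) ^ k := by ring
  exact le_of_mul_le_mul_left h5 hIR

/-- From a lower bound of the product of conjugates to a lower bound of the product of `nsq`. -/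
lemma J_gen (hβ : 1 ≤ β) (hc : ∀ τ, ‖c τ‖ = β) (hm : 1 ≤ m) (hD : 2 * D ≤ m)
    (hu : u.natDegree ≤ D) (hv : v.natDegree ≤ D)
    (hpos : ∀ (τ : A →+* ℂ) (j : Fin m), 0 < wt m c u v τ j)
    (I : ℕ) (hI : 0 < I) (H : ℝ)
    (hH : (I : ℝ) * H = ∏ τ : A →+* ℂ, ∏ j, wt m c u v τ j)
    (w : A[X]) (n : ℕ) (hw : w.natDegree ≤ n) (hn : n ≤ 2 * D) (q : ℝ) (hq : 0 ≤ q)
    (hlow : q * (I : ℝ)
      ≤ ∏ τ : A →+* ℂ, ‖τ (rho D u v * (w.coeff n) ^ (m - 2 * D))‖) :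
    q ^ 2 * (β ^ (2 * (D ^ 2 + n * (m - 2 * D)))) ^ (Fintype.card (A →+* ℂ))
      ≤ H ^ 2 * ∏ τ : A →+* ℂ, (nsq m (c τ) (wt m c u v τ) (w.map τ)) ^ (m - 2 * D) := by
  have h := prod_Iw m D c β u v hβ hc hm hD hu hv hpos w n hw hn
  have hIR : (0 : ℝ) < I := by exact_mod_cast hI
  rw [← hH] at h
  have hβ0 : 0 < β := by linarith
  have h1 : (q * (I : ℝ)) ^ 2 * (β ^ (2 * (D ^ 2 + n * (m - 2 * D)))) ^ (Fintype.card (A →+* ℂ))
      ≤ ((I : ℝ) * H) ^ 2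
        * ∏ τ : A →+* ℂ, (nsq m (c τ) (wt m c u v τ) (w.map τ)) ^ (m - 2 * D) := by
    refine le_trans ?_ h
    apply mul_le_mul_of_nonneg_right _ (by positivity)
    exact pow_le_pow_left₀ (by positivity) hlow 2
  have h2 : (I : ℝ) ^ 2 * (q ^ 2
        * (β ^ (2 * (D ^ 2 + n * (m - 2 * D)))) ^ (Fintype.card (A →+* ℂ)))
      ≤ (I : ℝ) ^ 2 * (H ^ 2
        * ∏ τ : A →+* ℂ, (nsq m (c τ) (wt m c u v τ) (w.map τ)) ^ (m - 2 * D)) := by
    calc _ = (q * (I : ℝ)) ^ 2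
          * (β ^ (2 * (D ^ 2 + n * (m - 2 * D)))) ^ (Fintype.card (A →+* ℂ)) := by ring
      _ ≤ _ := h1
      _ = _ := by ring
  exact le_of_mul_le_mul_left h2 (by positivity)

/-- Parallelogram law, numerical part. -/
lemma parallelogram_aux (a d : ℂ) (q W x : ℝ) (hq : 0 ≤ q) (hW : 0 < W) (hx : 0 ≤ x)
    (hna : ‖a‖ ≤ q * W) (hnd : ‖d‖ ≤ q * x * W) :
    ‖a - d‖ ^ 2 / W ^ 2 + ‖a + d‖ ^ 2 / W ^ 2 ≤ 2 * q ^ 2 * (1 + x ^ 2) := by
  rw [← add_div, div_le_iff₀ (by positivity)]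
  have par : ‖a - d‖ ^ 2 + ‖a + d‖ ^ 2 = 2 * (‖a‖ ^ 2 + ‖d‖ ^ 2) := by
    have := parallelogram_law_with_norm ℝ a d
    nlinarith [this]
  rw [par]
  have h1 : ‖a‖ ^ 2 ≤ (q * W) ^ 2 := pow_le_pow_left₀ (norm_nonneg _) hna 2
  have h2 : ‖d‖ ^ 2 ≤ (q * x * W) ^ 2 := pow_le_pow_left₀ (norm_nonneg _) hnd 2
  calc 2 * (‖a‖ ^ 2 + ‖d‖ ^ 2) ≤ 2 * ((q * W) ^ 2 + (q * x * W) ^ 2) := by
        linarith
    _ = 2 * q ^ 2 * (1 + x ^ 2) * W ^ 2 := by ring

/-- Mean of a family of numbers bounded by a constant. -/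
lemma mean_le_aux (m : ℕ) (hm : 1 ≤ m) (f g : Fin m → ℝ) (B : ℝ) (h : ∀ j, f j + g j ≤ B) :
    (1 / (m : ℝ)) * ∑ j, f j + (1 / (m : ℝ)) * ∑ j, g j ≤ B := by
  have hm' : (0 : ℝ) < m := by exact_mod_cast hm
  rw [← mul_add, ← Finset.sum_add_distrib]
  calc (1 / (m : ℝ)) * ∑ j : Fin m, (f j + g j)
      ≤ (1 / (m : ℝ)) * ∑ _j : Fin m, B := by
        apply mul_le_mul_of_nonneg_left _ (by positivity)
        exact Finset.sum_le_sum (fun j _ => h j)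
    _ = B := by
        rw [Finset.sum_const, Finset.card_univ, Fintype.card_fin, nsmul_eq_mul]
        field_simp

/-- Parallelogram law. -/
lemma parallelogram (hβ : 1 ≤ β) (hc : ∀ τ, ‖c τ‖ = β) (hm : 1 ≤ m)
    (hpos : ∀ (τ : A →+* ℂ) (j : Fin m), 0 < wt m c u v τ j)
    (g1 g2 : A) (e : ℕ) (heD : e ≤ D)
    (τ : A →+* ℂ) (q : ℝ) (hq : 0 ≤ q) (hg1 : ‖τ g1‖ ≤ q) (hg2 : ‖τ g2‖ ≤ q) :
    nsq m (c τ) (wt m c u v τ) ((C g2 * u - C g1 * X ^ e * v).map τ)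
      + nsq m (c τ) (wt m c u v τ) ((C g2 * u + C g1 * X ^ e * v).map τ)
      ≤ 2 * q ^ 2 * (1 + β ^ (2 * D)) := by
  have hβ0 : 0 < β := by linarith
  unfold nsq
  refine mean_le_aux m hm _ _ _ (fun j => ?_)
  have e1 : ((C g2 * u - C g1 * X ^ e * v).map τ).eval (node m (c τ) j)
      = τ g2 * (u.map τ).eval (node m (c τ) j)
        - τ g1 * node m (c τ) j ^ e * (v.map τ).eval (node m (c τ) j) := by
    simp only [Polynomial.map_sub, Polynomial.map_mul, Polynomial.map_C,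
      Polynomial.map_pow, Polynomial.map_X, eval_sub, eval_mul, eval_C, eval_pow, eval_X]
  have e2 : ((C g2 * u + C g1 * X ^ e * v).map τ).eval (node m (c τ) j)
      = τ g2 * (u.map τ).eval (node m (c τ) j)
        + τ g1 * node m (c τ) j ^ e * (v.map τ).eval (node m (c τ) j) := by
    simp only [Polynomial.map_add, Polynomial.map_mul, Polynomial.map_C,
      Polynomial.map_pow, Polynomial.map_X, eval_add, eval_mul, eval_C, eval_pow, eval_X]
  rw [e1, e2]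
  have hW : 0 < wt m c u v τ j := hpos τ j
  have hu' : ‖(u.map τ).eval (node m (c τ) j)‖ ≤ wt m c u v τ j := le_max_left _ _
  have hv' : ‖(v.map τ).eval (node m (c τ) j)‖ ≤ wt m c u v τ j := le_max_right _ _
  have hnode : ‖node m (c τ) j‖ = β := by rw [norm_node, hc τ]
  generalize (u.map τ).eval (node m (c τ) j) = U at hu' ⊢
  generalize (v.map τ).eval (node m (c τ) j) = V at hv' ⊢
  generalize node m (c τ) j = z at hnode ⊢
  generalize wt m c u v τ j = W at hW hu' hv' ⊢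
  have hna : ‖τ g2 * U‖ ≤ q * W := by
    rw [norm_mul]
    exact mul_le_mul hg2 hu' (norm_nonneg _) hq
  have hnd : ‖τ g1 * z ^ e * V‖ ≤ q * β ^ D * W := by
    rw [norm_mul, norm_mul, norm_pow, hnode]
    apply mul_le_mul _ hv' (norm_nonneg _) (by positivity)
    exact mul_le_mul hg1 (pow_le_pow_right₀ hβ heD) (by positivity) hq
  have h := parallelogram_aux (τ g2 * U) (τ g1 * z ^ e * V) q W (β ^ D) hq hW (by positivity)
    hna hnd
  have e3 : (β ^ D) ^ 2 = β ^ (2 * D) := by rw [← pow_mul, mul_comm]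
  rw [e3] at h
  exact h

theorem core (hβ : 1 < β) (hc : ∀ τ, ‖c τ‖ = β) (hm : 1 ≤ m) (hD : 2 * D ≤ m)
    (hu : u.natDegree = D) (hu0 : u ≠ 0)
    (hv : v.natDegree ≤ D) (hv0 : v ≠ 0) (hrho : rho D u v ≠ 0)
    (hpos : ∀ (τ : A →+* ℂ) (j : Fin m), 0 < wt m c u v τ j)
    (I : ℕ) (hI : 0 < I) (H : ℝ)
    (hH : (I : ℝ) * H = ∏ τ : A →+* ℂ, ∏ j, wt m c u v τ j)
    (h1 : ∀ (n : ℕ) (s t : A[X]), (s * u + t * v).natDegree ≤ n → n ≤ 2 * D →
      rho D u v * ((s * u + t * v).coeff n) ^ (m - 2 * D) ≠ 0 →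
      I ≤ (Algebra.norm ℤ (rho D u v * ((s * u + t * v).coeff n) ^ (m - 2 * D))).natAbs)
    (h2 : I ≤ (Algebra.norm ℤ (rho D u v)).natAbs
      * (idx A (u.coeff D) (v.coeff v.natDegree)) ^ (m - 2 * D))
    (G : Set (A × A)) (κ θ : ℝ) (hκ : 0 < κ) (hθ : 0 ≤ θ)
    (hBog : ∀ a b : A, a ≠ 0 → b ≠ 0 → (∀ g ∈ G, a * g.2 ≠ b * g.1) →
      κ * Fintype.card (A →+* ℂ) ≤ Real.log (OHt A a b))
    (hDen : ∀ g ∈ G, g.1 ≠ 0 ∧ g.2 ≠ 0 ∧ ∀ τ : A →+* ℂ,
        ‖τ g.1‖ ≤ Real.exp (θ * (Real.log (OHt A g.1 g.2) / Fintype.card (A →+* ℂ))) ∧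
        ‖τ g.2‖ ≤ Real.exp (θ * (Real.log (OHt A g.1 g.2) / Fintype.card (A →+* ℂ))))
    (hne : ∀ g ∈ G, ∀ e : ℕ, C g.2 * u ≠ C g.1 * X ^ e * v) :
    (Fintype.card (A →+* ℂ) : ℝ) * ((D : ℝ) ^ 2 * Real.log β
      + ((m : ℝ) - 2 * D) * min κ (Real.log (5 / 4) / (2 + 2 * θ))) ≤ Real.log H := by
  classical
  have hβ1 : 1 ≤ β := hβ.le
  have hβ0 : 0 < β := by linarith
  set N := Fintype.card (A →+* ℂ) with hNdef
  have hN1 : 1 ≤ N := card_hom_pos A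
  have hNpos : (0 : ℝ) < N := by exact_mod_cast hN1
  have : Nonempty (A →+* ℂ) := Fintype.card_pos_iff.mp hN1
  set κ' := min κ (Real.log (5 / 4) / (2 + 2 * θ)) with hκ'
  obtain ⟨k, hk⟩ : ∃ k, k = m - 2 * D := ⟨_, rfl⟩
  have hkR : (k : ℝ) = (m : ℝ) - 2 * D := by
    rw [hk, Nat.cast_sub hD]; push_cast; ring
  rw [← hkR]
  have hmR : (0 : ℝ) < m := by exact_mod_cast hm
  set L := Real.log β with hL
  have hLpos : 0 < L := Real.log_pos hβ
  have hIR : (0 : ℝ) < I := by exact_mod_cast hI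
  have hPpos : 0 < ∏ τ : A →+* ℂ, ∏ j, wt m c u v τ j :=
    Finset.prod_pos (fun τ _ => Finset.prod_pos (fun j _ => hpos τ j))
  have hHpos : 0 < H := by
    rw [← hH] at hPpos
    exact pos_of_mul_pos_right hPpos hIR.le
  by_contra hcon
  push Not at hcon
  have hul : u.coeff D ≠ 0 := by
    rw [← hu, coeff_natDegree]; exact leadingCoeff_ne_zero.mpr hu0
  have hvl : v.coeff v.natDegree ≠ 0 := by
    rw [coeff_natDegree]; exact leadingCoeff_ne_zero.mpr hv0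
  -- the ratio of the leading coefficients
  have hr := ratio_le m D c β u v hβ1 hc hm hD hu hu0 hv hv0 hrho hpos I hI H hH h2
  rw [← hk, ← hNdef] at hr
  set R := OHt A (u.coeff D) (v.coeff v.natDegree) with hR
  have hRpos : 0 < R := OHt_pos A _ _ (Or.inl hul)
  have hlogr : (k : ℝ) * Real.log R + N * (D ^ 2 * L) ≤ Real.log H := by
    have := Real.log_le_log (by positivity) hr
    rw [Real.log_mul (by positivity) (by positivity), Real.log_pow, Real.log_pow,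
      Real.log_pow, ← hL] at this
    push_cast at this
    linarith
  have hkR1 : (k : ℝ) * Real.log R < k * (N * κ') := by nlinarith
  rcases Nat.eq_zero_or_pos k with hk0 | hkpos
  · rw [hk0] at hkR1
    simp at hkR1
  have hkposR : (0 : ℝ) < k := by exact_mod_cast hkpos
  have hlogR : Real.log R < N * κ' := lt_of_mul_lt_mul_left hkR1 hkposR.le
  have hex : ∃ g ∈ G, u.coeff D * g.2 = v.coeff v.natDegree * g.1 := by
    by_contra hnS
    push Not at hnS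
    have h3 := hBog (u.coeff D) (v.coeff v.natDegree) hul hvl hnS
    rw [← hR] at h3
    have h4 : κ' ≤ κ := min_le_left _ _
    have h5 : (N : ℝ) * κ' ≤ N * κ := by gcongr
    linarith
  obtain ⟨g, hgG, hgrel⟩ := hex
  obtain ⟨hg1, hg2, hgτ⟩ := hDen g hgG
  set g1 := g.1 with hg1def
  set g2 := g.2 with hg2def
  have hRg : OHt A g1 g2 = R := by
    rw [hR]
    refine (OHt_congr A _ _ _ _ hul hg1 ?_).symm
    exact hgrel
  have hκ'θ : (2 + 2 * θ) * κ' ≤ Real.log (5 / 4) := by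
    have h3 : κ' ≤ Real.log (5 / 4) / (2 + 2 * θ) := min_le_right _ _
    have h4 : (0 : ℝ) < 2 + 2 * θ := by linarith
    rw [le_div_iff₀ h4] at h3
    linarith
  set q := Real.exp (θ * κ') with hq
  have hqpos : 0 < q := Real.exp_pos _
  have hqle : Real.exp (θ * (Real.log (OHt A g1 g2) / (N : ℝ))) ≤ q := by
    apply Real.exp_le_exp.mpr
    apply mul_le_mul_of_nonneg_left _ hθ
    rw [hRg, div_le_iff₀ hNpos]
    linarith
  have hg1τ : ∀ τ : A →+* ℂ, ‖τ g1‖ ≤ q := fun τ => (hgτ τ).1.trans hqle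
  have hg2τ : ∀ τ : A →+* ℂ, ‖τ g2‖ ≤ q := fun τ => (hgτ τ).2.trans hqle
  have hrel : u.coeff D * g2 = g1 * v.coeff v.natDegree := by
    rw [hgrel, mul_comm]
  set n := v.natDegree with hn
  obtain ⟨e, he⟩ : ∃ e, D = n + e := ⟨D - n, by omega⟩
  set w : A[X] := C g2 * u - C g1 * X ^ e * v with hw
  set wp : A[X] := C g2 * u + C g1 * X ^ e * v with hwp
  have hw0 : w ≠ 0 := sub_ne_zero.mpr (hne g hgG e)
  have hdeg1 : (C g2 * u).natDegree ≤ D := by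
    refine (natDegree_C_mul_le _ _).trans hu.le
  have hdeg2 : (C g1 * X ^ e * v).natDegree ≤ D := by
    rw [mul_assoc]
    refine (natDegree_C_mul_le _ _).trans (natDegree_mul_le.trans ?_)
    have := natDegree_X_pow_le (R := A) e
    omega
  have hwdeg : w.natDegree ≤ D := (natDegree_sub_le _ _).trans (max_le hdeg1 hdeg2)
  have hwpdeg : wp.natDegree ≤ D := (natDegree_add_le _ _).trans (max_le hdeg1 hdeg2)
  have hwpc : wp.coeff D = 2 * g2 * u.coeff D := by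
    rw [hwp, coeff_add, coeff_C_mul, mul_assoc, coeff_C_mul]
    have : (X ^ e * v).coeff D = v.coeff n := by
      rw [he, coeff_X_pow_mul]
    rw [this, ← hrel]
    ring
  -- J for w
  have hwne : rho D u v * (w.coeff w.natDegree) ^ (m - 2 * D) ≠ 0 := by
    apply mul_ne_zero hrho (pow_ne_zero _ _)
    rw [coeff_natDegree]; exact leadingCoeff_ne_zero.mpr hw0
  have hwst : w = C g2 * u + (-(C g1 * X ^ e)) * v := by rw [hw]; ring
  have hwlow : (1 : ℝ) * (I : ℝ)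
      ≤ ∏ τ : A →+* ℂ, ‖τ (rho D u v * (w.coeff w.natDegree) ^ (m - 2 * D))‖ := by
    rw [← norm_eq, one_mul]
    have h3 := h1 w.natDegree (C g2) (-(C g1 * X ^ e)) (by rw [← hwst]) (by omega)
      (by rw [← hwst]; exact hwne)
    rw [← hwst] at h3
    exact_mod_cast h3
  have hJw := J_gen m D c β u v hβ1 hc hm hD hu.le hv hpos I hI H hH w w.natDegree le_rfl
    (by omega) 1 zero_le_one hwlow
  -- J for wp
  have hune : rho D u v * (u.coeff D) ^ (m - 2 * D) ≠ 0 := mul_ne_zero hrho (pow_ne_zero _ hul)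
  have hulow : (I : ℝ) ≤ ∏ τ : A →+* ℂ, ‖τ (rho D u v * (u.coeff D) ^ (m - 2 * D))‖ := by
    rw [← norm_eq]
    have hust : u = 1 * u + 0 * v := by ring
    have h3 := h1 D 1 0 (by rw [← hust]; exact hu.le) (by omega) (by rw [← hust]; exact hune)
    rw [← hust] at h3
    exact_mod_cast h3
  have hg2prod : 1 ≤ ∏ τ : A →+* ℂ, ‖τ g2‖ := by
    rw [← norm_eq]
    have : 0 < (Algebra.norm ℤ g2).natAbs :=
      Nat.pos_of_ne_zero (Int.natAbs_ne_zero.mpr (norm_ne_zero' A g2 hg2))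
    exact_mod_cast this
  have hwplow : (2 : ℝ) ^ (k * N) * (I : ℝ)
      ≤ ∏ τ : A →+* ℂ, ‖τ (rho D u v * (wp.coeff D) ^ (m - 2 * D))‖ := by
    have h3 : ∀ τ : A →+* ℂ, ‖τ (rho D u v * (wp.coeff D) ^ (m - 2 * D))‖
        = 2 ^ k * ‖τ g2‖ ^ k * ‖τ (rho D u v * (u.coeff D) ^ (m - 2 * D))‖ := by
      intro τ
      rw [hwpc, ← hk]
      simp only [map_mul, map_pow, norm_mul, norm_pow, map_ofNat]
      rw [mul_pow, mul_pow]
      simp only [Complex.norm_ofNat]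
      ring
    simp only [h3]
    rw [Finset.prod_mul_distrib, Finset.prod_mul_distrib, Finset.prod_const, Finset.card_univ,
      ← hNdef, Finset.prod_pow, ← pow_mul]
    have h4 : 1 ≤ (∏ τ : A →+* ℂ, ‖τ g2‖) ^ k := one_le_pow₀ hg2prod
    calc (2 : ℝ) ^ (k * N) * (I : ℝ) = 2 ^ (k * N) * 1 * (I : ℝ) := by
          ring
      _ ≤ _ := by gcongr
  have hJwp := J_gen m D c β u v hβ1 hc hm hD hu.le hv hpos I hI H hH wp D hwpdeg (by omega)
    (2 ^ (k * N)) (by positivity) hwplow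
  rw [← hk, ← hNdef] at hJw hJwp
  -- means
  set Xf : (A →+* ℂ) → ℝ := fun τ => nsq m (c τ) (wt m c u v τ) (w.map τ) with hXf
  set Yf : (A →+* ℂ) → ℝ := fun τ => nsq m (c τ) (wt m c u v τ) (wp.map τ) with hYf
  have hX := mean_gt N k hN1 hkpos hNdef.symm Xf (fun τ => nsq_nonneg _ _ _ _) H
    (1 ^ 2 * (β ^ (2 * (D ^ 2 + w.natDegree * k))) ^ N) ((∑ τ, Xf τ) / N) (-2 * κ')
    hHpos (by positivity) hJw (by
      rw [one_pow, one_mul, Real.log_pow, Real.log_pow, ← hL]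
      push_cast
      have h3 : 0 ≤ (N : ℝ) * (2 * (w.natDegree * k) * L) := by positivity
      nlinarith) rfl
  have hY := mean_gt N k hN1 hkpos hNdef.symm Yf (fun τ => nsq_nonneg _ _ _ _) H
    ((2 ^ (k * N)) ^ 2 * (β ^ (2 * (D ^ 2 + D * k))) ^ N) ((∑ τ, Yf τ) / N)
    (2 * Real.log 2 + 2 * D * L - 2 * κ')
    hHpos (by positivity) hJwp (by
      rw [Real.log_mul (by positivity) (by positivity), Real.log_pow, Real.log_pow, Real.log_pow,
        Real.log_pow, ← hL]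
      push_cast
      nlinarith) rfl
  -- sum
  have hsum : (∑ τ, Xf τ) / N + (∑ τ, Yf τ) / N ≤ 2 * q ^ 2 * (1 + β ^ (2 * D)) := by
    rw [← add_div, ← Finset.sum_add_distrib, div_le_iff₀ hNpos]
    calc ∑ τ, (Xf τ + Yf τ) ≤ ∑ _τ : A →+* ℂ, 2 * q ^ 2 * (1 + β ^ (2 * D)) := by
          apply Finset.sum_le_sum
          intro τ _
          exact parallelogram m D c β u v hβ1 hc hm hpos g1 g2 e (by omega) τ q hqpos.le
            (hg1τ τ) (hg2τ τ)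
      _ = 2 * q ^ 2 * (1 + β ^ (2 * D)) * N := by
          rw [Finset.sum_const, Finset.card_univ, ← hNdef, nsmul_eq_mul]
          ring
  set t := β ^ (2 * D) with ht
  have ht1 : 1 ≤ t := one_le_pow₀ hβ1
  have hexpY : Real.exp (2 * Real.log 2 + 2 * D * L - 2 * κ') = 4 * t * Real.exp (-2 * κ') := by
    have h3 : 2 * Real.log 2 + 2 * D * L - 2 * κ'
        = Real.log (4 * t) + (-2 * κ') := by
      rw [Real.log_mul (by norm_num) (by positivity), ht, Real.log_pow, ← hL]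
      have : Real.log 4 = 2 * Real.log 2 := by
        rw [show (4 : ℝ) = 2 ^ 2 by norm_num, Real.log_pow]; push_cast; ring
      rw [this]
      push_cast
      ring
    rw [h3, Real.exp_add, Real.exp_log (by positivity)]
  rw [hexpY] at hY
  have hfin : Real.exp (-2 * κ') * (1 + 4 * t) < 2 * q ^ 2 * (1 + t) := by linarith
  have hq2 : q ^ 2 = Real.exp (2 * θ * κ') := by
    rw [hq, ← Real.exp_nat_mul]
    congr 1
    push_cast
    ring
  have hE : Real.exp (2 * κ') * Real.exp (2 * θ * κ') ≤ 5 / 4 := by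
    rw [← Real.exp_add]
    have h3 : 2 * κ' + 2 * θ * κ' ≤ Real.log (5 / 4) := by linarith
    calc Real.exp (2 * κ' + 2 * θ * κ') ≤ Real.exp (Real.log (5 / 4)) := Real.exp_le_exp.mpr h3
      _ = 5 / 4 := Real.exp_log (by norm_num)
  have hmul : Real.exp (2 * κ') * (Real.exp (-2 * κ') * (1 + 4 * t))
      < Real.exp (2 * κ') * (2 * q ^ 2 * (1 + t)) :=
    mul_lt_mul_of_pos_left hfin (Real.exp_pos _)
  rw [← mul_assoc, ← Real.exp_add, show 2 * κ' + -2 * κ' = 0 by ring, Real.exp_zero, one_mul,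
    hq2] at hmul
  have h9 : Real.exp (2 * κ') * (2 * Real.exp (2 * θ * κ') * (1 + t))
      = (Real.exp (2 * κ') * Real.exp (2 * θ * κ')) * (2 * (1 + t)) := by ring
  rw [h9] at hmul
  have h10 : (Real.exp (2 * κ') * Real.exp (2 * θ * κ')) * (2 * (1 + t)) ≤ 5 / 4 * (2 * (1 + t)) := by
    apply mul_le_mul_of_nonneg_right hE
    linarith
  linarith

end

end Pool.Agent.H4.OH
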