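import Pool.Agent.H4.RR.BogCyc

/-!
# Module CycPow (MP_187c26_nt, sums of radicals): Amoroso-Dvornicich, `p ∣ N`

`E = ℚ(ζ)`, `ζ` a primitive `N`-th root of unity. `s : E ≃+* E` fixes `ζ^p`.

(a) `cycPow_congr`: `(s y)^p ≡ y^p mod p` for `y ∈ 𝓞 E`. Proof: `𝓞 E = ℤ[ζ]`
(`IsCyclotomicExtension.Rat.adjoin_singleton_eq_top`), the set of `y` with
`p ∣ (σ y)^p - y^p` is closed under addition (`exists_add_pow_prime_eq`), multiplication, contains `ℤ`
and `ζ` (`(σ ζ)^p = σ (ζ^p) = ζ^p`); compare `bogCyc_frob` in BogCyc.lean, same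
`Algebra.adjoin_induction`.

(b) `cycPow_main`: copy of `bogCyc_main` with `δ = v^p (σ u)^p - (σ v)^p u^p`, `p ∣ δ`,
`δ ∈ I' = I^p (σ I)^p`, prime to `p`, hence `δ ∈ (p) I'`,
`p^n N(I)^(2p) ≤ ∏_τ |τ δ| ≤ 2^n (∏_τ max)^(2p)`, `n = [E : ℚ]`.

(c) `cycPow`: if `(s a)^p ≠ a^p` then `log(p/2)/(2p) * n ≤ logHeight₁ a`. Proof: `bogCyc_rep` gives
`a = v/u` with `(u, v)` prime to `p`; `δ ≠ 0` because `a^p ≠ (s a)^p`; (b) and take logarithms.
-/

set_option autoImplicit false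

open NumberField

namespace Pool.Agent.H4.OH

open Pool.Agent.H4.RR

theorem cycPow_congr (E : Type) [Field E] [NumberField E] (N p : ℕ) (hN : 1 ≤ N) (hp : p.Prime)
    [IsCyclotomicExtension {N} ℚ E] (ζ : E) (hζ : IsPrimitiveRoot ζ N) (s : E ≃+* E)
    (hs : s (ζ ^ p) = ζ ^ p) (y : 𝓞 E) :
    (p : 𝓞 E) ∣ (RingOfIntegers.mapRingEquiv s y) ^ p - y ^ p := by
  have : NeZero N := ⟨by omega⟩
  set σ : 𝓞 E ≃+* 𝓞 E := RingOfIntegers.mapRingEquiv s with hσ
  have hy : y ∈ Algebra.adjoin ℤ {hζ.toInteger} := by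
    rw [IsCyclotomicExtension.Rat.adjoin_singleton_eq_top hζ]; trivial
  induction hy using Algebra.adjoin_induction with
  | mem x hx =>
    rw [Set.mem_singleton_iff] at hx
    have : (σ x) ^ p - x ^ p = 0 := by
      rw [sub_eq_zero, ← map_pow]
      apply RingOfIntegers.ext
      rw [hx, hσ, RingOfIntegers.mapRingEquiv_apply]
      exact hs
    rw [this]
    exact dvd_zero _
  | algebraMap n =>
    have h3 : σ (algebraMap ℤ (𝓞 E) n) = (algebraMap ℤ (𝓞 E) n) := by simp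
    rw [h3, sub_self]
    exact dvd_zero _
  | add x y _ _ ihx ihy =>
    obtain ⟨r, hr⟩ := exists_add_pow_prime_eq hp x y
    obtain ⟨r', hr'⟩ := exists_add_pow_prime_eq hp (σ x) (σ y)
    obtain ⟨a, ha⟩ := ihx
    obtain ⟨b, hb⟩ := ihy
    refine ⟨a + b + σ x * σ y * r' - x * y * r, ?_⟩
    rw [map_add, hr, hr']
    linear_combination ha + hb
  | mul x y _ _ ihx ihy =>
    obtain ⟨a, ha⟩ := ihx
    obtain ⟨b, hb⟩ := ihy
    refine ⟨a * (σ y) ^ p + x ^ p * b, ?_⟩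
    rw [map_mul, mul_pow, mul_pow]
    linear_combination (σ y) ^ p * ha + x ^ p * hb

theorem cycPow_main (E : Type) [Field E] [NumberField E] (p : ℕ) (hp : p.Prime) (s : E ≃+* E)
    (hs : ∀ y : 𝓞 E, (p : 𝓞 E) ∣ (RingOfIntegers.mapRingEquiv s y) ^ p - y ^ p)
    (u v : 𝓞 E) (hu : u ≠ 0)
    (hcop : IsCoprime (Ideal.span {u, v}) (Ideal.span {(p : 𝓞 E)}))
    (hδ : v ^ p * (RingOfIntegers.mapRingEquiv s u) ^ p
      - (RingOfIntegers.mapRingEquiv s v) ^ p * u ^ p ≠ 0) :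
    (p : ℝ) ^ Module.finrank ℚ E ≤
      2 ^ Module.finrank ℚ E * Height.mulHeight₁ ((v : E) / (u : E)) ^ (2 * p) := by
  set σ : 𝓞 E ≃+* 𝓞 E := RingOfIntegers.mapRingEquiv s with hσ
  set n := Module.finrank ℚ E with hn
  set I : Ideal (𝓞 E) := Ideal.span {u, v} with hI
  have huI : u ∈ I := Ideal.subset_span (by simp)
  have hvI : v ∈ I := Ideal.subset_span (by simp)
  set δ : 𝓞 E := v ^ p * (σ u) ^ p - (σ v) ^ p * u ^ p with hδdef
  have hI0 : I ≠ ⊥ := by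
    intro h0
    rw [h0] at huI
    exact hu (by simpa using huI)
  have hδ2 : (p : 𝓞 E) ∣ δ := by
    obtain ⟨c, hc⟩ := hs v
    obtain ⟨d, hd⟩ := hs u
    refine ⟨v ^ p * d - c * u ^ p, ?_⟩
    rw [hδdef]
    linear_combination v ^ p * hd - u ^ p * hc
  -- membership in the ideal
  set I' : Ideal (𝓞 E) := I ^ p * (I.map σ) ^ p with hI'
  have hδI : δ ∈ I' := by
    rw [hδdef]
    refine Ideal.sub_mem _ ?_ ?_
    · exact Ideal.mul_mem_mul (Ideal.pow_mem_pow hvI _)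
        (Ideal.pow_mem_pow (Ideal.mem_map_of_mem σ huI) _)
    · rw [mul_comm]
      exact Ideal.mul_mem_mul (Ideal.pow_mem_pow huI _)
        (Ideal.pow_mem_pow (Ideal.mem_map_of_mem σ hvI) _)
  have hcopσ : IsCoprime (I.map σ) (Ideal.span {(p : 𝓞 E)}) := by
    rw [Ideal.isCoprime_iff_sup_eq] at hcop ⊢
    have h1 := congrArg (Ideal.map σ) hcop
    have h2 : (Ideal.span {(p : 𝓞 E)}).map σ = Ideal.span {(p : 𝓞 E)} := by
      rw [Ideal.map_span, Set.image_singleton, map_natCast]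
    rw [Ideal.map_sup, h2, Ideal.map_top] at h1
    exact h1
  have hcop' : IsCoprime (Ideal.span {(p : 𝓞 E)}) I' := by
    rw [hI']
    exact (IsCoprime.mul_left (hcop.pow_left) (hcopσ.pow_left)).symm
  have hmem : δ ∈ Ideal.span {(p : 𝓞 E)} * I' := by
    rw [Ideal.mul_eq_inf_of_isCoprime hcop']
    refine ⟨?_, hδI⟩
    exact Ideal.mem_span_singleton.2 hδ2
  have hlow := absNorm_le_prod E _ δ hmem hδ
  have hN : (Ideal.absNorm (Ideal.span {(p : 𝓞 E)} * I') : ℝ) =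
      (p : ℝ) ^ n * (Ideal.absNorm I : ℝ) ^ (2 * p) := by
    rw [map_mul, Ideal.absNorm_span_natCast, hI', map_mul, map_pow, map_pow,
      bogCyc_absNorm_map, RingOfIntegers.rank]
    push_cast
    rw [← pow_add, two_mul]
  rw [hN] at hlow
  -- the upper bound
  set m : (E →+* ℂ) → ℝ := fun τ => max ‖τ (u : E)‖ ‖τ (v : E)‖ with hm
  have hH : Height.mulHeight₁ ((v : E) / (u : E)) * (Ideal.absNorm I : ℝ) = ∏ τ, m τ :=
    height_mul_absNorm E u v hu
  have hm0 : ∀ τ, 0 ≤ m τ := fun τ => le_max_of_le_left (norm_nonneg _)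
  have hup : ∏ τ : E →+* ℂ, ‖τ (δ : E)‖ ≤
      ∏ τ : E →+* ℂ, (2 * (m τ ^ p * m (τ.comp (s : E →+* E)) ^ p)) := by
    refine Finset.prod_le_prod (fun τ _ => norm_nonneg _) (fun τ _ => ?_)
    have e1 : τ (δ : E) = τ v ^ p * (τ.comp (s : E →+* E)) u ^ p
        - (τ.comp (s : E →+* E)) v ^ p * τ u ^ p := by
      rw [hδdef]
      simp [hσ]
    rw [e1]
    have b1 : ‖τ (v : E)‖ ≤ m τ := le_max_right _ _
    have b2 : ‖τ (u : E)‖ ≤ m τ := le_max_left _ _
    have b3 : ‖(τ.comp (s : E →+* E)) (v : E)‖ ≤ m (τ.comp (s : E →+* E)) := le_max_right _ _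
    have b4 : ‖(τ.comp (s : E →+* E)) (u : E)‖ ≤ m (τ.comp (s : E →+* E)) := le_max_left _ _
    have c0 := hm0 τ
    have c1 := hm0 (τ.comp (s : E →+* E))
    calc ‖τ v ^ p * (τ.comp (s : E →+* E)) u ^ p
        - (τ.comp (s : E →+* E)) v ^ p * τ u ^ p‖
        ≤ ‖τ v‖ ^ p * ‖(τ.comp (s : E →+* E)) u‖ ^ p
          + ‖(τ.comp (s : E →+* E)) v‖ ^ p * ‖τ u‖ ^ p := by
          refine (norm_sub_le _ _).trans (le_of_eq ?_)
          rw [norm_mul, norm_mul, norm_pow, norm_pow, norm_pow, norm_pow]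
      _ ≤ m τ ^ p * m (τ.comp (s : E →+* E)) ^ p
          + m (τ.comp (s : E →+* E)) ^ p * m τ ^ p := by gcongr
      _ = 2 * (m τ ^ p * m (τ.comp (s : E →+* E)) ^ p) := by ring
  have hprod : ∏ τ : E →+* ℂ, (2 * (m τ ^ p * m (τ.comp (s : E →+* E)) ^ p)) =
      2 ^ n * (∏ τ, m τ) ^ (2 * p) := by
    rw [Finset.prod_mul_distrib, Finset.prod_mul_distrib, Finset.prod_pow, Finset.prod_pow,
      bogCyc_prod_comp E s m, Finset.prod_const, Finset.card_univ, NumberField.Embeddings.card,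
      two_mul, pow_add]
  rw [hprod, ← hH] at hup
  have hNpos : (0 : ℝ) < (Ideal.absNorm I : ℝ) := by
    have : Ideal.absNorm I ≠ 0 := fun h0 => hI0 (Ideal.absNorm_eq_zero_iff.1 h0)
    exact_mod_cast Nat.pos_of_ne_zero this
  have h7 := hlow.trans hup
  rw [mul_pow, ← mul_assoc] at h7
  exact le_of_mul_le_mul_right h7 (by positivity)

theorem cycPow (E : Type) [Field E] [NumberField E] (N p : ℕ) (hN : 1 ≤ N) (hp : p.Prime)
    [IsCyclotomicExtension {N} ℚ E] (ζ : E) (hζ : IsPrimitiveRoot ζ N) (s : E ≃+* E)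
    (hs : s (ζ ^ p) = ζ ^ p) (a : E) (ha : a ≠ 0) (hne : (s a) ^ p ≠ a ^ p) :
    Real.log ((p : ℝ) / 2) / (2 * p) * Module.finrank ℚ E ≤ Height.logHeight₁ a := by
  have hs' := cycPow_congr E N p hN hp ζ hζ s hs
  obtain ⟨u, v, hu, hv, hav, hcop⟩ := bogCyc_rep E p hp a ha
  have hp1 : (2 : ℝ) ≤ p := by exact_mod_cast hp.two_le
  have hden : (0 : ℝ) < 2 * (p : ℝ) := by positivity
  have hδ : v ^ p * (RingOfIntegers.mapRingEquiv s u) ^ p
      - (RingOfIntegers.mapRingEquiv s v) ^ p * u ^ p ≠ 0 := by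
    intro hδ
    apply hne
    have hue : (u : E) ≠ 0 := by exact_mod_cast hu
    have hsue : s (u : E) ≠ 0 := by simpa using hue
    have h1 : (v : E) ^ p * (s (u : E)) ^ p = (s (v : E)) ^ p * (u : E) ^ p := by
      have h2 := congrArg (fun z : 𝓞 E => (z : E)) (sub_eq_zero.1 hδ)
      simpa using h2
    rw [hav, map_div₀, div_pow, div_pow, div_eq_div_iff (pow_ne_zero _ hsue) (pow_ne_zero _ hue)]
    exact h1.symm
  have h1 := cycPow_main E p hp s hs' u v hu hcop hδ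
  rw [← hav] at h1
  have hH1 : 0 < Height.mulHeight₁ a := Height.mulHeight₁_pos a
  have h2 := Real.log_le_log (by positivity) h1
  rw [Real.log_mul (by positivity) (by positivity), Real.log_pow (p : ℝ),
    Real.log_pow (2 : ℝ), Real.log_pow (Height.mulHeight₁ a)] at h2
  rw [Height.logHeight₁_eq_log_mulHeight₁, div_mul_eq_mul_div, div_le_iff₀ hden,
    Real.log_div (by positivity) (by norm_num)]
  push_cast at h2
  linarith [h2]

end Pool.Agent.H4.OH
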