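import Pool.Agent.H4.OH.Level
import Pool.Agent.H4.OH.Regular
import Pool.Agent.H4.OH.Const
import Pool.Agent.H4.RR.FinalK

/-!
# Final assembly (MP_187c26_nt, sums of radicals)
-/

set_option autoImplicit false

open NumberField IntermediateField

namespace Pool.Agent.H4.OH

variable {Ω : Type} [Field Ω] [CharZero Ω]

/-- At a finite level: a regular pair of sums of radicals. -/
theorem main_pair [IsAlgClosed Ω] [Algebra.IsAlgebraic ℚ Ω] (S : Finset ℕ)
    (hS : ∀ p ∈ S, p.Prime) (u v c a b : Ω) (hu : u ∈ RadRing Ω S) (hv : v ∈ RadRing Ω S)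
    (hc : c ∈ RadRing Ω S) (ha : a ∈ RadRing Ω S) (hb : b ∈ RadRing Ω S)
    (hu0 : u ≠ 0) (hv0 : v ≠ 0) (h1 : c * v = a * u) (h2 : (1 - c) * u = b * v)
    (hne : ∀ γ ∈ GammaOf Ω S, v ≠ (γ : Ω) * u) :
    1 / (4 * (S.card : ℝ) + 18) ≤ absLogHeight₁ (v / u) := by
  classical
  obtain ⟨N, m, ζ, x, hN, hm, hmN, hζ, hx, hpN, hF⟩ := level S hS {u, v, c, a, b} (by
    intro z hz
    simp only [Finset.mem_insert, Finset.mem_singleton] at hz
    rcases hz with rfl | rfl | rfl | rfl | rfl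
    · exact hu
    · exact hv
    · exact hc
    · exact ha
    · exact hb)
  have huA := hF u (by simp)
  have hvA := hF v (by simp)
  have hcA := hF c (by simp)
  have haA := hF a (by simp)
  have hbA := hF b (by simp)
  obtain ⟨hfin, hB⟩ := towerS N m hN hm hmN ζ hζ S (fun p => p) x hS (fun i _ j _ h => h) hx hpN
    S (Finset.Subset.refl S)
  set A := ordT ζ x S with hA
  set u' : A := ⟨u, huA⟩ with hu'
  set v' : A := ⟨v, hvA⟩ with hv'
  have hu'0 : u' ≠ 0 := fun h => hu0 (congrArg (fun y : A => (y : Ω)) h)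
  have hv'0 : v' ≠ 0 := fun h => hv0 (congrArg (fun y : A => (y : Ω)) h)
  have hxG : ∀ p ∈ S, x p ∈ GammaOf Ω S := by
    intro p hp
    refine ⟨2 * m, by omega, Subgroup.subset_closure ⟨p, hp, ?_⟩⟩
    rw [Units.val_pow_eq_pow_val, hx p hp]
  have hGle : (rootsIn (Subring.closure {ζ}) ⊔ ⨆ i ∈ S, Subgroup.zpowers (x i)) ≤ GammaOf Ω S := by
    refine sup_le ?_ (iSup₂_le fun p hp => ?_)
    · rintro ξ ⟨-, n, hn, hξ⟩
      exact ⟨n, hn, by rw [hξ]; exact Subgroup.one_mem _⟩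
    · rw [Subgroup.zpowers_le]
      exact hxG p hp
  have h3 := hB u' v' hu'0 hv'0 (by
    intro g hg hug
    have hg' := hGle hg
    apply hne g⁻¹ (Subgroup.inv_mem _ hg')
    have h2 : u = (g : Ω) * v := hug
    rw [h2, ← mul_assoc, Units.val_inv_eq_inv_val, inv_mul_cancel₀ (Units.ne_zero g), one_mul])
  have h4 := log_OHt_regular A hfin u' v' ⟨c, hcA⟩ ⟨a, haA⟩ ⟨b, hbA⟩ hu'0 hv'0
    (Subtype.ext h1) (Subtype.ext h2)
  rw [h4, mul_comm] at h3
  have hpos : (0 : ℝ) < Fintype.card (A →+* ℂ) := by exact_mod_cast card_hom_pos A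
  exact (cs_ge S.card).trans (le_of_mul_le_mul_left h3 hpos)

/-- Regular elements. -/
def IsRegularFor (Ω : Type) [Field Ω] (S : Finset ℕ) (α : Ω) : Prop :=
  ∃ c ∈ RadRing Ω S, c * α ∈ RadRing Ω S ∧ (1 - c) * α⁻¹ ∈ RadRing Ω S

/-- Lower bound for the height of a regular element. -/
theorem main_regular [IsAlgClosed Ω] [Algebra.IsAlgebraic ℚ Ω] (S : Finset ℕ)
    (hS : ∀ p ∈ S, p.Prime) (α : Ωˣ) (hreg : IsRegularFor Ω S α) (hne : α ∉ GammaOf Ω S) :
    1 / (4 * (S.card : ℝ) + 18) ≤ absLogHeight₁ (α : Ω) := by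
  obtain ⟨c, hc, hcα, hcα'⟩ := hreg
  have hα0 : (α : Ω) ≠ 0 := Units.ne_zero α
  by_cases hc0 : c = 0
  · -- `1 / α` is in the ring
    rw [hc0, sub_zero, one_mul] at hcα'
    have h := main_pair S hS (α : Ω)⁻¹ 1 0 0 (α : Ω)⁻¹ hcα' (Subring.one_mem _)
      (Subring.zero_mem _) (Subring.zero_mem _) hcα' (inv_ne_zero hα0) one_ne_zero
      (by ring) (by ring) (by
        intro γ hγ h1
        apply hne
        have h2 : (α : Ω) = (γ : Ω) := by
          field_simp at h1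
          exact h1
        exact Units.ext h2 ▸ hγ)
    have e : (1 : Ω) / (α : Ω)⁻¹ = (α : Ω) := by rw [one_div, inv_inv]
    rwa [e] at h
  · -- `u = c`, `v = c α`
    have h := main_pair S hS c (c * (α : Ω)) c (c * (α : Ω)) ((1 - c) * (α : Ω)⁻¹) hc hcα hc hcα hcα'
      hc0 (mul_ne_zero hc0 hα0) (by ring) (by field_simp) (by
        intro γ hγ h1
        apply hne
        have h2 : (α : Ω) = (γ : Ω) := by
          rw [mul_comm c] at h1
          exact mul_right_cancel₀ hc0 h1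
        exact Units.ext h2 ▸ hγ)
    rwa [mul_div_cancel_left₀ _ hc0] at h

end Pool.Agent.H4.OH
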