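import Mathlib

/-!
# Radicals of `S`-units (MP_187c26_nt, sums of radicals)

`GammaOf S`: all radicals of `S`-units (roots of unity included). `RadRing S`: the ring generated by the
algebraic integers in `GammaOf S`.
-/

set_option autoImplicit false

namespace Pool.Agent.H4.OH

/-- All radicals of units composed of the primes in `S`. -/
def GammaOf (Ω : Type) [Field Ω] (S : Finset ℕ) : Subgroup Ωˣ where
  carrier := {x | ∃ n : ℕ, 1 ≤ n ∧ x ^ n ∈ Subgroup.closure {u : Ωˣ | ∃ p ∈ S, (u : Ω) = (p : Ω)}}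
  one_mem' := ⟨1, le_rfl, by rw [pow_one]; exact Subgroup.one_mem _⟩
  mul_mem' := by
    rintro a b ⟨n, hn, ha⟩ ⟨k, hk, hb⟩
    refine ⟨n * k, Nat.mul_pos hn hk, ?_⟩
    rw [mul_pow, pow_mul, mul_comm n k, pow_mul b]
    exact Subgroup.mul_mem _ (Subgroup.pow_mem _ ha _) (Subgroup.pow_mem _ hb _)
  inv_mem' := by
    rintro a ⟨n, hn, ha⟩
    exact ⟨n, hn, by rw [inv_pow]; exact Subgroup.inv_mem _ ha⟩

/-- The ring generated by the algebraic integers in `GammaOf S`. -/
def RadRing (Ω : Type) [Field Ω] (S : Finset ℕ) : Subring Ω :=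
  Subring.closure {z | IsIntegral ℤ z ∧ ∃ γ ∈ GammaOf Ω S, z = (γ : Ω)}

end Pool.Agent.H4.OH
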