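import Pool.Agent.H4.OH.GamDefs

/-!
# Module GenFin (MP_187c26_nt, sums of radicals): finitely many generators

Every `z ∈ RadRing S` lies in `Subring.closure G` for some finite set `G` of integral elements of
`GammaOf S` (`Subring.closure_induction`: generators, `0`, `1`, sums, negatives, products; for sums and
products take unions, `Subring.closure_mono`); then take the union over `z ∈ F` (`Finset.induction_on`).
-/

set_option autoImplicit false

namespace Pool.Agent.H4.OH

variable {Ω : Type} [Field Ω] [CharZero Ω]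

omit [CharZero Ω] in
private theorem gf_mono {G G' : Finset Ωˣ} (h : G ⊆ G') :
    Subring.closure {y : Ω | ∃ γ ∈ G, y = (γ : Ω)} ≤
      Subring.closure {y : Ω | ∃ γ ∈ G', y = (γ : Ω)} := by
  apply Subring.closure_mono
  rintro y ⟨γ, hγ, rfl⟩
  exact ⟨γ, h hγ, rfl⟩

omit [CharZero Ω] in
private theorem gf_one (S : Finset ℕ) (z : Ω) (hz : z ∈ RadRing Ω S) :
    ∃ G : Finset Ωˣ, (∀ γ ∈ G, γ ∈ GammaOf Ω S ∧ IsIntegral ℤ (γ : Ω)) ∧
      z ∈ Subring.closure {y : Ω | ∃ γ ∈ G, y = (γ : Ω)} := by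
  classical
  unfold RadRing at hz
  induction hz using Subring.closure_induction with
  | mem x hx =>
    obtain ⟨hint, γ, hγ, rfl⟩ := hx
    refine ⟨{γ}, ?_, ?_⟩
    · intro γ' h'
      rw [Finset.mem_singleton] at h'
      subst h'
      exact ⟨hγ, hint⟩
    · apply Subring.subset_closure
      exact ⟨γ, Finset.mem_singleton_self _, rfl⟩
  | zero => exact ⟨∅, by simp, Subring.zero_mem _⟩
  | one => exact ⟨∅, by simp, Subring.one_mem _⟩
  | add x y _ _ hx hy =>
    obtain ⟨G1, h1, h2⟩ := hx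
    obtain ⟨G2, h3, h4⟩ := hy
    refine ⟨G1 ∪ G2, ?_, Subring.add_mem _ (gf_mono Finset.subset_union_left h2)
      (gf_mono Finset.subset_union_right h4)⟩
    intro γ hγ
    rcases Finset.mem_union.mp hγ with h | h
    · exact h1 γ h
    · exact h3 γ h
  | neg x _ hx =>
    obtain ⟨G1, h1, h2⟩ := hx
    exact ⟨G1, h1, Subring.neg_mem _ h2⟩
  | mul x y _ _ hx hy =>
    obtain ⟨G1, h1, h2⟩ := hx
    obtain ⟨G2, h3, h4⟩ := hy
    refine ⟨G1 ∪ G2, ?_, Subring.mul_mem _ (gf_mono Finset.subset_union_left h2)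
      (gf_mono Finset.subset_union_right h4)⟩
    intro γ hγ
    rcases Finset.mem_union.mp hγ with h | h
    · exact h1 γ h
    · exact h3 γ h

theorem gen_finite (S : Finset ℕ) (F : Finset Ω) (hF : ∀ z ∈ F, z ∈ RadRing Ω S) :
    ∃ G : Finset Ωˣ, (∀ γ ∈ G, γ ∈ GammaOf Ω S ∧ IsIntegral ℤ (γ : Ω)) ∧
      ∀ z ∈ F, z ∈ Subring.closure {y : Ω | ∃ γ ∈ G, y = (γ : Ω)} := by
  classical
  induction F using Finset.induction_on with
  | empty => exact ⟨∅, by simp, by simp⟩
  | insert z F _ ih =>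
    obtain ⟨G1, h1, h2⟩ := ih (fun y hy => hF y (Finset.mem_insert_of_mem hy))
    obtain ⟨G2, h3, h4⟩ := gf_one S z (hF z (Finset.mem_insert_self z F))
    refine ⟨G1 ∪ G2, ?_, ?_⟩
    · intro γ hγ
      rcases Finset.mem_union.mp hγ with h | h
      · exact h1 γ h
      · exact h3 γ h
    · intro y hy
      rcases Finset.mem_insert.mp hy with h | h
      · rw [h]
        exact gf_mono Finset.subset_union_right h4
      · exact gf_mono Finset.subset_union_left (h2 y h)

end Pool.Agent.H4.OH
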