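import Pool.Agent.H4.OH.SubDefs
import Pool.Agent.H4.RR.AbsHeight
import Pool.Agent.H4.RR.HeightIdeal

/-!
# Order height and Weil height of a coprime pair (MP_187c26_nt, sums of radicals)
-/

set_option autoImplicit false

open NumberField

namespace Pool.Agent.H4.OH

open Pool.Agent.H4.RR

variable {Ω : Type} [Field Ω] [CharZero Ω]

theorem log_OHt_coprime_aux (A : Subring Ω) (hA : Module.Finite ℤ A)
    (K : Type) [Field K] [Algebra A K] [IsFractionRing A K] (u v : A)
    (hu : u ≠ 0) (hcop : IsCoprime u v) :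
    Real.log (OHt A u v) = Fintype.card (A →+* ℂ) * absLogHeight₁ ((v : Ω) / (u : Ω)) := by
  have hnf : NumberField K := numberField_frac A K
  have hinj : Function.Injective (algebraMap A K) := IsFractionRing.injective A K
  let ι : K →+* Ω := IsFractionRing.lift (g := A.subtype) (fun a b h => Subtype.ext h)
  have hι : ∀ a : A, ι (algebraMap A K a) = (a : Ω) := fun a =>
    IsFractionRing.lift_algebraMap _ a
  have hint : ∀ a : A, IsIntegral ℤ (algebraMap A K a) := fun a =>
    (Algebra.IsIntegral.isIntegral (R := ℤ) a).map (algebraMap A K).toIntAlgHom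
  let j : A → 𝓞 K := fun a => ⟨algebraMap A K a, hint a⟩
  have hj : ∀ a, ((j a : 𝓞 K) : K) = algebraMap A K a := fun a => rfl
  obtain ⟨s, t, hst⟩ := hcop
  have hst' : j s * j u + j t * j v = 1 := by
    apply RingOfIntegers.ext
    have h1 := congrArg (algebraMap A K) hst
    rw [map_add, map_mul, map_mul, map_one] at h1
    simpa [j] using h1
  have htop : Ideal.span {j u, j v} = ⊤ := by
    rw [Ideal.eq_top_iff_one, Ideal.mem_span_pair]
    exact ⟨j s, j t, hst'⟩
  have hju : j u ≠ 0 := by
    intro h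
    have h1 : algebraMap A K u = 0 := by
      have := congrArg (fun y : 𝓞 K => (y : K)) h
      simpa [j] using this
    exact hu (hinj (by rw [h1, map_zero]))
  have hH := height_mul_absNorm K (j u) (j v) hju
  rw [htop, Ideal.absNorm_top, Nat.cast_one, mul_one] at hH
  have htopA : Ideal.span {u, v} = ⊤ := by
    rw [Ideal.eq_top_iff_one, Ideal.mem_span_pair]
    exact ⟨s, t, hst⟩
  have hidx : idx A u v = 1 := by
    unfold idx
    rw [htopA]
    exact AddSubgroup.index_top
  have hprod : ∏ σ : K →+* ℂ, max ‖σ ((j u : 𝓞 K) : K)‖ ‖σ ((j v : 𝓞 K) : K)‖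
      = ∏ τ : A →+* ℂ, max ‖τ u‖ ‖τ v‖ :=
    Fintype.prod_equiv (homEquiv A K) _ _ (fun σ => rfl)
  have hOH : OHt A u v = Height.mulHeight₁ (((j v : 𝓞 K) : K) / ((j u : 𝓞 K) : K)) := by
    rw [hH, hprod, OHt, hidx, Nat.cast_one, div_one]
  have habs := absLogHeight_eq K Ω ι (((j v : 𝓞 K) : K) / ((j u : 𝓞 K) : K))
  have e1 : ι (((j v : 𝓞 K) : K) / ((j u : 𝓞 K) : K)) = (v : Ω) / (u : Ω) := by
    rw [map_div₀, hj, hj, hι, hι]
  rw [e1] at habs
  have hcard : (Fintype.card (A →+* ℂ) : ℝ) = Module.finrank ℚ K := by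
    rw [← Fintype.card_congr (homEquiv A K), NumberField.Embeddings.card]
  have hpos : (0 : ℝ) < Module.finrank ℚ K := by exact_mod_cast Module.finrank_pos
  rw [habs, hcard, hOH, Height.logHeight₁_eq_log_mulHeight₁]
  field_simp

/-- For a coprime pair the order height is the Weil height of the quotient. -/
theorem log_OHt_coprime (A : Subring Ω) (hA : Module.Finite ℤ A) (u v : A)
    (hu : u ≠ 0) (hcop : IsCoprime u v) :
    Real.log (OHt A u v) = Fintype.card (A →+* ℂ) * absLogHeight₁ ((v : Ω) / (u : Ω)) :=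
  log_OHt_coprime_aux A hA (FractionRing A) u v hu hcop

end Pool.Agent.H4.OH
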