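import Pool.Agent.H4.OH.Ord

/-!
# Indices and determinants (MP_187c26_nt, sums of radicals)
-/

set_option autoImplicit false

namespace Pool.Agent.H4.OH

/-- The index of the range of an endomorphism of a lattice. -/
theorem index_range_det (M : Type) [AddCommGroup M] [Module.Free ℤ M] [Module.Finite ℤ M]
    (f : M →ₗ[ℤ] M) (hf : LinearMap.det f ≠ 0) :
    (Submodule.toAddSubgroup (LinearMap.range f)).index = (LinearMap.det f).natAbs := by
  have hinj : Function.Injective f := by
    rw [← LinearMap.ker_eq_bot]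
    by_contra hk
    exact hf (LinearMap.det_eq_zero_iff_ker_ne_bot.mpr hk)
  have h := Submodule.natAbs_det_equiv (LinearMap.range f) (LinearEquiv.ofInjective f hinj)
  have e : (LinearMap.range f).subtype ∘ₗ
      AddMonoidHom.toIntLinearMap ((LinearEquiv.ofInjective f hinj : M →+ (LinearMap.range f)))
      = f := by
    ext z
    rfl
  rw [e] at h
  rw [h]
  rfl

variable (A : Type) [CommRing A] [IsDomain A] [CharZero A] [Module.Finite ℤ A]

/-- The index of an `A`-submodule of a free `A`-module is bounded by the norm of a determinant. -/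
theorem index_det (M : Type) [AddCommGroup M] [Module A M] (m : ℕ)
    (bas : Module.Basis (Fin m) A M) (H : Submodule A M)
    (f : Fin m → M) (hf : ∀ r, f r ∈ H) (h0 : bas.det f ≠ 0) :
    H.toAddSubgroup.index ≠ 0 ∧
      H.toAddSubgroup.index ≤ (Algebra.norm ℤ (bas.det f)).natAbs := by
  have hfree : Module.Free A M := Module.Free.of_basis bas
  have hfin : Module.Finite A M := Module.Finite.of_basis bas
  have hfin2 : Module.Finite ℤ M := Module.Finite.trans A M
  have hfree2 : Module.Free ℤ M := Module.Free.trans (S := A)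
  set g : M →ₗ[A] M := bas.constr A f with hg
  have hgb : ∀ r, g (bas r) = f r := fun r => bas.constr_basis A f r
  have hdet : LinearMap.det g = bas.det f := by
    have h1 := bas.det_comp g bas
    rw [bas.det_self, mul_one] at h1
    rw [← h1]
    congr 1
    ext r
    exact hgb r
  have hdet2 : LinearMap.det (g.restrictScalars ℤ) = Algebra.norm ℤ (bas.det f) := by
    rw [LinearMap.det_restrictScalars, hdet]
  have hne : LinearMap.det (g.restrictScalars ℤ) ≠ 0 := by
    rw [hdet2]
    exact norm_ne_zero' A _ h0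
  have hidx := index_range_det M (g.restrictScalars ℤ) hne
  have hle : (Submodule.toAddSubgroup (LinearMap.range (g.restrictScalars ℤ)))
      ≤ H.toAddSubgroup := by
    rintro z ⟨y, rfl⟩
    change g y ∈ H
    rw [← bas.sum_repr y, map_sum]
    refine Submodule.sum_mem _ (fun r _ => ?_)
    rw [map_smul, hgb]
    exact H.smul_mem _ (hf r)
  have hdvd := AddSubgroup.index_dvd_of_le hle
  rw [hidx, hdet2] at hdvd
  have hpos : (Algebra.norm ℤ (bas.det f)).natAbs ≠ 0 := by
    rw [Int.natAbs_ne_zero]
    exact norm_ne_zero' A _ h0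
  refine ⟨fun h => hpos ?_, Nat.le_of_dvd (Nat.pos_of_ne_zero hpos) hdvd⟩
  rw [h, zero_dvd_iff] at hdvd
  exact hdvd

/-- The index of a principal ideal is the absolute value of the norm. -/
theorem index_span_singleton (w : A) (hw : w ≠ 0) :
    (Submodule.toAddSubgroup (Ideal.span {w})).index = (Algebra.norm ℤ w).natAbs := by
  have hdet : LinearMap.det ((Algebra.lmul ℤ A) w) = Algebra.norm ℤ w := rfl
  have h := index_range_det A ((Algebra.lmul ℤ A) w) (by rw [hdet]; exact norm_ne_zero' A w hw)
  rw [hdet] at h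
  rw [← h]
  congr 1
  ext z
  constructor
  · intro hz
    obtain ⟨y, hy⟩ := Ideal.mem_span_singleton'.mp hz
    exact ⟨y, by rw [← hy]; simp [mul_comm]⟩
  · rintro ⟨y, hy⟩
    refine Ideal.mem_span_singleton'.mpr ⟨y, ?_⟩
    rw [← hy]
    simp [mul_comm]

theorem idx_ne_zero (a b : A) (h : a ≠ 0 ∨ b ≠ 0) : idx A a b ≠ 0 := by
  have key : ∀ w : A, w ≠ 0 → w ∈ Ideal.span {a, b} → idx A a b ≠ 0 := by
    intro w hw hmem h0
    have hle : (Submodule.toAddSubgroup (Ideal.span {w}))
        ≤ (Submodule.toAddSubgroup (Ideal.span {a, b})) := by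
      intro z hz
      exact (Ideal.span_singleton_le_iff_mem _).mpr hmem hz
    have hdvd := AddSubgroup.index_dvd_of_le hle
    rw [index_span_singleton A w hw] at hdvd
    have h1 : (Submodule.toAddSubgroup (Ideal.span {a, b})).index = 0 := h0
    rw [h1, zero_dvd_iff] at hdvd
    exact norm_ne_zero' A w hw (Int.natAbs_eq_zero.mp hdvd)
  rcases h with h | h
  · exact key a h (Ideal.subset_span (by simp))
  · exact key b h (Ideal.subset_span (by simp))

theorem idx_le_norm (a b w : A) (hw : w ≠ 0) (hmem : w ∈ Ideal.span {a, b}) :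
    idx A a b ≤ (Algebra.norm ℤ w).natAbs := by
  have hle : (Submodule.toAddSubgroup (Ideal.span {w}))
      ≤ (Submodule.toAddSubgroup (Ideal.span {a, b})) := by
    intro z hz
    exact (Ideal.span_singleton_le_iff_mem _).mpr hmem hz
  have hdvd := AddSubgroup.index_dvd_of_le hle
  rw [index_span_singleton A w hw] at hdvd
  refine Nat.le_of_dvd ?_ hdvd
  exact Nat.pos_of_ne_zero (Int.natAbs_ne_zero.mpr (norm_ne_zero' A w hw))

/-- Scaling of the index. -/
theorem idx_mul (a b c : A) (hc : c ≠ 0) :
    idx A (c * a) (c * b) = (Algebra.norm ℤ c).natAbs * idx A a b := by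
  set φ : A →+ A := AddMonoidHom.mulLeft c with hφ
  have hinj : Function.Injective φ := mul_right_injective₀ hc
  have h1 : (Submodule.toAddSubgroup (Ideal.span {c * a, c * b}))
      = (Submodule.toAddSubgroup (Ideal.span {a, b})).map φ := by
    ext z
    constructor
    · intro hz
      obtain ⟨s, t, hst⟩ := Ideal.mem_span_pair.mp hz
      refine ⟨s * a + t * b, Ideal.mem_span_pair.mpr ⟨s, t, rfl⟩, ?_⟩
      rw [← hst]
      change c * (s * a + t * b) = _
      ring
    · rintro ⟨y, hy, rfl⟩
      obtain ⟨s, t, hst⟩ := Ideal.mem_span_pair.mp hy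
      refine Ideal.mem_span_pair.mpr ⟨s, t, ?_⟩
      rw [← hst]
      change _ = c * (s * a + t * b)
      ring
  have h2 : φ.range = Submodule.toAddSubgroup (Ideal.span {c}) := by
    ext z
    constructor
    · rintro ⟨y, rfl⟩
      exact Ideal.mem_span_singleton'.mpr ⟨y, mul_comm _ _⟩
    · intro hz
      obtain ⟨y, hy⟩ := Ideal.mem_span_singleton'.mp hz
      exact ⟨y, by rw [← hy]; exact mul_comm _ _⟩
  unfold idx
  have h3 := AddSubgroup.index_map_of_injective (H := Submodule.toAddSubgroup (Ideal.span {a, b}))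
    hinj
  rw [h1, h3, h2, index_span_singleton A c hc, mul_comm]

/-- The order height is invariant under scaling. -/
theorem OHt_mul (a b c : A) (hc : c ≠ 0) : OHt A (c * a) (c * b) = OHt A a b := by
  unfold OHt
  rw [idx_mul A a b c hc]
  have hn : ((Algebra.norm ℤ c).natAbs : ℝ) ≠ 0 := by
    rw [Nat.cast_ne_zero, Int.natAbs_ne_zero]
    exact norm_ne_zero' A c hc
  have h1 : ∏ τ : A →+* ℂ, max ‖τ (c * a)‖ ‖τ (c * b)‖
      = ((Algebra.norm ℤ c).natAbs : ℝ) * ∏ τ : A →+* ℂ, max ‖τ a‖ ‖τ b‖ := by
    rw [norm_eq, ← Finset.prod_mul_distrib]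
    refine Finset.prod_congr rfl fun τ _ => ?_
    rw [map_mul, map_mul, norm_mul, norm_mul, mul_max_of_nonneg _ _ (norm_nonneg _)]
  rw [h1]
  push_cast
  rw [mul_div_mul_left _ _ (by simpa using hn)]

/-- Proportional pairs have the same order height. -/
theorem OHt_congr (a b a' b' : A) (ha : a ≠ 0) (ha' : a' ≠ 0) (h : a * b' = b * a') :
    OHt A a b = OHt A a' b' := by
  rw [← OHt_mul A a b a' ha', ← OHt_mul A a' b' a ha, h]
  congr 1
  · ring
  · ring

theorem prod_max_pos (a b : A) (h : a ≠ 0 ∨ b ≠ 0) :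
    0 < ∏ τ : A →+* ℂ, max ‖τ a‖ ‖τ b‖ := by
  refine Finset.prod_pos fun τ _ => ?_
  rcases h with h | h
  · refine lt_max_of_lt_left (norm_pos_iff.mpr ?_)
    rw [Ne, map_eq_zero_iff τ (hom_injective A τ)]
    exact h
  · refine lt_max_of_lt_right (norm_pos_iff.mpr ?_)
    rw [Ne, map_eq_zero_iff τ (hom_injective A τ)]
    exact h

theorem OHt_pos (a b : A) (h : a ≠ 0 ∨ b ≠ 0) : 0 < OHt A a b :=
  div_pos (prod_max_pos A a b h) (by exact_mod_cast Nat.pos_of_ne_zero (idx_ne_zero A a b h))

end Pool.Agent.H4.OH
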