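import Pool.Agent.H4.OH.GamDefs

/-!
# Module RadForm (MP_187c26_nt, sums of radicals): integral radicals of `S`-units

If `γ ∈ GammaOf S` is integral over `ℤ`, there are `n ≥ 1` and `a : ℕ → ℕ` with `γ^n = ∏_{p ∈ S} p^(a p)`.

Proof. `γ^n` lies in the closure of the primes, so `γ^n = ∏_{p ∈ S} p^(e p)` with `e p ∈ ℤ`
(`Subgroup.closure_induction`: `Pi.single`, sums, negatives). It is the image of the rational number
`q = ∏ p^(e p)`, and integral over `ℤ` as a power of `γ`, so `q` is integral over `ℤ`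
(`isIntegral_algebraMap_iff`, `algebraMap ℚ Ω` injective), `q ∈ ℤ` (`IsIntegrallyClosed.isIntegral_iff` or
`Rat.isInt...`), hence `0 ≤ padicValRat p q = e p` for `p ∈ S` (`padicValRat.of_int`, `padicValRat.mul`,
`padicValRat.zpow`, `padicValRat p p' = 0` for different primes). Take `a p = (e p).toNat`.
-/

set_option autoImplicit false

namespace Pool.Agent.H4.OH

variable {Ω : Type} [Field Ω] [CharZero Ω]

private theorem radForm_closure (S : Finset ℕ) (hS : ∀ p ∈ S, p.Prime) (u : Ωˣ)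
    (hu : u ∈ Subgroup.closure {u : Ωˣ | ∃ p ∈ S, (u : Ω) = (p : Ω)}) :
    ∃ e : ℕ → ℤ, (u : Ω) = ∏ p ∈ S, (p : Ω) ^ e p := by
  have hne : ∀ p ∈ S, (p : Ω) ≠ 0 := by
    intro p hp
    exact_mod_cast (hS p hp).ne_zero
  induction hu using Subgroup.closure_induction with
  | mem x hx =>
    obtain ⟨p, hp, h⟩ := hx
    refine ⟨fun q => if q = p then 1 else 0, ?_⟩
    rw [Finset.prod_eq_single p]
    · simp [h]
    · intro q _ hq
      simp [hq]
    · intro h'
      exact absurd hp h'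
  | one =>
    refine ⟨fun _ => 0, ?_⟩
    simp
  | mul x y _ _ hx hy =>
    obtain ⟨e, he⟩ := hx
    obtain ⟨f, hf⟩ := hy
    refine ⟨fun p => e p + f p, ?_⟩
    rw [Units.val_mul, he, hf, ← Finset.prod_mul_distrib]
    apply Finset.prod_congr rfl
    intro p hp
    rw [zpow_add₀ (hne p hp)]
  | inv x _ hx =>
    obtain ⟨e, he⟩ := hx
    refine ⟨fun p => - e p, ?_⟩
    rw [Units.val_inv_eq_inv_val, he, ← Finset.prod_inv_distrib]
    apply Finset.prod_congr rfl
    intro p _
    rw [zpow_neg]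

private theorem radForm_val (S : Finset ℕ) (hS : ∀ p ∈ S, p.Prime) (e : ℕ → ℤ) (p : ℕ)
    (hp : p.Prime) (T : Finset ℕ) (hT : T ⊆ S) :
    padicValRat p (∏ q ∈ T, (q : ℚ) ^ e q) = ∑ q ∈ T, if q = p then e q else 0 := by
  haveI : Fact p.Prime := ⟨hp⟩
  induction T using Finset.induction_on with
  | empty => simp
  | insert q T hq ih =>
    have hqS : q ∈ S := hT (Finset.mem_insert_self q T)
    have hne : ∀ r ∈ insert q T, (r : ℚ) ≠ 0 := by
      intro r hr
      exact_mod_cast (hS r (hT hr)).ne_zero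
    rw [Finset.prod_insert hq, Finset.sum_insert hq, padicValRat.mul, ih, padicValRat.zpow,
      padicValRat.of_nat]
    · congr 1
      by_cases h : q = p
      · rw [if_pos h, h, padicValNat_self]
        simp
      · haveI : Fact q.Prime := ⟨hS q hqS⟩
        rw [if_neg h, padicValNat_primes (Ne.symm h)]
        simp
    · exact (Finset.subset_insert q T).trans hT
    · exact zpow_ne_zero _ (hne q (Finset.mem_insert_self q T))
    · rw [Finset.prod_ne_zero_iff]
      intro r hr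
      exact zpow_ne_zero _ (hne r (Finset.mem_insert_of_mem hr))

theorem rad_form (S : Finset ℕ) (hS : ∀ p ∈ S, p.Prime) (γ : Ωˣ) (hγ : γ ∈ GammaOf Ω S)
    (hint : IsIntegral ℤ (γ : Ω)) :
    ∃ (n : ℕ) (a : ℕ → ℕ), 1 ≤ n ∧ (γ : Ω) ^ n = ∏ p ∈ S, (p : Ω) ^ a p := by
  obtain ⟨n, hn, hmem⟩ := hγ
  obtain ⟨e, he⟩ := radForm_closure S hS _ hmem
  rw [Units.val_pow_eq_pow_val] at he
  obtain ⟨q, hq⟩ : ∃ q : ℚ, q = ∏ p ∈ S, (p : ℚ) ^ e p := ⟨_, rfl⟩
  have hqΩ : algebraMap ℚ Ω q = (γ : Ω) ^ n := by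
    rw [he, hq, map_prod]
    apply Finset.prod_congr rfl
    intro p _
    rw [map_zpow₀, map_natCast]
  have hqint : IsIntegral ℤ q := by
    have h1 : IsIntegral ℤ (algebraMap ℚ Ω q) := by
      rw [hqΩ]
      exact hint.pow n
    exact (isIntegral_algebraMap_iff (algebraMap ℚ Ω).injective).1 h1
  obtain ⟨z, hz⟩ := IsIntegrallyClosed.isIntegral_iff.1 hqint
  have hz' : (z : ℚ) = q := by
    rw [← hz]
    rfl
  have hpos : ∀ p ∈ S, 0 ≤ e p := by
    intro p hp
    have h1 := radForm_val S hS e p (hS p hp) S (Finset.Subset.refl S)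
    rw [← hq, ← hz', padicValRat.of_int, Finset.sum_ite_eq' S p, if_pos hp] at h1
    rw [← h1]
    exact Int.natCast_nonneg _
  refine ⟨n, fun p => (e p).toNat, hn, ?_⟩
  rw [he]
  apply Finset.prod_congr rfl
  intro p hp
  rw [← zpow_natCast, Int.toNat_of_nonneg (hpos p hp)]

end Pool.Agent.H4.OH
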