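import Pool.Agent.H4.OH.TowerS
import Pool.Agent.H4.OH.GenFin
import Pool.Agent.H4.OH.RadForm

/-!
# Module Level (MP_187c26_nt, sums of radicals): finitely many sums of radicals live at a finite level

`Ω` algebraically closed of characteristic zero, `S` a finite set of primes. Finitely many elements of
`RadRing S` lie in one order `ordT ζ x S = ℤ[ζ, x_p : p ∈ S]`, `ζ` a primitive `N`-th root of unity,
`x_p^(2m) = p`, `m ∣ N`, `8p ∣ N`.

Proof. `gen_finite` gives a finite `G ⊆ GammaOf S` of integral elements; `rad_form` gives `n_γ`, `a_γ`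
for `γ ∈ G`. Let `m = ∏_{γ ∈ G} n_γ`, `N = 8 * m * ∏_{p ∈ S} p`, `ζ` a primitive `N`-th root of unity
(`HasEnoughRootsOfUnity`, or a root of `cyclotomic N Ω`: `Polynomial.isRoot_cyclotomic_iff`), `x_p` a root
of `X^(2m) = p` (`IsAlgClosed.exists_pow_nat_eq`), nonzero. For `γ ∈ G`, `m = n_γ k`:
`γ^m = ∏ p^(a p k) = (∏ x_p^(2 a p k))^m`, so `γ = ω ∏ x_p^(2 a p k)` with `ω^m = 1`, `ω` is a power of `ζ`
(`m ∣ N`, `IsPrimitiveRoot.eq_pow_of_pow_eq_one` for the primitive root `ζ^(N/m)`). So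
`γ ∈ ordT ζ x S` (`zeta_mem_ordT`, `x_mem_ordT` in TowerS.lean) and `Subring.closure G ≤ ordT ζ x S`.
-/

set_option autoImplicit false

namespace Pool.Agent.H4.OH

variable {Ω : Type} [Field Ω] [CharZero Ω]

theorem level_root [IsAlgClosed Ω] (N : ℕ) (hN : 1 ≤ N) : ∃ ζ : Ω, IsPrimitiveRoot ζ N := by
  have hne : NeZero (N : Ω) := ⟨by exact_mod_cast (by omega : N ≠ 0)⟩
  have hdeg : (Polynomial.cyclotomic N Ω).degree ≠ 0 := by
    rw [Polynomial.degree_cyclotomic]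
    have := Nat.totient_pos.2 (by omega : 0 < N)
    exact_mod_cast this.ne'
  obtain ⟨ζ, hζ⟩ := IsAlgClosed.exists_root _ hdeg
  exact ⟨ζ, Polynomial.isRoot_cyclotomic_iff.1 hζ⟩

theorem level [IsAlgClosed Ω] (S : Finset ℕ) (hS : ∀ p ∈ S, p.Prime) (F : Finset Ω)
    (hF : ∀ z ∈ F, z ∈ RadRing Ω S) :
    ∃ (N m : ℕ) (ζ : Ω) (x : ℕ → Ωˣ), 1 ≤ N ∧ 1 ≤ m ∧ m ∣ N ∧ IsPrimitiveRoot ζ N ∧
      (∀ p ∈ S, (x p : Ω) ^ (2 * m) = (p : Ω)) ∧ (∀ p ∈ S, 8 * p ∣ N) ∧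
      ∀ z ∈ F, z ∈ ordT ζ x S := by
  obtain ⟨G, hG, hFG⟩ := gen_finite S F hF
  have hex : ∀ γ : Ωˣ, ∃ (n : ℕ) (a : ℕ → ℕ), γ ∈ G → (1 ≤ n ∧
      (γ : Ω) ^ n = ∏ p ∈ S, (p : Ω) ^ a p) := by
    intro γ
    by_cases hγ : γ ∈ G
    · obtain ⟨n, a, h1, h2⟩ := rad_form S hS γ (hG γ hγ).1 (hG γ hγ).2
      exact ⟨n, a, fun _ => ⟨h1, h2⟩⟩
    · exact ⟨0, fun _ => 0, fun h => absurd h hγ⟩
  choose n a hna using hex
  have hm : 1 ≤ ∏ γ ∈ G, n γ := Nat.succ_le_of_lt (Finset.prod_pos fun γ hγ => (hna γ hγ).1)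
  set m := ∏ γ ∈ G, n γ with hmdef
  have hpp : 1 ≤ ∏ p ∈ S, p := Nat.succ_le_of_lt (Finset.prod_pos fun p hp => (hS p hp).pos)
  set N := 8 * m * ∏ p ∈ S, p with hNdef
  have hN : 1 ≤ N := Nat.mul_pos (Nat.mul_pos (by norm_num) hm) hpp
  have hmN : m ∣ N := ⟨8 * ∏ p ∈ S, p, by rw [hNdef]; ring⟩
  obtain ⟨ζ, hζ⟩ := level_root (Ω := Ω) N hN
  have hx : ∀ p : ℕ, ∃ u : Ωˣ, p ∈ S → (u : Ω) ^ (2 * m) = (p : Ω) := by
    intro p
    by_cases hp : p ∈ S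
    · obtain ⟨z, hz⟩ := IsAlgClosed.exists_pow_nat_eq (p : Ω) (n := 2 * m) (by omega)
      have hp0 : (p : Ω) ≠ 0 := by exact_mod_cast (hS p hp).ne_zero
      have hz0 : z ≠ 0 := by
        rintro rfl
        rw [zero_pow (by omega)] at hz
        exact hp0 hz.symm
      exact ⟨Units.mk0 z hz0, fun _ => hz⟩
    · exact ⟨1, fun h => absurd h hp⟩
  choose x hx using hx
  refine ⟨N, m, ζ, x, hN, hm, hmN, hζ, fun p hp => hx p hp, ?_, ?_⟩
  · intro p hp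
    obtain ⟨k, hk⟩ := Finset.dvd_prod_of_mem (fun p => p) hp
    refine ⟨m * k, ?_⟩
    rw [hNdef]
    have hk' : ∏ p ∈ S, p = p * k := hk
    rw [hk']
    ring
  · have hgen : ∀ γ ∈ G, (γ : Ω) ∈ ordT ζ x S := by
      intro γ hγ
      obtain ⟨h1, h2⟩ := hna γ hγ
      obtain ⟨k, hk⟩ := Finset.dvd_prod_of_mem n hγ
      have hk' : m = n γ * k := hk
      set y : Ωˣ := ∏ p ∈ S, x p ^ (2 * (a γ p * k)) with hy
      have hyv : (y : Ω) = ∏ p ∈ S, (x p : Ω) ^ (2 * (a γ p * k)) := by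
        rw [hy, Units.coe_prod]
        rfl
      have hpow : (γ : Ω) ^ m = (y : Ω) ^ m := by
        conv_lhs => rw [hk', pow_mul, h2, ← Finset.prod_pow]
        rw [hyv, ← Finset.prod_pow]
        refine Finset.prod_congr rfl fun p hp => ?_
        rw [← hx p hp, ← pow_mul, ← pow_mul, ← pow_mul]
        congr 1
        ring
      have hω : ((γ * y⁻¹ : Ωˣ) : Ω) ^ m = 1 := by
        have h3 : (γ * y⁻¹) ^ m = 1 := by
          rw [mul_pow, inv_pow]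
          apply Units.ext
          rw [Units.val_mul, Units.val_pow_eq_pow_val, hpow, ← Units.val_pow_eq_pow_val,
            Units.mul_inv]
          rfl
        rw [← Units.val_pow_eq_pow_val, h3, Units.val_one]
      obtain ⟨N', hN'⟩ := hmN
      have hprim : IsPrimitiveRoot (ζ ^ N') m := hζ.pow (by omega) (by rw [hN']; ring)
      have : NeZero m := ⟨by omega⟩
      obtain ⟨i, _, hi⟩ := hprim.eq_pow_of_pow_eq_one hω
      have hγe : (γ : Ω) = (ζ ^ N') ^ i * (y : Ω) := by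
        rw [hi, ← Units.val_mul, inv_mul_cancel_right]
      rw [hγe]
      refine Subring.mul_mem _ (Subring.pow_mem _ (Subring.pow_mem _ (zeta_mem_ordT ζ x S) _) _) ?_
      rw [hyv]
      exact Subring.prod_mem _ fun p hp => Subring.pow_mem _ (x_mem_ordT ζ x S p hp) _
    intro z hz
    have h3 : Subring.closure {y : Ω | ∃ γ ∈ G, y = (γ : Ω)} ≤ ordT ζ x S := by
      rw [Subring.closure_le]
      rintro _ ⟨γ, hγ, rfl⟩
      exact hgen γ hγ
    exact h3 (hFG z hz)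

end Pool.Agent.H4.OH
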