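import Pool.Agent.H4.RR.Hadamard
import Pool.Agent.H4.RR.FamDet
import Pool.Agent.H4.RR.Iw

/-!
# Nodes: the m-th roots of a complex number (MP_187c26_nt, sums of radicals)
-/

set_option autoImplicit false

open Polynomial

namespace Pool.Agent.H4.OH

open Pool.Agent.H4.RR (fam famDet rho hadamard)

/-- `node m c j = c * exp (2 pi i j / m)`, the `m`-th roots of `c ^ m`. -/
noncomputable def node (m : ℕ) (c : ℂ) (j : Fin m) : ℂ :=
  c * Complex.exp (2 * Real.pi * Complex.I * ((j : ℕ) : ℂ) / (m : ℂ))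

/-- Weighted mean square of a polynomial at the nodes. -/
noncomputable def nsq (m : ℕ) (c : ℂ) (M : Fin m → ℝ) (w : ℂ[X]) : ℝ :=
  (1 / (m : ℝ)) * ∑ j, ‖w.eval (node m c j)‖ ^ 2 / (M j) ^ 2

lemma norm_node (m : ℕ) (c : ℂ) (j : Fin m) : ‖node m c j‖ = ‖c‖ := by
  unfold node
  rw [norm_mul]
  have : (2 * (Real.pi : ℂ) * Complex.I * ((j : ℕ) : ℂ) / (m : ℂ))
      = ((2 * Real.pi * (j : ℕ) / m : ℝ) : ℂ) * Complex.I := by
    push_cast
    ring
  rw [this, Complex.norm_exp_ofReal_mul_I, mul_one]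

lemma node_pow (m : ℕ) (c : ℂ) (hm : 1 ≤ m) (j : Fin m) : node m c j ^ m = c ^ m := by
  unfold node
  have hm' : (m : ℂ) ≠ 0 := by exact_mod_cast Nat.one_le_iff_ne_zero.mp hm
  rw [mul_pow, ← Complex.exp_nat_mul]
  have h1 : (m : ℂ) * (2 * (Real.pi : ℂ) * Complex.I * ((j : ℕ) : ℂ) / (m : ℂ))
      = ((j : ℕ) : ℂ) * (2 * (Real.pi : ℂ) * Complex.I) := by
    field_simp
  rw [h1, Complex.exp_nat_mul_two_pi_mul_I, mul_one]

lemma node_inj (m : ℕ) (c : ℂ) (hc : c ≠ 0) {i j : Fin m} (h : node m c i = node m c j) :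
    i = j := by
  have hm : m ≠ 0 := by
    intro h0
    have := i.2
    omega
  unfold node at h
  have h1 := mul_left_cancel₀ hc h
  have hprim : IsPrimitiveRoot (Complex.exp (2 * Real.pi * Complex.I / (m : ℂ))) m :=
    Complex.isPrimitiveRoot_exp m hm
  have e : ∀ k : Fin m, Complex.exp (2 * Real.pi * Complex.I * ((k : ℕ) : ℂ) / (m : ℂ))
      = Complex.exp (2 * Real.pi * Complex.I / (m : ℂ)) ^ (k : ℕ) := by
    intro k
    rw [← Complex.exp_nat_mul]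
    congr 1
    ring
  rw [e i, e j] at h1
  exact Fin.ext (hprim.pow_inj i.2 j.2 h1)

lemma nsq_nonneg (m : ℕ) (c : ℂ) (M : Fin m → ℝ) (w : ℂ[X]) : 0 ≤ nsq m c M w := by
  unfold nsq
  positivity

/-- Multiplication by `X^a` scales `nsq` by `‖c‖^(2a)`. -/
lemma nsq_X_pow_mul (m : ℕ) (c : ℂ) (M : Fin m → ℝ) (a : ℕ) (w : ℂ[X]) :
    nsq m c M (X ^ a * w) = ‖c‖ ^ (2 * a) * nsq m c M w := by
  unfold nsq
  have h : ∀ j : Fin m, ‖(X ^ a * w).eval (node m c j)‖ ^ 2 / (M j) ^ 2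
      = ‖c‖ ^ (2 * a) * (‖w.eval (node m c j)‖ ^ 2 / (M j) ^ 2) := by
    intro j
    rw [eval_mul, eval_pow, eval_X, norm_mul, norm_pow, norm_node m c j]
    ring
  simp only [h]
  rw [← Finset.mul_sum]
  ring

/-- If the weights dominate the values of `w`, then `nsq ≤ 1`. -/
lemma nsq_le_one (m : ℕ) (c : ℂ) (M : Fin m → ℝ) (hM : ∀ j, 0 < M j) (w : ℂ[X])
    (hw : ∀ j, ‖w.eval (node m c j)‖ ≤ M j) : nsq m c M w ≤ 1 := by
  unfold nsq
  rcases Nat.eq_zero_or_pos m with hm | hm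
  · subst hm
    simp
  · have h1 : ∑ j, ‖w.eval (node m c j)‖ ^ 2 / (M j) ^ 2 ≤ ∑ _j : Fin m, (1 : ℝ) := by
      apply Finset.sum_le_sum
      intro j _
      rw [div_le_one (by have := hM j; positivity)]
      exact pow_le_pow_left₀ (norm_nonneg _) (hw j) 2
    have h2 : (∑ _j : Fin m, (1 : ℝ)) = m := by simp
    rw [h2] at h1
    have hm' : (0 : ℝ) < m := by exact_mod_cast hm
    calc (1 / (m : ℝ)) * ∑ j, ‖w.eval (node m c j)‖ ^ 2 / (M j) ^ 2
        ≤ (1 / (m : ℝ)) * m := by gcongr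
      _ = 1 := by field_simp

open Matrix in
/-- The Vandermonde determinant of the nodes. -/
theorem vander (m : ℕ) (c : ℂ) (hm : 1 ≤ m) :
    ‖(Matrix.of fun i j : Fin m => node m c j ^ (i : ℕ)).det‖ ^ 2
      = (m : ℝ) ^ m * ‖c‖ ^ (m * (m - 1)) := by
  classical
  have hm0 : m ≠ 0 := Nat.one_le_iff_ne_zero.mp hm
  have hmC : (m : ℂ) ≠ 0 := by exact_mod_cast hm0
  set ζ : ℂ := Complex.exp (2 * Real.pi * Complex.I / (m : ℂ)) with hζ
  have hprim : IsPrimitiveRoot ζ m := Complex.isPrimitiveRoot_exp m hm0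
  have hnode : ∀ j : Fin m, node m c j = c * ζ ^ (j : ℕ) := by
    intro j
    unfold node
    rw [hζ, ← Complex.exp_nat_mul]
    congr 2
    ring
  have hζn : ‖ζ‖ = 1 := hprim.norm'_eq_one hm0
  have hζ0 : ζ ≠ 0 := hprim.ne_zero hm0
  have hconj : star ζ = ζ⁻¹ := by
    rw [Complex.star_def, Complex.inv_eq_conj hζn]
  set V : Matrix (Fin m) (Fin m) ℂ := Matrix.of fun i j : Fin m => node m c j ^ (i : ℕ) with hV
  have hdiag : V * Vᴴ = Matrix.diagonal (fun i : Fin m => (m : ℂ) * (c * star c) ^ (i : ℕ)) := by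
    ext i k
    rw [Matrix.mul_apply, Matrix.diagonal_apply]
    have hterm : ∀ j : Fin m, V i j * (Vᴴ) j k
        = (c ^ (i : ℕ) * (star c) ^ (k : ℕ)) * (ζ ^ (i : ℕ) * (ζ⁻¹) ^ (k : ℕ)) ^ (j : ℕ) := by
      intro j
      rw [Matrix.conjTranspose_apply, hV, Matrix.of_apply, Matrix.of_apply, hnode, star_pow,
        star_mul', star_pow, hconj]
      ring
    rw [Finset.sum_congr rfl (fun j _ => hterm j), ← Finset.mul_sum]
    by_cases hik : i = k
    · subst hik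
      rw [if_pos rfl]
      have : ζ ^ (i : ℕ) * (ζ⁻¹) ^ (i : ℕ) = 1 := by
        rw [← mul_pow, mul_inv_cancel₀ hζ0, one_pow]
      rw [this, mul_pow]
      simp
      ring
    · rw [if_neg hik]
      have hne : ζ ^ (i : ℕ) * (ζ⁻¹) ^ (k : ℕ) ≠ 1 := by
        intro h
        have h1 : ζ ^ (i : ℕ) = ζ ^ (k : ℕ) := by
          have h2 : ζ ^ (i : ℕ) * (ζ⁻¹) ^ (k : ℕ) * ζ ^ (k : ℕ) = ζ ^ (k : ℕ) := by rw [h, one_mul]
          rwa [mul_assoc, ← mul_pow, inv_mul_cancel₀ hζ0, one_pow, mul_one] at h2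
        exact hik (Fin.ext (hprim.pow_inj i.2 k.2 h1))
      have hpow : (ζ ^ (i : ℕ) * (ζ⁻¹) ^ (k : ℕ)) ^ m = 1 := by
        rw [mul_pow, ← pow_mul, ← pow_mul, mul_comm (i : ℕ), mul_comm (k : ℕ), pow_mul, pow_mul,
          inv_pow, hprim.pow_eq_one]
        simp
      rw [Fin.sum_univ_eq_sum_range (fun j => (ζ ^ (i : ℕ) * (ζ⁻¹) ^ (k : ℕ)) ^ j) m,
        geom_sum_eq hne, hpow]
      simp
  have hdet : (V.det) * star (V.det) = ∏ i : Fin m, (m : ℂ) * (c * star c) ^ (i : ℕ) := by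
    rw [← Matrix.det_conjTranspose, ← Matrix.det_mul, hdiag, Matrix.det_diagonal]
  have hcc : c * star c = ((‖c‖ ^ 2 : ℝ) : ℂ) := by
    rw [Complex.star_def, Complex.mul_conj, Complex.normSq_eq_norm_sq]
  have hprod : (∏ i : Fin m, (m : ℂ) * (c * star c) ^ (i : ℕ))
      = (((m : ℝ) ^ m * ‖c‖ ^ (m * (m - 1)) : ℝ) : ℂ) := by
    rw [Finset.prod_mul_distrib, Finset.prod_const, Finset.card_univ, Fintype.card_fin,
      Finset.prod_pow_eq_pow_sum, hcc, Fin.sum_univ_eq_sum_range (fun j => j) m]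
    have h2 : ‖c‖ ^ (m * (m - 1)) = (‖c‖ ^ 2) ^ (∑ j ∈ Finset.range m, j) := by
      rw [← pow_mul, mul_comm 2, Finset.sum_range_id_mul_two]
    rw [h2]
    push_cast
    ring
  rw [hprod, Complex.star_def, Complex.mul_conj, Complex.normSq_eq_norm_sq] at hdet
  exact_mod_cast hdet

private lemma eval_eq_fin (m : ℕ) (w : ℂ[X]) (hw : w.natDegree < m) (x : ℂ) :
    w.eval x = ∑ i : Fin m, w.coeff (i : ℕ) * x ^ (i : ℕ) := by
  rw [Polynomial.eval_eq_sum_range' hw, Fin.sum_univ_eq_sum_range (fun i => w.coeff i * x ^ i) m]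

theorem det_le (m : ℕ) (c : ℂ) (hm : 1 ≤ m) (M : Fin m → ℝ) (hM : ∀ j, 0 < M j)
    (W : Fin m → ℂ[X]) (hW : ∀ r, (W r).natDegree < m) :
    ‖(Matrix.of fun r i : Fin m => (W r).coeff (i : ℕ)).det‖ ^ 2 * ‖c‖ ^ (m * (m - 1))
      ≤ (∏ j, (M j) ^ 2) * ∏ r, nsq m c M (W r) := by
  classical
  have hm0 : (0 : ℝ) < m := by exact_mod_cast hm
  set C : Matrix (Fin m) (Fin m) ℂ := Matrix.of fun r i : Fin m => (W r).coeff (i : ℕ) with hC
  set V : Matrix (Fin m) (Fin m) ℂ := Matrix.of fun i j : Fin m => node m c j ^ (i : ℕ) with hV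
  set D : Matrix (Fin m) (Fin m) ℂ := Matrix.diagonal fun j => (((M j)⁻¹ : ℝ) : ℂ) with hD
  have hA : ∀ r j, (C * V * D) r j = (W r).eval (node m c j) * (((M j)⁻¹ : ℝ) : ℂ) := by
    intro r j
    rw [hD, Matrix.mul_diagonal]
    congr 1
    rw [eval_eq_fin m (W r) (hW r), Matrix.mul_apply]
    rfl
  have h1 := hadamard (C * V * D)
  have h2 : ∏ i, ∑ j, ‖(C * V * D) i j‖ ^ 2 = (m : ℝ) ^ m * ∏ r, nsq m c M (W r) := by
    have : (m : ℝ) ^ m = ∏ _r : Fin m, (m : ℝ) := by simp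
    rw [this, ← Finset.prod_mul_distrib]
    apply Finset.prod_congr rfl
    intro r _
    unfold nsq
    rw [← mul_assoc, mul_one_div_cancel hm0.ne', one_mul]
    apply Finset.sum_congr rfl
    intro j _
    rw [hA, norm_mul, Complex.norm_real, Real.norm_eq_abs, abs_of_pos (inv_pos.mpr (hM j)), mul_pow,
      inv_pow, div_eq_mul_inv]
  have h3 : ‖(C * V * D).det‖ ^ 2
      = ‖C.det‖ ^ 2 * ((m : ℝ) ^ m * ‖c‖ ^ (m * (m - 1))) * ∏ j, ((M j) ^ 2)⁻¹ := by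
    rw [Matrix.det_mul, Matrix.det_mul, norm_mul, norm_mul, mul_pow, mul_pow, ← vander m c hm]
    congr 1
    rw [hD, Matrix.det_diagonal, norm_prod, ← Finset.prod_pow]
    apply Finset.prod_congr rfl
    intro j _
    rw [Complex.norm_real, Real.norm_eq_abs, abs_of_pos (inv_pos.mpr (hM j)), inv_pow]
  rw [h2, h3] at h1
  have hP : 0 < ∏ j, (M j) ^ 2 := Finset.prod_pos fun j _ => pow_pos (hM j) 2
  rw [Finset.prod_inv_distrib] at h1
  have hmm : (0 : ℝ) < (m : ℝ) ^ m := pow_pos hm0 m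
  have h4 : (m : ℝ) ^ m * (‖C.det‖ ^ 2 * ‖c‖ ^ (m * (m - 1)))
      ≤ (m : ℝ) ^ m * ((∏ j, (M j) ^ 2) * ∏ r, nsq m c M (W r)) := by
    have h5 := mul_le_mul_of_nonneg_right h1 hP.le
    have e1 : ‖C.det‖ ^ 2 * ((m : ℝ) ^ m * ‖c‖ ^ (m * (m - 1))) * (∏ j, (M j) ^ 2)⁻¹
        * (∏ j, (M j) ^ 2) = (m : ℝ) ^ m * (‖C.det‖ ^ 2 * ‖c‖ ^ (m * (m - 1))) := by
      field_simp
    rw [e1] at h5
    refine h5.trans (le_of_eq ?_)
    ring
  exact le_of_mul_le_mul_left h4 hmm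

/-- The archimedean inequality (I_w). -/
theorem Iw (m D n : ℕ) (c : ℂ) (hc : c ≠ 0) (hm : 1 ≤ m) (hD : 2 * D ≤ m) (hn : n ≤ 2 * D)
    (u v w : ℂ[X]) (hu : u.natDegree ≤ D) (hv : v.natDegree ≤ D) (hw : w.natDegree ≤ n)
    (M : Fin m → ℝ) (hpos : ∀ j, 0 < M j)
    (huM : ∀ j, ‖u.eval (node m c j)‖ ≤ M j) (hvM : ∀ j, ‖v.eval (node m c j)‖ ≤ M j) :
    ‖rho D u v‖ ^ 2 * ‖w.coeff n‖ ^ (2 * (m - 2 * D))
        * ‖c‖ ^ (2 * (D ^ 2 + n * (m - 2 * D)))
      ≤ (∏ j, (M j) ^ 2) * (nsq m c M w) ^ (m - 2 * D) := by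
  obtain ⟨k, rfl⟩ := Nat.exists_eq_add_of_le hD
  have hk : 2 * D + k - 2 * D = k := by omega
  have h1 := det_le (2 * D + k) c hm M hpos (fun r => fam D n u v w (r : ℕ))
    (fun r => Pool.Agent.H4.RR.fam_natDegree_lt _ D n hD hn u v w hu hv hw r r.2)
  have h2 := Pool.Agent.H4.RR.famDet_eq (2 * D + k) D n hD hn u v w hu hv hw
  unfold famDet at h2
  rw [h2, hk, norm_mul, norm_pow] at h1
  rw [hk]
  have hβ0 : 0 < ‖c‖ := norm_pos_iff.mpr hc
  set β := ‖c‖ with hβ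
  have hnu := nsq_le_one (2 * D + k) c M hpos u huM
  have hnv := nsq_le_one (2 * D + k) c M hpos v hvM
  have hprod : ∏ r : Fin (2 * D + k), nsq (2 * D + k) c M (fam D n u v w (r : ℕ)) ≤
      β ^ ((∑ r ∈ Finset.range D, 2 * r) + (∑ r ∈ Finset.range D, 2 * r)
        + (∑ r ∈ Finset.range k, 2 * (2 * D + r - n))) * (nsq (2 * D + k) c M w) ^ k := by
    rw [Finset.prod_range (f := fun r => nsq (2 * D + k) c M (fam D n u v w r)) |>.symm]
    refine Pool.Agent.H4.RR.Iw_prod D n k β _ hβ0.le (nsq_nonneg _ _ _ _) _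
      (fun r => nsq_nonneg _ _ _ _)
      (fun r hr => ?_) (fun r hr => ?_) (fun r hr => ?_)
    · have e : fam D n u v w r = X ^ r * u := by unfold fam; simp [hr]
      rw [e, nsq_X_pow_mul _ _]
      exact mul_le_of_le_one_right (by positivity) hnu
    · have e : fam D n u v w (D + r) = X ^ r * v := by
        unfold fam
        have h4 : ¬ (D + r < D) := by omega
        have h5 : D + r < 2 * D := by omega
        simp only [h4, h5, if_true, if_false, Nat.add_sub_cancel_left]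
      rw [e, nsq_X_pow_mul _ _]
      exact mul_le_of_le_one_right (by positivity) hnv
    · have e : fam D n u v w (2 * D + r) = X ^ (2 * D + r - n) * w := by
        unfold fam
        have h4 : ¬ (2 * D + r < D) := by omega
        have h5 : ¬ (2 * D + r < 2 * D) := by omega
        simp only [h4, h5, if_false]
      rw [e, nsq_X_pow_mul _ _]
  have hM : 0 ≤ ∏ j, (M j) ^ 2 := Finset.prod_nonneg fun j _ => by positivity
  have h6 := h1.trans (mul_le_mul_of_nonneg_left hprod hM)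
  rw [← Pool.Agent.H4.RR.Iw_exp D n k hn] at h6
  generalize (∑ r ∈ Finset.range D, 2 * r) + (∑ r ∈ Finset.range D, 2 * r)
        + (∑ r ∈ Finset.range k, 2 * (2 * D + r - n)) = E at h6
  have hE : 0 < β ^ E := by positivity
  refine le_of_mul_le_mul_left ?_ hE
  calc β ^ E * (‖rho D u v‖ ^ 2 * ‖w.coeff n‖ ^ (2 * k) * β ^ (2 * (D ^ 2 + n * k)))
      = (‖rho D u v‖ * ‖w.coeff n‖ ^ k) ^ 2 * β ^ (E + 2 * (D ^ 2 + n * k)) := by
        rw [pow_add, mul_pow, ← pow_mul, mul_comm k 2]; ring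
    _ ≤ _ := h6
    _ = _ := by ring

end Pool.Agent.H4.OH
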