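import Mathlib

/-!
# Orders: embeddings, norms and indices (MP_187c26_nt, sums of radicals)

`A` is an order: an integral domain of characteristic zero, finite over `ℤ`.
-/

set_option autoImplicit false
set_option linter.unusedSectionVars false

open scoped nonZeroDivisors

namespace Pool.Agent.H4.OH

/-- The index of the ideal generated by `a` and `b`. -/
noncomputable def idx (A : Type) [CommRing A] (a b : A) : ℕ :=
  (Submodule.toAddSubgroup (Ideal.span {a, b})).index

section

variable (A : Type) [CommRing A] [IsDomain A] [CharZero A] [Module.Finite ℤ A]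

section Frac

variable (K : Type) [Field K] [Algebra A K] [IsFractionRing A K]

include A in
theorem charZero_frac : CharZero K :=
  charZero_of_injective_algebraMap (IsFractionRing.injective A K)

theorem isLocalization_frac : IsLocalization (Algebra.algebraMapSubmonoid A ℤ⁰) K := by
  have : Algebra.IsIntegral ℤ A := inferInstance
  have : Algebra.IsAlgebraic ℤ A := inferInstance
  infer_instance

include A in
/-- The fraction field of an order is a number field. -/
theorem numberField_frac : NumberField K := by
  have h1 : CharZero K := charZero_frac A K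
  have h2 : IsLocalization (Algebra.algebraMapSubmonoid A ℤ⁰) K := isLocalization_frac A K
  have h3 : Module.Finite ℚ K := Module.Finite.of_isLocalization ℤ A (Rₚ := ℚ) (Sₚ := K) ℤ⁰
  exact { to_charZero := h1, to_finiteDimensional := h3 }

/-- Ring homomorphisms from an order to `ℂ` are injective. -/
theorem hom_injective (τ : A →+* ℂ) : Function.Injective τ := by
  have : Algebra.IsIntegral ℤ A := inferInstance
  rw [injective_iff_map_eq_zero]
  intro a ha
  by_contra h0
  have hint : IsIntegral ℤ a := Algebra.IsIntegral.isIntegral a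
  -- a nonzero multiple of `a` is a nonzero integer
  have halg : IsAlgebraic ℤ a := hint.isAlgebraic
  obtain ⟨r, hr, c, hc⟩ := halg.exists_nonzero_dvd (mem_nonZeroDivisors_of_ne_zero h0)
  have h1 : τ ((algebraMap ℤ A) r) = 0 := by
    rw [hc, map_mul, ha, zero_mul]
  have h2 : ((r : ℤ) : ℂ) = 0 := by
    have : τ ((algebraMap ℤ A) r) = (r : ℂ) := by simp
    rw [← this, h1]
  exact hr (by exact_mod_cast h2)

/-- Embeddings of the order are embeddings of its fraction field. -/
noncomputable def homEquiv : (K →+* ℂ) ≃ (A →+* ℂ) where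
  toFun τ := τ.comp (algebraMap A K)
  invFun σ := IsFractionRing.lift (hom_injective A σ)
  left_inv τ := by
    apply IsLocalization.ringHom_ext A⁰
    ext a
    simp
  right_inv σ := by
    ext a
    simp

end Frac

instance finite_hom : Finite (A →+* ℂ) := by
  have := numberField_frac A (FractionRing A)
  exact Finite.of_equiv _ (homEquiv A (FractionRing A))

noncomputable instance fintypeHom : Fintype (A →+* ℂ) := Fintype.ofFinite _

theorem card_hom_aux (K : Type) [Field K] [Algebra A K] [IsFractionRing A K] :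
    Fintype.card (A →+* ℂ) = Module.finrank ℤ A := by
  have hnf := numberField_frac A K
  rw [← Fintype.card_congr (homEquiv A K), NumberField.Embeddings.card]
  have h2 : IsLocalization (Algebra.algebraMapSubmonoid A ℤ⁰) K := isLocalization_frac A K
  have b := Module.Free.chooseBasis ℤ A
  have b' := b.localizationLocalization ℚ ℤ⁰ K
  rw [Module.finrank_eq_card_basis b, Module.finrank_eq_card_basis b']

theorem card_hom : Fintype.card (A →+* ℂ) = Module.finrank ℤ A :=
  card_hom_aux A (FractionRing A)

theorem card_hom_pos : 0 < Fintype.card (A →+* ℂ) := by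
  rw [card_hom]
  exact Module.finrank_pos

theorem norm_eq_aux (K : Type) [Field K] [Algebra A K] [IsFractionRing A K] (a : A) :
    ((Algebra.norm ℤ a).natAbs : ℝ) = ∏ τ : A →+* ℂ, ‖τ a‖ := by
  have hnf := numberField_frac A K
  have h2 : IsLocalization (Algebra.algebraMapSubmonoid A ℤ⁰) K := isLocalization_frac A K
  have h3 : Algebra.norm ℚ (algebraMap A K a) = algebraMap ℤ ℚ (Algebra.norm ℤ a) :=
    Algebra.norm_localization ℤ (Rₘ := ℚ) (Sₘ := K) ℤ⁰ a
  have h5 : algebraMap ℚ ℂ (Algebra.norm ℚ (algebraMap A K a))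
      = ∏ τ : K →ₐ[ℚ] ℂ, τ (algebraMap A K a) :=
    Algebra.norm_eq_prod_embeddings ℚ ℂ _
  rw [h3] at h5
  have h6 : (((Algebra.norm ℤ a).natAbs : ℕ) : ℝ)
      = ‖algebraMap ℚ ℂ (algebraMap ℤ ℚ (Algebra.norm ℤ a))‖ := by
    simp only [eq_intCast, map_intCast, Complex.norm_intCast]
    rw [Nat.cast_natAbs]
    push_cast
    rfl
  rw [h6, h5, norm_prod]
  refine (Fintype.prod_equiv (RingHom.equivRatAlgHom K ℂ)
    (fun τ : K →+* ℂ => ‖τ (algebraMap A K a)‖)
    (fun τ : K →ₐ[ℚ] ℂ => ‖τ (algebraMap A K a)‖)
    (fun τ => rfl)).symm.trans ?_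
  exact Fintype.prod_equiv (homEquiv A K) _ (fun τ : A →+* ℂ => ‖τ a‖) (fun τ => rfl)

/-- The norm is the product of the conjugates. -/
theorem norm_eq (a : A) : ((Algebra.norm ℤ a).natAbs : ℝ) = ∏ τ : A →+* ℂ, ‖τ a‖ :=
  norm_eq_aux A (FractionRing A) a

theorem norm_ne_zero' (a : A) (ha : a ≠ 0) : Algebra.norm ℤ a ≠ 0 :=
  Algebra.norm_ne_zero_iff.mpr ha

/-- The order height of a pair. -/
noncomputable def OHt (a b : A) : ℝ :=
  (∏ τ : A →+* ℂ, max ‖τ a‖ ‖τ b‖) / (idx A a b : ℝ)

end

end Pool.Agent.H4.OH
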