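import Pool.Agent.H4.OH.Step

/-!
# Orders inside a field (MP_187c26_nt, sums of radicals)

`BogS A S κ`: order heights of pairs of `A` whose ratio is outside `S` are at least `κ` (normalised).
`DenS A S θ`: every element of `S` is a quotient of elements of `A` with small conjugates.
-/

set_option autoImplicit false

namespace Pool.Agent.H4.OH

variable {Ω : Type} [Field Ω] [CharZero Ω]

instance charZeroSubring (A : Subring Ω) : CharZero A :=
  ⟨fun m n h => by
    have h1 := congrArg (fun y : A => (y : Ω)) h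
    simpa using h1⟩

/-- Lower bound for the order heights of an order `A` of `Ω` outside a group `S`. -/
def BogS (A : Subring Ω) (S : Subgroup Ωˣ) (κ : ℝ) : Prop :=
  ∃ _ : Module.Finite ℤ A, ∀ a b : A, a ≠ 0 → b ≠ 0 → (∀ s ∈ S, (a : Ω) ≠ (s : Ω) * (b : Ω)) →
    κ * Fintype.card (A →+* ℂ) ≤ Real.log (OHt A a b)

/-- The elements of `S` are quotients of elements of the order `A` with small conjugates. -/
def DenS (A : Subring Ω) (S : Subgroup Ωˣ) (θ : ℝ) : Prop :=
  ∃ _ : Module.Finite ℤ A, ∀ s ∈ S, ∃ g1 g2 : A, g1 ≠ 0 ∧ g2 ≠ 0 ∧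
    (g1 : Ω) = (s : Ω) * (g2 : Ω) ∧ ∀ τ : A →+* ℂ,
      ‖τ g1‖ ≤ Real.exp (θ * (Real.log (OHt A g1 g2) / Fintype.card (A →+* ℂ))) ∧
      ‖τ g2‖ ≤ Real.exp (θ * (Real.log (OHt A g1 g2) / Fintype.card (A →+* ℂ)))

end Pool.Agent.H4.OH
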